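import Pool.Agent.RP38.Defs

/-!
# Angles at the vertices of a convex polygon (module RP38:Ang)

Proof.  `orient p q r > 0` gives `Im ((r - p) / (q - p)) > 0` (see `RegPoly.orient_eq_im`, `arg_pos_of_orient`), hence
`ang ∈ (0, π)`.  Additivity: the product of the two quotients is the third; the sum of the two arguments lies in `(0, 2π)`, the
third in `(0, π)` and they agree mod `2π` (`Complex.arg_mul_coe_angle` or exp of i times both sides).  Triangle: the product
of the three quotients `(C-A)/(B-A)`, `(A-B)/(C-B)`, `(B-C)/(A-C)` is `-1`, the three arguments lie in `(0, π)`, so the sum is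
`π` (mod `2π`, in `(0, 3π)`).  For the triangle `(i, i+a, i+c)`: all three orientations are positive by cyclic invariance
(`orient_cyc`).
-/

namespace RP38

open Finset Pool.Agent.RegPoly

variable {n : ℕ} [NeZero n] {z : ZMod n → ℂ}

private lemma Ang_im_div (p q r : ℂ) : ((r - p) / (q - p)).im = orient p q r / Complex.normSq (q - p) := by
  rw [Complex.div_im, orient]
  simp only [Complex.sub_re, Complex.sub_im]
  ring

private lemma Ang_im_pos {p q r : ℂ} (h : 0 < orient p q r) : 0 < ((r - p) / (q - p)).im := by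
  rw [Ang_im_div]
  have hne : q - p ≠ 0 := by
    intro h0
    have h1 : q = p := sub_eq_zero.mp h0
    rw [h1] at h
    simp [orient] at h
  exact div_pos h (Complex.normSq_pos.mpr hne)

private lemma Ang_ne1 {p q r : ℂ} (h : 0 < orient p q r) : q ≠ p := by
  intro h1
  rw [h1] at h
  simp [orient] at h

private lemma Ang_ne2 {p q r : ℂ} (h : 0 < orient p q r) : r ≠ p := by
  intro h1
  rw [h1] at h
  simp [orient] at h

private lemma Ang_arg_pos {w : ℂ} (h : 0 < w.im) : 0 < w.arg := by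
  have h0 : 0 ≤ w.arg := Complex.arg_nonneg_iff.mpr h.le
  rcases h0.eq_or_lt with he | hlt
  · exfalso
    have h1 : w.arg = 0 := he.symm
    rw [Complex.arg_eq_zero_iff] at h1
    linarith [h1.2]
  · exact hlt

private lemma Ang_arg_lt {w : ℂ} (h : 0 < w.im) : w.arg < Real.pi :=
  Complex.arg_lt_pi_iff.mpr (Or.inr h.ne')

private lemma Ang_ne0 {w : ℂ} (h : 0 < w.im) : w ≠ 0 := by
  intro h0
  rw [h0] at h
  simp at h

private lemma Ang_arg_mul {u v : ℂ} (hu : 0 < u.im) (hv : 0 < v.im) (huv : 0 < (u * v).im) :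
    u.arg + v.arg = (u * v).arg := by
  have h1 := Complex.arg_mul_coe_angle (Ang_ne0 hu) (Ang_ne0 hv)
  rw [← Real.Angle.coe_add, Real.Angle.angle_eq_iff_two_pi_dvd_sub] at h1
  obtain ⟨k, hk⟩ := h1
  have a1 := Ang_arg_pos hu
  have a2 := Ang_arg_pos hv
  have a3 := Ang_arg_pos huv
  have b1 := Ang_arg_lt hu
  have b2 := Ang_arg_lt hv
  have b3 := Ang_arg_lt huv
  have hpi := Real.pi_pos
  have hk1 : (-1 : ℝ) < k := by nlinarith
  have hk2 : (k : ℝ) < 1 := by nlinarith
  have hk1' : (-1 : ℤ) < k := by exact_mod_cast hk1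
  have hk2' : k < (1 : ℤ) := by exact_mod_cast hk2
  have hk0 : k = 0 := by omega
  rw [hk0] at hk
  simp at hk
  linarith

private lemma Ang_arg_tri {u v w : ℂ} (hu : 0 < u.im) (hv : 0 < v.im) (hw : 0 < w.im)
    (h : u * v * w = -1) : u.arg + v.arg + w.arg = Real.pi := by
  have h1 := Complex.arg_mul_coe_angle (mul_ne_zero (Ang_ne0 hu) (Ang_ne0 hv)) (Ang_ne0 hw)
  rw [Complex.arg_mul_coe_angle (Ang_ne0 hu) (Ang_ne0 hv), h, Complex.arg_neg_one,
    ← Real.Angle.coe_add, ← Real.Angle.coe_add, Real.Angle.angle_eq_iff_two_pi_dvd_sub] at h1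
  obtain ⟨k, hk⟩ := h1
  have a1 := Ang_arg_pos hu
  have a2 := Ang_arg_pos hv
  have a3 := Ang_arg_pos hw
  have b1 := Ang_arg_lt hu
  have b2 := Ang_arg_lt hv
  have b3 := Ang_arg_lt hw
  have hpi := Real.pi_pos
  have hk1 : (-1 : ℝ) < k := by nlinarith
  have hk2 : (k : ℝ) < 1 := by nlinarith
  have hk1' : (-1 : ℤ) < k := by exact_mod_cast hk1
  have hk2' : k < (1 : ℤ) := by exact_mod_cast hk2
  have hk0 : k = 0 := by omega
  rw [hk0] at hk
  simp at hk
  linarith

omit [NeZero n] in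
private lemma Ang_cast {a : ℕ} (ha : a ≤ n) : (((n - a : ℕ)) : ZMod n) = -(a : ZMod n) := by
  rw [Nat.cast_sub ha, ZMod.natCast_self, zero_sub]

theorem CPos.ne (hz : CPos z) (hn : 3 ≤ n) (i : ZMod n) {a : ℕ} (ha : 0 < a) (han : a < n) :
    z (i + (a : ZMod n)) ≠ z i := by
  by_cases h : a + 1 < n
  · exact Ang_ne1 (hz i a (a + 1) ha (Nat.lt_succ_self a) h)
  · exact Ang_ne2 (hz i 1 a one_pos (by omega) han)

theorem ang_pos (hz : CPos z) (i : ZMod n) {a c : ℕ} (ha : 0 < a) (hac : a < c) (hc : c < n) :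
    0 < ang z i a c :=
  Ang_arg_pos (Ang_im_pos (hz i a c ha hac hc))

theorem ang_lt_pi (hz : CPos z) (i : ZMod n) {a c : ℕ} (ha : 0 < a) (hac : a < c) (hc : c < n) :
    ang z i a c < Real.pi :=
  Ang_arg_lt (Ang_im_pos (hz i a c ha hac hc))

/-- additivity at a vertex -/
theorem ang_add (hz : CPos z) (i : ZMod n) {a c d : ℕ} (ha : 0 < a) (hac : a < c) (hcd : c < d)
    (hd : d < n) : ang z i a c + ang z i c d = ang z i a d := by
  have h1 := Ang_im_pos (hz i a c ha hac (hcd.trans hd))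
  have h2 := Ang_im_pos (hz i c d (ha.trans hac) hcd hd)
  have h3 := Ang_im_pos (hz i a d ha (hac.trans hcd) hd)
  have hne : z (i + (c : ZMod n)) - z i ≠ 0 :=
    sub_ne_zero.mpr (Ang_ne1 (hz i c d (ha.trans hac) hcd hd))
  have hmul : (z (i + (c : ZMod n)) - z i) / (z (i + (a : ZMod n)) - z i)
      * ((z (i + (d : ZMod n)) - z i) / (z (i + (c : ZMod n)) - z i))
      = (z (i + (d : ZMod n)) - z i) / (z (i + (a : ZMod n)) - z i) := by
    rw [mul_comm, div_mul_div_cancel₀ hne]
  have h4 := Ang_arg_mul h1 h2 (by rw [hmul]; exact h3)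
  rw [hmul] at h4
  exact h4

/-- the angles of the triangle `(i, i + a, i + c)` -/
theorem ang_triangle (hz : CPos z) (i : ZMod n) {a c : ℕ} (ha : 0 < a) (hac : a < c) (hc : c < n) :
    ang z i a c + ang z (i + (a : ZMod n)) (c - a) (n - a)
      + ang z (i + (c : ZMod n)) (n - c) (n - c + a) = Real.pi := by
  have e1 : i + (a : ZMod n) + ((c - a : ℕ) : ZMod n) = i + (c : ZMod n) := by
    rw [Nat.cast_sub hac.le]; ring
  have e2 : i + (a : ZMod n) + ((n - a : ℕ) : ZMod n) = i := by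
    rw [Ang_cast (hac.le.trans hc.le)]; ring
  have e3 : i + (c : ZMod n) + ((n - c : ℕ) : ZMod n) = i := by
    rw [Ang_cast hc.le]; ring
  have e4 : i + (c : ZMod n) + ((n - c + a : ℕ) : ZMod n) = i + (a : ZMod n) := by
    rw [Nat.cast_add, Ang_cast hc.le]; ring
  have h1 := hz i a c ha hac hc
  have h2 : 0 < orient (z (i + (a : ZMod n))) (z (i + (c : ZMod n))) (z i) := by
    rw [← orient_cyc]; exact h1
  have h3 : 0 < orient (z (i + (c : ZMod n))) (z i) (z (i + (a : ZMod n))) := by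
    rw [← orient_cyc]; exact h2
  have n1 : z (i + (a : ZMod n)) - z i ≠ 0 := sub_ne_zero.mpr (Ang_ne1 h1)
  have n2 : z (i + (c : ZMod n)) - z (i + (a : ZMod n)) ≠ 0 := sub_ne_zero.mpr (Ang_ne1 h2)
  have n3 : z i - z (i + (c : ZMod n)) ≠ 0 := sub_ne_zero.mpr (Ang_ne1 h3)
  unfold ang
  rw [e1, e2, e3, e4]
  apply Ang_arg_tri (Ang_im_pos h1) (Ang_im_pos h2) (Ang_im_pos h3)
  field_simp
  ring

/-- projection formula `|AC| = |AB| cos A + |BC| cos C` in the triangle `A = i, B = i + g, C = i + g + k` -/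
theorem len_proj (hz : CPos z) (i : ZMod n) {g k : ℕ} (hg : 0 < g) (hk : 0 < k) (hgk : g + k < n) :
    len z (g + k) i = len z g i * Real.cos (ang z i g (g + k))
      + len z k (i + (g : ZMod n)) *
        Real.cos (ang z (i + (g : ZMod n) + (k : ZMod n)) (n - g - k) (n - k)) := by
  have e1 : i + (g : ZMod n) + (k : ZMod n) + ((n - g - k : ℕ) : ZMod n) = i := by
    rw [Nat.sub_sub, Ang_cast hgk.le, Nat.cast_add]; ring
  have e2 : i + (g : ZMod n) + (k : ZMod n) + ((n - k : ℕ) : ZMod n) = i + (g : ZMod n) := by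
    rw [Ang_cast (by omega)]; ring
  have h1 := hz i g (g + k) hg (by omega) hgk
  have n1 := Ang_ne1 h1
  have n2 := Ang_ne2 h1
  have n3 : z (i + ((g + k : ℕ) : ZMod n)) ≠ z (i + (g : ZMod n)) := by
    rw [orient_cyc] at h1
    exact Ang_ne1 h1
  unfold len ang
  rw [e1, e2]
  rw [Nat.cast_add, ← add_assoc] at n2 n3 ⊢
  generalize z i = A at *
  generalize z (i + (g : ZMod n)) = B at *
  generalize z (i + (g : ZMod n) + (k : ZMod n)) = C at *
  rw [Complex.cos_arg (div_ne_zero (sub_ne_zero.mpr n2) (sub_ne_zero.mpr n1)),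
    Complex.cos_arg (div_ne_zero (sub_ne_zero.mpr n3.symm) (sub_ne_zero.mpr n2.symm))]
  have p1 : 0 < ‖B - A‖ := norm_pos_iff.mpr (sub_ne_zero.mpr n1)
  have p2 : 0 < ‖C - A‖ := norm_pos_iff.mpr (sub_ne_zero.mpr n2)
  have p3 : 0 < ‖C - B‖ := norm_pos_iff.mpr (sub_ne_zero.mpr n3)
  rw [norm_div, norm_div, norm_sub_rev B C, norm_sub_rev A C, Complex.div_re, Complex.div_re,
    ← Complex.sq_norm, ← Complex.sq_norm, norm_sub_rev A C]
  have q2 : ‖C - A‖ ^ 2 = (C.re - A.re) ^ 2 + (C.im - A.im) ^ 2 := by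
    rw [Complex.sq_norm, Complex.normSq_apply]; simp; ring
  simp only [Complex.sub_re, Complex.sub_im]
  field_simp
  rw [q2]
  ring

/-- crossing diagonals: for the chord from `i` to `i + g` and partner class `k`, `g + 2 k ≤ n`, the two angles add up to
less than `π`:  `∠BAC ≤ ∠BAC'` and the triangle `A, B, C'`, where `C = i + g + k`, `C' = i - k = i + (n - k)` -/
theorem pair_lt_pi (hz : CPos z) (i : ZMod n) {g k : ℕ} (hg : 0 < g) (hk : 0 < k)
    (hgk : g + 2 * k ≤ n) :
    ang z i g (g + k) + ang z (i + (g : ZMod n)) (n - g - k) (n - g) < Real.pi := by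
  have h1 : ang z i g (g + k) ≤ ang z i g (n - k) := by
    rcases Nat.lt_or_ge (g + k) (n - k) with h | h
    · rw [← ang_add hz i hg (by omega : g < g + k) h (by omega)]
      have := ang_pos hz i (by omega : 0 < g + k) h (by omega)
      linarith
    · have : g + k = n - k := by omega
      rw [this]
  have h2 := ang_triangle hz i hg (by omega : g < n - k) (by omega : n - k < n)
  have h3 : 0 < ang z (i + ((n - k : ℕ) : ZMod n)) (n - (n - k)) (n - (n - k) + g) :=
    ang_pos hz _ (by omega) (by omega) (by omega)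
  have h4 : n - k - g = n - g - k := by omega
  rw [h4] at h2
  linarith

end RP38
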