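import Pool.Agent.RP38.Ang

/-!
# The exact mean of the angles (module RP38:AngSum)

Proof.  `S a c = ∑_i ang z i a c` (`0 < a < c < n`).  Additivity: `S a c + S c d = S a d`.  Triangle sums, summed over `i`
(shift of the summation variable): `S a c + S (c-a) (n-a) + S (n-c) (n-c+a) = n π`.  Put `P j = S 1 j` for `2 ≤ j`, `P 1 = 0`, so
`S a c = P c - P a`, and `Q j = P (n-j) - P j` (`1 ≤ j ≤ n-1`).  The triangle identity reads
`Q a + Q (c-a) - Q c = n π`, so `L j = Q j - n π` is additive: `L (a+d) = L a + L d` for `a, d ≥ 1`, `a + d ≤ n - 1`, hence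
`L j = j L 1`; and `Q (n-j) = - Q j` gives `L j + L (n-j) = - 2 n π`, so `L 1 = - 2 π` and `Q j = π (n - 2 j)`.
Finally `∑_i (ang z i g (g+k) + ang z (i+g) (n-g-k) (n-g)) = S g (g+k) + S (n-g-k) (n-g)
 = P (g+k) - P g + P (n-g) - P (n-g-k) = Q g - Q (g+k) = 2 π k`.
-/

namespace RP38

open Finset Pool.Agent.RegPoly

variable {n : ℕ} [NeZero n] {z : ZMod n → ℂ}

/-- the sum of the angles of one type -/
private noncomputable def AngSum_S (z : ZMod n → ℂ) (a c : ℕ) : ℝ := ∑ i : ZMod n, ang z i a c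

private lemma AngSum_shift (z : ZMod n → ℂ) (a c : ℕ) (s : ZMod n) :
    ∑ i : ZMod n, ang z (i + s) a c = AngSum_S z a c :=
  Equiv.sum_comp (Equiv.addRight s) (fun i => ang z i a c)

private lemma AngSum_add (hz : CPos z) {a c d : ℕ} (ha : 0 < a) (hac : a < c) (hcd : c < d)
    (hd : d < n) : AngSum_S z a c + AngSum_S z c d = AngSum_S z a d := by
  unfold AngSum_S
  rw [← Finset.sum_add_distrib]
  exact Finset.sum_congr rfl (fun i _ => ang_add hz i ha hac hcd hd)

private lemma AngSum_tri (hz : CPos z) {a c : ℕ} (ha : 0 < a) (hac : a < c) (hc : c < n) :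
    AngSum_S z a c + AngSum_S z (c - a) (n - a) + AngSum_S z (n - c) (n - c + a)
      = n * Real.pi := by
  rw [← AngSum_shift z (c - a) (n - a) (a : ZMod n),
    ← AngSum_shift z (n - c) (n - c + a) (c : ZMod n)]
  unfold AngSum_S
  rw [← Finset.sum_add_distrib, ← Finset.sum_add_distrib,
    Finset.sum_congr rfl (fun i _ => ang_triangle hz i ha hac hc)]
  simp [ZMod.card]

/-- the potential -/
private noncomputable def AngSum_P (z : ZMod n → ℂ) (j : ℕ) : ℝ :=
  if j ≤ 1 then 0 else AngSum_S z 1 j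

private lemma AngSum_SP (hz : CPos z) {a c : ℕ} (ha : 0 < a) (hac : a < c) (hc : c < n) :
    AngSum_S z a c = AngSum_P z c - AngSum_P z a := by
  unfold AngSum_P
  rw [if_neg (by omega : ¬ c ≤ 1)]
  by_cases h : a ≤ 1
  · rw [if_pos h]
    have : a = 1 := by omega
    rw [this]; ring
  · rw [if_neg h]
    have := AngSum_add hz (by omega : 0 < 1) (by omega : 1 < a) hac hc
    linarith

/-- the function `L j = P (n-j) - P j - n π` -/
private noncomputable def AngSum_L (z : ZMod n → ℂ) (j : ℕ) : ℝ :=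
  AngSum_P z (n - j) - AngSum_P z j - n * Real.pi

private lemma AngSum_L_add (hz : CPos z) {a d : ℕ} (ha : 0 < a) (hd : 0 < d) (had : a + d < n) :
    AngSum_L z (a + d) = AngSum_L z a + AngSum_L z d := by
  have h := AngSum_tri hz ha (by omega : a < a + d) had
  have e1 : a + d - a = d := by omega
  have e2 : n - (a + d) + a = n - d := by omega
  rw [e1, e2, AngSum_SP hz ha (by omega : a < a + d) had,
    AngSum_SP hz hd (by omega : d < n - a) (by omega),
    AngSum_SP hz (by omega : 0 < n - (a + d)) (by omega : n - (a + d) < n - d) (by omega)] at h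
  unfold AngSum_L
  linarith

private lemma AngSum_L_lin (hz : CPos z) {j : ℕ} (hj : 0 < j) (hjn : j < n) :
    AngSum_L z j = j * AngSum_L z 1 := by
  induction j with
  | zero => omega
  | succ j ih =>
    rcases Nat.eq_zero_or_pos j with h0 | h0
    · rw [h0]; simp
    · rw [AngSum_L_add hz h0 one_pos hjn, ih h0 (by omega)]
      push_cast; ring

private lemma AngSum_L_one (hz : CPos z) (hn : 2 ≤ n) : AngSum_L z 1 = -(2 * Real.pi) := by
  have h1 := AngSum_L_lin hz (by omega : 0 < n - 1) (by omega : n - 1 < n)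
  have h2 : AngSum_L z 1 + AngSum_L z (n - 1) = -(2 * n * Real.pi) := by
    unfold AngSum_L
    have : n - (n - 1) = 1 := by omega
    rw [this]; ring
  rw [h1, Nat.cast_sub (by omega : 1 ≤ n), Nat.cast_one] at h2
  have hn0 : (0 : ℝ) < n := by exact_mod_cast (by omega : 0 < n)
  have h3 : (n : ℝ) * (AngSum_L z 1 + 2 * Real.pi) = 0 := by linear_combination h2
  rcases mul_eq_zero.mp h3 with h4 | h4
  · exact absurd h4 hn0.ne'
  · linarith

theorem ang_sum (hz : CPos z) {g k : ℕ} (hg : 0 < g) (hk : 0 < k) (hgk : g + k < n) :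
    ∑ i : ZMod n, (ang z i g (g + k) + ang z (i + (g : ZMod n)) (n - g - k) (n - g))
      = 2 * Real.pi * (k : ℝ) := by
  rw [Finset.sum_add_distrib, AngSum_shift]
  change AngSum_S z g (g + k) + _ = _
  rw [AngSum_SP hz hg (by omega : g < g + k) hgk,
    AngSum_SP hz (by omega : 0 < n - g - k) (by omega : n - g - k < n - g) (by omega)]
  have h1 := AngSum_L_lin hz hg (by omega : g < n)
  have h2 := AngSum_L_lin hz (by omega : 0 < g + k) hgk
  rw [AngSum_L_one hz (by omega)] at h1 h2
  unfold AngSum_L at h1 h2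
  have e1 : n - (g + k) = n - g - k := by omega
  rw [e1] at h2
  push_cast at h2
  linarith

end RP38
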