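import Pool.Agent.RP38.Defs

/-!
# The quadratic inequality (module RP38:Bessel)

`n = 2 m + 1`, `χ (i) = exp (2 π I i / n)`, `F j = ∑ i, z i χ (j i)`.
(1) For `j = 1, 3` (more generally `j` not divisible by `n`):
`∑_{i,i'} cos (2 π j (i-i')/n) ‖z i - z i'‖² = - (‖F j‖² + ‖F (-j)‖²)` (the terms `‖z i‖²` cancel since `∑_i χ (j i) = 0`).
(2) pairs `(i, i')`, `i ≠ i'`, are `(i+h, i)` and `(i, i+h)` for `1 ≤ h ≤ m`:
`∑_{i,i'} f (i - i') = 2 ∑_{h=1}^m ∑_i f h` for even `f` with `f 0 = 0`.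
(3) `φ_h (X^(h))² = (-(19/16) cos 2 b_h + (3/16) cos 6 b_h) len² / (4 R²)`, so
`∑_{h=1}^m φ_h ∑_i X² = (1/(8R²)) ((19/16) (‖F 1‖² + ‖F (-1)‖²) - (3/16) (‖F 3‖² + ‖F (-3)‖²)) ≤ (19/(128 R²)) (‖F 1‖² + ‖F(-1)‖²)`.
(4) Bessel for `w i = z (i+m) - z i` and the two orthogonal characters `χ (±i)`:
`‖ŵ 1‖² + ‖ŵ (-1)‖² ≤ n ∑ ‖w i‖²`, `‖ŵ (±1)‖² = 4 sin² (π m/n) ‖F (±1)‖² = (4/R²) ‖F (±1)‖²`.
(5) `‖w i‖ ≤ 2`, i.e. `X^(m) ≤ 1` (`2 R sin (b n m) = 2`), so `∑_{h=1}^m φ_h ∑ X² ≤ (19 n/128) ∑ (X^(m))²`, hence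
`∑_{h<m} φ_h ∑ X² ≤ (19 n/128 - φ_m) ∑ (X^(m))² ≤ (19 n/128 - φ_m) n` as `φ_m ≤ 1 ≤ 19 n/128` for `n ≥ 9`.
(6) `∑_{h=1}^m φ_h = 19 n/128` (the regular polygon; or `sin² x (-(19/16) cos 2x + (3/16) cos 6x)` is a combination of
`cos 2x, cos 4x, cos 6x, cos 8x` and the constant `19/64`, and `∑_{h=1}^{m} cos (2 π j h/n) = -1/2` for `j = 1, 2, 3, 4`;
the coefficients of the cosines sum to `-19/64`: value at `x = 0` is `0`).
-/

namespace RP38

open Finset Pool.Agent.RegPoly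

/-! ### auxiliary lemmas -/

private lemma bs_sum_range {n : ℕ} [NeZero n] {β : Type*} [AddCommMonoid β] (G : ZMod n → β) :
    ∑ x : ZMod n, G x = ∑ k ∈ range n, G (k : ZMod n) := by
  symm
  refine Finset.sum_nbij' (fun k => (k : ZMod n)) ZMod.val ?_ ?_ ?_ ?_ ?_
  · intro k _; exact mem_univ _
  · intro x _; exact mem_range.2 (ZMod.val_lt x)
  · intro k hk; exact ZMod.val_cast_of_lt (mem_range.1 hk)
  · intro x _; exact ZMod.natCast_zmod_val x
  · intro k _; rfl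

/-- the sum over `ZMod n`, `n = 2 m + 1`, of an even function -/
private lemma bs_sum_even {m n : ℕ} [NeZero n] (hn : n = 2 * m + 1) (G : ZMod n → ℝ)
    (hG : ∀ x, G (-x) = G x) :
    ∑ x : ZMod n, G x = G 0 + 2 * ∑ h ∈ Ico 1 (m + 1), G (h : ZMod n) := by
  rw [bs_sum_range]
  have h1 : range n = Ico 0 n := by rw [range_eq_Ico]
  rw [h1, ← Finset.sum_Ico_consecutive (fun k : ℕ => G (k : ZMod n)) (Nat.zero_le (m + 1))
    (by omega : m + 1 ≤ n), Finset.sum_eq_sum_Ico_succ_bot (by omega : 0 < m + 1)]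
  have h2 : ∑ k ∈ Ico (m + 1) n, G (k : ZMod n) = ∑ h ∈ Ico 1 (m + 1), G (h : ZMod n) := by
    refine Finset.sum_nbij' (fun k => n - k) (fun k => n - k) ?_ ?_ ?_ ?_ ?_
    · intro k hk; rw [mem_Ico] at hk ⊢; omega
    · intro k hk; rw [mem_Ico] at hk ⊢; omega
    · intro k hk; rw [mem_Ico] at hk; show n - (n - k) = k; omega
    · intro k hk; rw [mem_Ico] at hk; show n - (n - k) = k; omega
    · intro k hk
      rw [mem_Ico] at hk
      rw [Nat.cast_sub (by omega : k ≤ n), ZMod.natCast_self, zero_sub, hG]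
  rw [h2, Nat.cast_zero]
  ring

private noncomputable def bs_e (n : ℕ) [NeZero n] : AddChar (ZMod n) ℂ := ZMod.stdAddChar

private lemma bs_e_sum {n : ℕ} [NeZero n] (a : ZMod n) :
    ∑ j : ZMod n, bs_e n (j * a) = if a = 0 then (n : ℂ) else 0 := by
  have h := AddChar.sum_mulShift a (ZMod.isPrimitive_stdAddChar n)
  rw [ZMod.card] at h
  unfold bs_e
  rw [h]
  split_ifs <;> simp

private lemma bs_e_conj {n : ℕ} [NeZero n] (a : ZMod n) :
    (starRingEnd ℂ) (bs_e n a) = bs_e n (-a) :=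
  (AddChar.map_neg_eq_conj _ a).symm

private lemma bs_e_nat {n : ℕ} [NeZero n] (k : ℕ) :
    bs_e n (k : ZMod n) = Complex.exp (((2 * Real.pi * k / n : ℝ) : ℂ) * Complex.I) := by
  unfold bs_e
  have h := ZMod.stdAddChar_coe (N := n) (k : ℤ)
  rw [Int.cast_natCast] at h
  rw [h]
  congr 1
  push_cast
  ring

private lemma bs_e_re {n : ℕ} [NeZero n] (k : ℕ) :
    (bs_e n (k : ZMod n)).re = Real.cos (2 * Real.pi * k / n) := by
  rw [bs_e_nat, Complex.exp_ofReal_mul_I_re]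

private noncomputable def bs_F {n : ℕ} [NeZero n] (z : ZMod n → ℂ) (a : ZMod n) : ℂ :=
  ∑ i, z i * bs_e n (a * i)

private lemma bs_normSq (c : ℂ) : ((‖c‖ ^ 2 : ℝ) : ℂ) = c * (starRingEnd ℂ) c := by
  rw [Complex.mul_conj, Complex.normSq_eq_norm_sq]

private lemma bs_F_sq {n : ℕ} [NeZero n] (z : ZMod n → ℂ) (a : ZMod n) :
    ((‖bs_F z a‖ ^ 2 : ℝ) : ℂ) =
      ∑ i, ∑ k, bs_e n (a * (i - k)) * (z i * (starRingEnd ℂ) (z k)) := by
  rw [bs_normSq]
  unfold bs_F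
  rw [map_sum, Finset.sum_mul_sum]
  refine Finset.sum_congr rfl fun i _ => Finset.sum_congr rfl fun k _ => ?_
  rw [map_mul (starRingEnd ℂ), bs_e_conj, show a * (i - k) = a * i + -(a * k) by ring,
    AddChar.map_add_eq_mul]
  ring

private lemma bs_parseval {n : ℕ} [NeZero n] (w : ZMod n → ℂ) :
    ∑ a, ‖bs_F w a‖ ^ 2 = n * ∑ i, ‖w i‖ ^ 2 := by
  have h : ((∑ a, ‖bs_F w a‖ ^ 2 : ℝ) : ℂ) = ((n * ∑ i, ‖w i‖ ^ 2 : ℝ) : ℂ) := by
    rw [Complex.ofReal_sum]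
    rw [Finset.sum_congr rfl fun a _ => bs_F_sq w a]
    rw [Finset.sum_comm]
    have h1 : ∀ i : ZMod n, ∑ a : ZMod n, ∑ k : ZMod n,
        bs_e n (a * (i - k)) * (w i * (starRingEnd ℂ) (w k)) = n * ((‖w i‖ ^ 2 : ℝ) : ℂ) := by
      intro i
      rw [Finset.sum_comm]
      have h2 : ∀ k : ZMod n, ∑ a : ZMod n,
          bs_e n (a * (i - k)) * (w i * (starRingEnd ℂ) (w k)) =
            if i = k then (n : ℂ) * (w i * (starRingEnd ℂ) (w k)) else 0 := by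
        intro k
        rw [← Finset.sum_mul, bs_e_sum]
        by_cases hik : i = k
        · rw [if_pos (sub_eq_zero.2 hik), if_pos hik]
        · rw [if_neg (fun h => hik (sub_eq_zero.1 h)), if_neg hik, zero_mul]
      rw [Finset.sum_congr rfl fun k _ => h2 k, Finset.sum_ite_eq, if_pos (mem_univ _), bs_normSq]
    rw [Finset.sum_congr rfl fun i _ => h1 i, ← Finset.mul_sum, Complex.ofReal_mul,
      Complex.ofReal_sum, Complex.ofReal_natCast]
  exact_mod_cast h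

private lemma bs_pairs {n : ℕ} [NeZero n] (z : ZMod n → ℂ) {a : ZMod n} (ha : a ≠ 0) :
    ∑ i, ∑ k, bs_e n (a * (i - k)) * ((‖z i - z k‖ ^ 2 : ℝ) : ℂ) =
      -(((‖bs_F z a‖ ^ 2 + ‖bs_F z (-a)‖ ^ 2 : ℝ)) : ℂ) := by
  have h0 : ∀ i k : ZMod n, bs_e n (a * (i - k)) * ((‖z i - z k‖ ^ 2 : ℝ) : ℂ) =
      bs_e n (a * (i - k)) * ((‖z i‖ ^ 2 : ℝ) : ℂ) + bs_e n (a * (i - k)) * ((‖z k‖ ^ 2 : ℝ) : ℂ) -
        bs_e n (a * (i - k)) * (z i * (starRingEnd ℂ) (z k)) -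
        bs_e n (-a * (k - i)) * (z k * (starRingEnd ℂ) (z i)) := by
    intro i k
    rw [show -a * (k - i) = a * (i - k) by ring]
    rw [bs_normSq, bs_normSq, bs_normSq, map_sub]
    ring
  rw [Finset.sum_congr rfl fun i _ => Finset.sum_congr rfl fun k _ => h0 i k]
  simp only [Finset.sum_sub_distrib, Finset.sum_add_distrib]
  have h1 : ∑ i : ZMod n, ∑ k : ZMod n, bs_e n (a * (i - k)) * ((‖z i‖ ^ 2 : ℝ) : ℂ) = 0 := by
    refine Finset.sum_eq_zero fun i _ => ?_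
    rw [← Finset.sum_mul]
    have : ∑ k : ZMod n, bs_e n (a * (i - k)) = 0 := by
      rw [← Equiv.sum_comp (Equiv.subLeft i)]
      have : ∀ k : ZMod n, bs_e n (a * (i - (Equiv.subLeft i) k)) = bs_e n (k * a) := by
        intro k
        congr 1
        simp only [Equiv.subLeft_apply]
        ring
      rw [Finset.sum_congr rfl fun k _ => this k, bs_e_sum, if_neg ha]
    rw [this, zero_mul]
  have h2 : ∑ i : ZMod n, ∑ k : ZMod n, bs_e n (a * (i - k)) * ((‖z k‖ ^ 2 : ℝ) : ℂ) = 0 := by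
    rw [Finset.sum_comm]
    refine Finset.sum_eq_zero fun k _ => ?_
    rw [← Finset.sum_mul]
    have : ∑ i : ZMod n, bs_e n (a * (i - k)) = 0 := by
      rw [← Equiv.sum_comp (Equiv.addRight k)]
      have : ∀ i : ZMod n, bs_e n (a * ((Equiv.addRight k) i - k)) = bs_e n (i * a) := by
        intro i
        congr 1
        simp only [Equiv.coe_addRight]
        ring
      rw [Finset.sum_congr rfl fun i _ => this i, bs_e_sum, if_neg ha]
    rw [this, zero_mul]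
  have h3 : ∑ i : ZMod n, ∑ k : ZMod n, bs_e n (-a * (k - i)) * (z k * (starRingEnd ℂ) (z i)) =
      ((‖bs_F z (-a)‖ ^ 2 : ℝ) : ℂ) := by
    rw [bs_F_sq, Finset.sum_comm]
  rw [h1, h2, h3, ← bs_F_sq]
  push_cast
  ring

/-- the sum of the squared chords of step `h` -/
private noncomputable def bs_L {n : ℕ} [NeZero n] (z : ZMod n → ℂ) (h : ZMod n) : ℝ :=
  ∑ i, ‖z (i + h) - z i‖ ^ 2

private lemma bs_L_neg {n : ℕ} [NeZero n] (z : ZMod n → ℂ) (h : ZMod n) :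
    bs_L z (-h) = bs_L z h := by
  unfold bs_L
  rw [← Equiv.sum_comp (Equiv.addRight h)]
  refine Finset.sum_congr rfl fun i _ => ?_
  simp only [Equiv.coe_addRight]
  rw [add_neg_cancel_right, norm_sub_rev]

private lemma bs_L_zero {n : ℕ} [NeZero n] (z : ZMod n → ℂ) : bs_L z 0 = 0 := by
  unfold bs_L
  simp

private lemma bs_shift {n : ℕ} [NeZero n] (z : ZMod n → ℂ) {a : ZMod n} (ha : a ≠ 0) :
    ∑ h : ZMod n, (bs_e n (a * h)).re * bs_L z h =
      -(‖bs_F z a‖ ^ 2 + ‖bs_F z (-a)‖ ^ 2) := by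
  have h1 : ∑ h : ZMod n, bs_e n (a * h) * ((bs_L z h : ℝ) : ℂ) =
      -(((‖bs_F z a‖ ^ 2 + ‖bs_F z (-a)‖ ^ 2 : ℝ)) : ℂ) := by
    rw [← bs_pairs z ha]
    unfold bs_L
    have h2 : ∀ h : ZMod n, bs_e n (a * h) * ((∑ i, ‖z (i + h) - z i‖ ^ 2 : ℝ) : ℂ) =
        ∑ k, bs_e n (a * h) * ((‖z (k + h) - z k‖ ^ 2 : ℝ) : ℂ) := by
      intro h
      rw [Complex.ofReal_sum, Finset.mul_sum]
    rw [Finset.sum_congr rfl fun h _ => h2 h, Finset.sum_comm]
    conv_rhs => rw [Finset.sum_comm]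
    refine Finset.sum_congr rfl fun k _ => ?_
    rw [← Equiv.sum_comp (Equiv.addRight k) fun i =>
      bs_e n (a * (i - k)) * ((‖z i - z k‖ ^ 2 : ℝ) : ℂ)]
    refine Finset.sum_congr rfl fun h _ => ?_
    simp only [Equiv.coe_addRight]
    rw [add_sub_cancel_right, add_comm h k]
  have h3 := congrArg Complex.re h1
  rw [Complex.re_sum] at h3
  have h4 : ∀ h : ZMod n, (bs_e n (a * h) * ((bs_L z h : ℝ) : ℂ)).re =
      (bs_e n (a * h)).re * bs_L z h := by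
    intro h
    rw [Complex.re_mul_ofReal]
  rw [Finset.sum_congr rfl fun h _ => h4 h] at h3
  rw [h3, Complex.neg_re, Complex.ofReal_re]

private lemma bs_e_re_neg {n : ℕ} [NeZero n] (x : ZMod n) :
    (bs_e n (-x)).re = (bs_e n x).re := by
  rw [← bs_e_conj, Complex.conj_re]

private lemma bs_natCast_ne {n j : ℕ} [NeZero n] (h1 : 1 ≤ j) (h2 : j < n) :
    (j : ZMod n) ≠ 0 := by
  intro h
  rw [ZMod.natCast_eq_zero_iff] at h
  exact absurd (Nat.le_of_dvd (by omega) h) (by omega)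

private lemma bs_cosL {m n : ℕ} [NeZero n] (hn : n = 2 * m + 1) (z : ZMod n → ℂ) {j : ℕ}
    (h1 : 1 ≤ j) (h2 : j < n) :
    2 * ∑ h ∈ Ico 1 (m + 1), Real.cos (2 * j * b n h) * bs_L z (h : ZMod n) =
      -(‖bs_F z (j : ZMod n)‖ ^ 2 + ‖bs_F z (-(j : ZMod n))‖ ^ 2) := by
  have h := bs_shift z (bs_natCast_ne h1 h2)
  rw [bs_sum_even hn] at h
  · rw [bs_L_zero, mul_zero, zero_add] at h
    rw [← h]
    congr 1
    refine Finset.sum_congr rfl fun k _ => ?_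
    rw [← Nat.cast_mul, bs_e_re]
    unfold b
    congr 2
    push_cast
    ring
  · intro x
    rw [mul_neg, bs_e_re_neg, bs_L_neg]

private lemma bs_cosSum {m n : ℕ} [NeZero n] (hn : n = 2 * m + 1) {j : ℕ}
    (h1 : 1 ≤ j) (h2 : j < n) :
    ∑ h ∈ Ico 1 (m + 1), Real.cos (2 * j * b n h) = -1 / 2 := by
  have h := bs_e_sum (j : ZMod n)
  rw [if_neg (bs_natCast_ne h1 h2)] at h
  have h3 := congrArg Complex.re h
  rw [Complex.re_sum, Complex.zero_re, bs_sum_even hn] at h3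
  · rw [zero_mul, AddChar.map_zero_eq_one, Complex.one_re] at h3
    have h4 : ∑ h ∈ Ico 1 (m + 1), Real.cos (2 * j * b n h) =
        ∑ h ∈ Ico 1 (m + 1), (bs_e n ((h : ZMod n) * (j : ZMod n))).re := by
      refine Finset.sum_congr rfl fun k _ => ?_
      rw [← Nat.cast_mul, bs_e_re]
      unfold b
      congr 1
      push_cast
      ring
    rw [h4]
    linarith
  · intro x
    rw [neg_mul, bs_e_re_neg]

private lemma bs_b_pos {n h : ℕ} (hn : 0 < n) (h1 : 1 ≤ h) : 0 < b n h := by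
  unfold b
  have : (0 : ℝ) < h := by exact_mod_cast h1
  have : (0 : ℝ) < n := by exact_mod_cast hn
  positivity

private lemma bs_sin_pos {n h : ℕ} (h1 : 1 ≤ h) (h2 : h < n) : 0 < Real.sin (b n h) := by
  refine Real.sin_pos_of_pos_of_lt_pi (bs_b_pos (by omega) h1) ?_
  unfold b
  have hn : (0 : ℝ) < n := by exact_mod_cast (by omega : 0 < n)
  rw [div_lt_iff₀ hn]
  have : (h : ℝ) < n := by exact_mod_cast h2
  nlinarith [Real.pi_pos]

private lemma bs_cos_pos {n : ℕ} (hn : 1 < n) : 0 < Real.cos (Real.pi / (2 * (n : ℝ))) := by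
  have hn' : (1 : ℝ) < n := by exact_mod_cast hn
  refine Real.cos_pos_of_mem_Ioo ⟨?_, ?_⟩
  · have : 0 < Real.pi / (2 * (n : ℝ)) := by positivity
    linarith [Real.pi_pos]
  · rw [div_lt_div_iff₀ (by positivity) (by norm_num)]
    nlinarith [Real.pi_pos]

private lemma bs_b_top {m n : ℕ} (hn : n = 2 * m + 1) :
    b n m = Real.pi / 2 - Real.pi / (2 * (n : ℝ)) := by
  unfold b
  have h0 : (n : ℝ) = 2 * m + 1 := by rw [hn]; push_cast; ring
  have h1 : (n : ℝ) ≠ 0 := by rw [h0]; positivity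
  field_simp
  rw [h0]
  ring

private lemma bs_sin_top {m n : ℕ} (hn : n = 2 * m + 1) :
    Real.sin (b n m) = Real.cos (Real.pi / (2 * (n : ℝ))) := by
  rw [bs_b_top hn, Real.sin_pi_div_two_sub]

private lemma bs_X_top {m n : ℕ} [NeZero n] (hm : 1 ≤ m) (hn : n = 2 * m + 1) (z : ZMod n → ℂ)
    (i : ZMod n) : X z m i = ‖z (i + (m : ZMod n)) - z i‖ / 2 := by
  unfold X RR len
  have h := bs_cos_pos (n := n) (by omega)
  rw [bs_sin_top hn]
  congr 1
  field_simp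

private lemma bs_phi_eq (n h : ℕ) : phi n h = 19 / 64 - 19 / 32 * Real.cos (2 * (1 : ℕ) * b n h) +
    1 / 4 * Real.cos (2 * (2 : ℕ) * b n h) + 3 / 32 * Real.cos (2 * (3 : ℕ) * b n h) -
      3 / 64 * Real.cos (2 * (4 : ℕ) * b n h) := by
  unfold phi
  set x := b n h
  have e2 : Real.cos (2 * (1 : ℕ) * x) = Real.cos (2 * x) := by push_cast; ring_nf
  have e4 : Real.cos (2 * (2 : ℕ) * x) = 2 * Real.cos (2 * x) ^ 2 - 1 := by
    rw [← Real.cos_two_mul]; push_cast; ring_nf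
  have e6 : Real.cos (2 * (3 : ℕ) * x) = 4 * Real.cos (2 * x) ^ 3 - 3 * Real.cos (2 * x) := by
    rw [← Real.cos_three_mul]; push_cast; ring_nf
  have e6' : Real.cos (6 * x) = 4 * Real.cos (2 * x) ^ 3 - 3 * Real.cos (2 * x) := by
    rw [← Real.cos_three_mul]; ring_nf
  have e8 : Real.cos (2 * (4 : ℕ) * x) = 2 * (2 * Real.cos (2 * x) ^ 2 - 1) ^ 2 - 1 := by
    rw [← Real.cos_two_mul (2 * x), ← Real.cos_two_mul]; push_cast; ring_nf
  have es : Real.sin x ^ 2 = (1 - Real.cos (2 * x)) / 2 := by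
    rw [Real.cos_two_mul, Real.sin_sq]; ring
  rw [e2, e4, e6, e6', e8, es]
  ring

private lemma bs_phi_sum {m n : ℕ} [NeZero n] (hm : 4 ≤ m) (hn : n = 2 * m + 1) :
    ∑ h ∈ Ico 1 (m + 1), phi n h = 19 * n / 128 := by
  rw [Finset.sum_congr rfl fun h _ => bs_phi_eq n h]
  rw [Finset.sum_sub_distrib, Finset.sum_add_distrib, Finset.sum_add_distrib,
    Finset.sum_sub_distrib, ← Finset.mul_sum, ← Finset.mul_sum, ← Finset.mul_sum,
    ← Finset.mul_sum, bs_cosSum hn (by omega) (by omega), bs_cosSum hn (by omega) (by omega),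
    bs_cosSum hn (by omega) (by omega), bs_cosSum hn (by omega) (by omega), Finset.sum_const,
    Nat.card_Ico, nsmul_eq_mul]
  have h0 : (n : ℝ) = 2 * m + 1 := by rw [hn]; push_cast; ring
  rw [h0]
  push_cast
  ring

private lemma bs_phi_top {m n : ℕ} (hm : 4 ≤ m) (hn : n = 2 * m + 1) :
    phi n m ≤ 19 * n / 128 := by
  have h0 : (9 : ℝ) ≤ n := by exact_mod_cast (by omega : 9 ≤ n)
  have hpos : (0 : ℝ) < n := by linarith
  unfold phi
  have e2 : Real.cos (2 * b n m) = -Real.cos (Real.pi / n) := by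
    rw [bs_b_top hn, show 2 * (Real.pi / 2 - Real.pi / (2 * (n : ℝ))) =
      Real.pi - Real.pi / n by field_simp, Real.cos_pi_sub]
  have e6 : Real.cos (6 * b n m) = -Real.cos (3 * Real.pi / n) := by
    rw [bs_b_top hn, show 6 * (Real.pi / 2 - Real.pi / (2 * (n : ℝ))) =
      Real.pi - 3 * Real.pi / n + 2 * Real.pi by field_simp; ring, Real.cos_add_two_pi,
      Real.cos_pi_sub]
  rw [e2, e6]
  have h1 : 1 / 2 ≤ Real.cos (3 * Real.pi / n) := by
    rw [← Real.cos_pi_div_three]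
    refine Real.cos_le_cos_of_nonneg_of_le_pi (by positivity) (by linarith [Real.pi_pos]) ?_
    rw [div_le_div_iff₀ hpos (by norm_num)]
    nlinarith [Real.pi_pos]
  have h2 : Real.cos (Real.pi / n) ≤ 1 := Real.cos_le_one _
  have h3 : Real.sin (b n m) ^ 2 ≤ 1 := by nlinarith [Real.sin_sq_add_cos_sq (b n m), sq_nonneg (Real.cos (b n m))]
  have h4 : 0 ≤ Real.sin (b n m) ^ 2 := sq_nonneg _
  have h5 : -(19 / 16) * -Real.cos (Real.pi / n) + 3 / 16 * -Real.cos (3 * Real.pi / n) ≤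
      35 / 32 := by linarith
  have h6 : Real.sin (b n m) ^ 2 *
      (-(19 / 16) * -Real.cos (Real.pi / n) + 3 / 16 * -Real.cos (3 * Real.pi / n)) ≤
      Real.sin (b n m) ^ 2 * (35 / 32) := mul_le_mul_of_nonneg_left h5 h4
  linarith

private lemma bs_norm_e {n : ℕ} [NeZero n] (x : ZMod n) : ‖bs_e n x‖ = 1 := by
  unfold bs_e
  exact AddChar.norm_apply _ x

private lemma bs_what {m n : ℕ} [NeZero n] (hn : n = 2 * m + 1) (_hm : 1 ≤ m) (z : ZMod n → ℂ)
    {a : ZMod n} (ha : a = 1 ∨ a = -1) :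
    ‖bs_F (fun i => z (i + (m : ZMod n)) - z i) a‖ ^ 2 =
      4 * Real.cos (Real.pi / (2 * (n : ℝ))) ^ 2 * ‖bs_F z a‖ ^ 2 := by
  have h1 : bs_F (fun i => z (i + (m : ZMod n)) - z i) a =
      bs_F z a * (bs_e n (-(a * m)) - 1) := by
    unfold bs_F
    have : ∀ i : ZMod n, (z (i + (m : ZMod n)) - z i) * bs_e n (a * i) =
        z (i + (m : ZMod n)) * bs_e n (a * (i + (m : ZMod n))) * bs_e n (-(a * m)) -
          z i * bs_e n (a * i) := by
      intro i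
      rw [sub_mul, mul_assoc, ← AddChar.map_add_eq_mul]
      congr 3
      ring
    have hs : ∑ i : ZMod n, z (i + (m : ZMod n)) * bs_e n (a * (i + (m : ZMod n))) =
        ∑ i : ZMod n, z i * bs_e n (a * i) :=
      Equiv.sum_comp (Equiv.addRight (m : ZMod n)) fun i => z i * bs_e n (a * i)
    rw [Finset.sum_congr rfl fun i _ => this i, Finset.sum_sub_distrib, ← Finset.sum_mul, hs]
    ring
  rw [h1, norm_mul, mul_pow]
  have h2 : ‖bs_e n (-(a * m)) - 1‖ ^ 2 = 2 - 2 * (bs_e n (m : ZMod n)).re := by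
    have h3 : (bs_e n (-(a * m))).re = (bs_e n (m : ZMod n)).re := by
      rcases ha with rfl | rfl
      · rw [one_mul, bs_e_re_neg]
      · rw [neg_mul, one_mul, neg_neg]
    have h4 : ‖bs_e n (-(a * m))‖ ^ 2 = 1 := by rw [bs_norm_e]; norm_num
    rw [← Complex.normSq_eq_norm_sq, Complex.normSq_sub, Complex.normSq_eq_norm_sq, h4]
    simp only [map_one, mul_one, h3]
    ring
  have h5 : (bs_e n (m : ZMod n)).re = 1 - 2 * Real.cos (Real.pi / (2 * (n : ℝ))) ^ 2 := by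
    rw [bs_e_re, show 2 * Real.pi * (m : ℝ) / n = 2 * b n m by unfold b; ring, Real.cos_two_mul,
      ← bs_sin_top hn]
    nlinarith [Real.sin_sq_add_cos_sq (b n m)]
  rw [h2, h5]
  ring

theorem quad {m : ℕ} (hm : 4 ≤ m) {n : ℕ} [NeZero n] (hn : n = 2 * m + 1) (z : ZMod n → ℂ)
    (hd : ∀ i j, ‖z i - z j‖ ≤ 2) :
    ∑ h ∈ Ico 1 m, phi n h * ∑ i, (X z h i ^ 2 - 1) ≤ 0 := by
  have hn9 : 9 ≤ n := by omega
  have hnpos : (0 : ℝ) < n := by exact_mod_cast (by omega : 0 < n)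
  set C := Real.cos (Real.pi / (2 * (n : ℝ))) with hC
  have hC0 : 0 < C := bs_cos_pos (by omega)
  set A := ‖bs_F z (1 : ZMod n)‖ ^ 2 + ‖bs_F z (-1 : ZMod n)‖ ^ 2 with hA
  set S := ∑ i, X z m i ^ 2 with hS
  -- the sum over all classes
  have hX : ∀ h ∈ Ico 1 (m + 1), phi n h * ∑ i, X z h i ^ 2 =
      C ^ 2 / 4 * (-(19 / 16) * (Real.cos (2 * (1 : ℕ) * b n h) * bs_L z (h : ZMod n)) +
        3 / 16 * (Real.cos (2 * (3 : ℕ) * b n h) * bs_L z (h : ZMod n))) := by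
    intro h hh
    rw [mem_Ico] at hh
    have hs := bs_sin_pos (n := n) hh.1 (by omega)
    have h1 : ∀ i, X z h i ^ 2 = C ^ 2 / (4 * Real.sin (b n h) ^ 2) *
        ‖z (i + (h : ZMod n)) - z i‖ ^ 2 := by
      intro i
      unfold X RR len
      rw [← hC]
      field_simp
      ring
    rw [Finset.sum_congr rfl fun i _ => h1 i, ← Finset.mul_sum]
    unfold phi
    have e1 : Real.cos (2 * (1 : ℕ) * b n h) = Real.cos (2 * b n h) := by push_cast; ring_nf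
    have e3 : Real.cos (2 * (3 : ℕ) * b n h) = Real.cos (6 * b n h) := by push_cast; ring_nf
    rw [e1, e3]
    unfold bs_L
    field_simp
  have hall : ∑ h ∈ Ico 1 (m + 1), phi n h * ∑ i, X z h i ^ 2 ≤ C ^ 2 / 4 * (19 / 32 * A) := by
    rw [Finset.sum_congr rfl hX, ← Finset.mul_sum]
    refine mul_le_mul_of_nonneg_left ?_ (by positivity)
    rw [Finset.sum_add_distrib, ← Finset.mul_sum, ← Finset.mul_sum]
    have h1 := bs_cosL hn z (j := 1) (by norm_num) (by omega)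
    have h3 := bs_cosL hn z (j := 3) (by norm_num) (by omega)
    have h4 : 0 ≤ ‖bs_F z ((3 : ℕ) : ZMod n)‖ ^ 2 + ‖bs_F z (-((3 : ℕ) : ZMod n))‖ ^ 2 := by
      positivity
    rw [Nat.cast_one (R := ZMod n)] at h1
    rw [← hA] at h1
    generalize ∑ h ∈ Ico 1 (m + 1),
      Real.cos (2 * (1 : ℕ) * b n h) * bs_L z (h : ZMod n) = s1 at h1 ⊢
    generalize ∑ h ∈ Ico 1 (m + 1),
      Real.cos (2 * (3 : ℕ) * b n h) * bs_L z (h : ZMod n) = s3 at h3 ⊢
    linarith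
  -- Bessel
  have hbes : 4 * C ^ 2 * A ≤ n * (4 * S) := by
    have h1 := bs_parseval (fun i => z (i + (m : ZMod n)) - z i)
    have hne : (1 : ZMod n) ≠ -1 := by
      intro h
      have h2 : ((2 : ℕ) : ZMod n) = 0 := by
        push_cast
        linear_combination h
      exact bs_natCast_ne (n := n) (j := 2) (by norm_num) (by omega) h2
    have h2 : ∑ a ∈ ({1, -1} : Finset (ZMod n)),
        ‖bs_F (fun i => z (i + (m : ZMod n)) - z i) a‖ ^ 2 ≤
        ∑ a, ‖bs_F (fun i => z (i + (m : ZMod n)) - z i) a‖ ^ 2 :=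
      Finset.sum_le_sum_of_subset_of_nonneg (subset_univ _) fun _ _ _ => by positivity
    rw [Finset.sum_pair hne, bs_what hn (by omega) z (Or.inl rfl),
      bs_what hn (by omega) z (Or.inr rfl), h1] at h2
    have h3 : 4 * S = ∑ i, ‖z (i + (m : ZMod n)) - z i‖ ^ 2 := by
      rw [hS, Finset.mul_sum]
      refine Finset.sum_congr rfl fun i _ => ?_
      rw [bs_X_top (by omega) hn]
      ring
    rw [h3]
    rw [← hC] at h2
    rw [hA]
    linarith
  have hall2 : ∑ h ∈ Ico 1 (m + 1), phi n h * ∑ i, X z h i ^ 2 ≤ 19 * n / 128 * S := by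
    have : C ^ 2 / 4 * (19 / 32 * A) = 19 / 512 * (4 * C ^ 2 * A) := by ring
    rw [this] at hall
    linarith
  -- the top class
  have htop : ∀ i, X z m i ^ 2 ≤ 1 := by
    intro i
    rw [bs_X_top (by omega) hn]
    have h1 := hd (i + (m : ZMod n)) i
    have h2 : 0 ≤ ‖z (i + (m : ZMod n)) - z i‖ := norm_nonneg _
    nlinarith
  have hS1 : S ≤ n := by
    rw [hS]
    calc ∑ i, X z m i ^ 2 ≤ ∑ _i : ZMod n, (1 : ℝ) := Finset.sum_le_sum fun i _ => htop i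
      _ = n := by rw [Finset.sum_const, card_univ, ZMod.card, nsmul_eq_mul, mul_one]
  rw [Finset.sum_Ico_succ_top (by omega : 1 ≤ m)] at hall2
  have hphi := bs_phi_sum (n := n) hm hn
  rw [Finset.sum_Ico_succ_top (by omega : 1 ≤ m)] at hphi
  have hpt := bs_phi_top hm hn
  have hfin : ∑ h ∈ Ico 1 m, phi n h * ∑ i, (X z h i ^ 2 - 1) =
      ∑ h ∈ Ico 1 m, phi n h * ∑ i, X z h i ^ 2 - n * ∑ h ∈ Ico 1 m, phi n h := by
    rw [Finset.mul_sum, ← Finset.sum_sub_distrib]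
    refine Finset.sum_congr rfl fun h _ => ?_
    rw [Finset.sum_sub_distrib, Finset.sum_const, card_univ, ZMod.card, nsmul_eq_mul]
    ring
  rw [hfin]
  have h7 : (19 * n / 128 - phi n m) * S ≤ (19 * n / 128 - phi n m) * n :=
    mul_le_mul_of_nonneg_left hS1 (by linarith)
  have h8 : ∑ h ∈ Ico 1 m, phi n h = 19 * n / 128 - phi n m := by linarith
  rw [h8]
  linarith

/-- `X^(m) ≤ 1` -/
theorem X_top_le {m : ℕ} (hm : 1 ≤ m) {n : ℕ} [NeZero n] (hn : n = 2 * m + 1) (z : ZMod n → ℂ)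
    (hd : ∀ i j, ‖z i - z j‖ ≤ 2) (i : ZMod n) : X z m i ≤ 1 := by
  rw [bs_X_top hm hn]
  have h1 := hd (i + (m : ZMod n)) i
  linarith

/-- `X^(g) ≤ cos (π/(2n)) / sin (π g/n)` -/
theorem X_le {m : ℕ} {n : ℕ} [NeZero n] (hn : n = 2 * m + 1) (z : ZMod n → ℂ)
    (hd : ∀ i j, ‖z i - z j‖ ≤ 2) {g : ℕ} (hg : 1 ≤ g) (hgm : g ≤ m) (i : ZMod n) :
    X z g i ≤ Real.cos (Real.pi / (2 * (n : ℝ))) / Real.sin (b n g) := by
  have hs := bs_sin_pos (n := n) hg (by omega)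
  have hc := bs_cos_pos (n := n) (by omega)
  have h1 := hd (i + (g : ZMod n)) i
  have h2 : X z g i = ‖z (i + (g : ZMod n)) - z i‖ / 2 *
      (Real.cos (Real.pi / (2 * (n : ℝ))) / Real.sin (b n g)) := by
    unfold X RR len
    field_simp
  rw [h2]
  have h3 : 0 ≤ Real.cos (Real.pi / (2 * (n : ℝ))) / Real.sin (b n g) := by positivity
  nlinarith

end RP38
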