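import Pool.Agent.RP38.Defs

/-!
# The closed-form weights (module RP38:Weights; helper54)

`n = 2 m + 1`, `m ≥ 4`.  `1 - φ_h = (1/2) cos⁴ x (3 c² - 9 c + 8) ≥ 0` with `x = b_h`, `c = cos 2x` (so also `φ_h ≤ 1`).
`T_{g+1} > 0` for `g ≥ 1`, `T` increasing, `R` decreasing and `≥ 0`, so `V_g` is decreasing in `g ≥ 1`, `U_h ≥ 0` for `h ≥ 2`.
`V_{m-1} = 0` (`R_m = 0`).  `∑_{k=1}^{m-1-g} U_{g+k} = V_g - V_{m-1} = V_g` (`1 ≤ g ≤ m-1`).
`W_g = 1 - φ_g + 2 tan b_g V_g`; for `g ≥ 2`: `2 T_g U_g = 2 T_g V_{g-1} - 2 T_g V_g = R_g - (2 T_{g+1} - 2 tan b_g) V_g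
= R_g - R_{g+1} + 2 tan b_g V_g = W_g`.
-/

namespace RP38

open Finset

theorem one_sub_phi (n h : ℕ) :
    1 - phi n h = 1 / 2 * Real.cos (b n h) ^ 4
      * (3 * Real.cos (2 * b n h) ^ 2 - 9 * Real.cos (2 * b n h) + 8) := by
  unfold phi
  have h6 : Real.cos (6 * b n h) = 4 * Real.cos (2 * b n h) ^ 3 - 3 * Real.cos (2 * b n h) := by
    have : 6 * b n h = 3 * (2 * b n h) := by ring
    rw [this, Real.cos_three_mul]
  have h2 : Real.cos (2 * b n h) = 2 * Real.cos (b n h) ^ 2 - 1 := Real.cos_two_mul _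
  have hs : Real.sin (b n h) ^ 2 = 1 - Real.cos (b n h) ^ 2 := Real.sin_sq _
  rw [h6, h2, hs]
  ring

theorem phi_le_one (n h : ℕ) : phi n h ≤ 1 := by
  have h1 := one_sub_phi n h
  have h2 : 0 ≤ 1 / 2 * Real.cos (b n h) ^ 4
      * (3 * Real.cos (2 * b n h) ^ 2 - 9 * Real.cos (2 * b n h) + 8) := by
    apply mul_nonneg
    · positivity
    · nlinarith [sq_nonneg (Real.cos (2 * b n h) - 3 / 2)]
  linarith

theorem V_top (n m : ℕ) (hm : 1 ≤ m) : V n m (m - 1) = 0 := by
  unfold V Rs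
  rw [Nat.sub_add_cancel hm, Ico_self, sum_empty, zero_div]

private theorem Weights_tan_pos {m n j : ℕ} (hn : n = 2 * m + 1) (hj : 1 ≤ j) (hm : j ≤ m) :
    0 < Real.tan (b n j) := by
  have hn0 : (0 : ℝ) < (n : ℝ) := by
    rw [hn]
    positivity
  have hj0 : (0 : ℝ) < (j : ℝ) := by exact_mod_cast hj
  have hjn : 2 * (j : ℝ) < (n : ℝ) := by
    have : 2 * j < n := by omega
    exact_mod_cast this
  apply Real.tan_pos_of_pos_of_lt_pi_div_two
  · unfold b
    positivity
  · unfold b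
    rw [div_lt_iff₀ hn0]
    nlinarith [Real.pi_pos]

private theorem Weights_tan_nonneg {m n j : ℕ} (hn : n = 2 * m + 1) (hm : j ≤ m) :
    0 ≤ Real.tan (b n j) := by
  rcases Nat.eq_zero_or_pos j with h | h
  · subst h
    simp [b]
  · exact (Weights_tan_pos hn h hm).le

private theorem Weights_T_succ (n g : ℕ) : T n (g + 1) = T n g + Real.tan (b n g) := by
  unfold T
  rw [sum_range_succ]

private theorem Weights_T_nonneg {m n g : ℕ} (hn : n = 2 * m + 1) (hm : g ≤ m + 1) :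
    0 ≤ T n g := by
  unfold T
  apply sum_nonneg
  intro j hj
  rw [mem_range] at hj
  exact Weights_tan_nonneg hn (by omega)

private theorem Weights_T_pos {m n g : ℕ} (hn : n = 2 * m + 1) (hg : 2 ≤ g) (hm : g ≤ m + 1) :
    0 < T n g := by
  obtain ⟨k, rfl⟩ : ∃ k, g = k + 1 := ⟨g - 1, by omega⟩
  rw [Weights_T_succ]
  have h1 := Weights_T_nonneg (g := k) hn (by omega)
  have h2 := Weights_tan_pos (j := k) hn (by omega) (by omega)
  linarith

private theorem Weights_Rs_nonneg (n m g : ℕ) : 0 ≤ Rs n m g := by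
  unfold Rs
  apply sum_nonneg
  intro h _
  linarith [phi_le_one n h]

private theorem Weights_Rs_succ (n : ℕ) {m g : ℕ} (hg : g < m) :
    Rs n m g = (1 - phi n g) + Rs n m (g + 1) := by
  unfold Rs
  rw [← sum_Ioo_add_eq_sum_Ico hg]
  have : Ioo g m = Ico (g + 1) m := by
    ext x
    simp only [mem_Ioo, mem_Ico]
    omega
  rw [this, add_comm]

private theorem Weights_V_nonneg {m n g : ℕ} (hn : n = 2 * m + 1) (hm : g ≤ m) :
    0 ≤ V n m g := by
  unfold V
  apply div_nonneg (Weights_Rs_nonneg _ _ _)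
  have := Weights_T_nonneg (g := g + 1) hn (by omega)
  linarith

theorem U_nonneg {m n h : ℕ} (hn : n = 2 * m + 1) (h2 : 2 ≤ h) (hm : h < m) : 0 ≤ U n m h := by
  unfold U V
  rw [Nat.sub_add_cancel (by omega : 1 ≤ h)]
  have hT : 0 < T n h := Weights_T_pos hn h2 (by omega)
  have hT' : T n h ≤ T n (h + 1) := by
    rw [Weights_T_succ]
    linarith [Weights_tan_nonneg (j := h) hn (by omega)]
  have hR : Rs n m (h + 1) ≤ Rs n m h := by
    rw [Weights_Rs_succ n hm]
    linarith [phi_le_one n h]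
  have hR0 := Weights_Rs_nonneg n m (h + 1)
  have : Rs n m (h + 1) / (2 * T n (h + 1)) ≤ Rs n m h / (2 * T n h) := by
    apply div_le_div₀ (hR0.trans hR) hR (by linarith) (by linarith)
  linarith

theorem sum_U {m n g : ℕ} (hn : n = 2 * m + 1) (hg : 1 ≤ g) (hm : g < m) :
    ∑ k ∈ Ico 1 (m - g), U n m (g + k) = V n m g := by
  have key : ∀ N : ℕ, ∑ k ∈ Ico 1 (N + 1), U n m (g + k) = V n m g - V n m (g + N) := by
    intro N
    induction N with
    | zero => simp
    | succ N ih =>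
      rw [sum_Ico_succ_top (by omega), ih]
      unfold U
      have : g + (N + 1) - 1 = g + N := by omega
      rw [this]
      ring
  obtain ⟨N, hN⟩ : ∃ N, m - g = N + 1 := ⟨m - g - 1, by omega⟩
  rw [hN, key]
  have h1 : g + N = m - 1 := by omega
  rw [h1, V_top n m (by omega), sub_zero]

theorem W_eq {m n g : ℕ} (hn : n = 2 * m + 1) (hg : 2 ≤ g) (hm : g < m) :
    W n m g = 2 * U n m g * T n g := by
  unfold W
  rw [sum_U hn (by omega) hm]
  have hT : 0 < T n g := Weights_T_pos hn hg (by omega)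
  have hT' : 0 < T n (g + 1) := Weights_T_pos hn (by omega) (by omega)
  have hV1 : 2 * T n g * V n m (g - 1) = Rs n m g := by
    unfold V
    rw [Nat.sub_add_cancel (by omega : 1 ≤ g)]
    field_simp
  have hV2 : 2 * T n (g + 1) * V n m g = Rs n m (g + 1) := by
    unfold V
    field_simp
  rw [Weights_T_succ] at hV2
  have hR := Weights_Rs_succ n hm
  unfold U
  linear_combination (-1 : ℝ) * hV1 + hV2 - hR

theorem W_nonneg {m n g : ℕ} (hn : n = 2 * m + 1) (hg : 1 ≤ g) (hm : g < m) : 0 ≤ W n m g := by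
  unfold W
  rw [sum_U hn hg hm]
  have h1 := phi_le_one n g
  have h2 := Weights_V_nonneg (m := m) (g := g) hn (by omega)
  have h3 := Weights_tan_nonneg (j := g) hn (by omega)
  have h4 : 0 ≤ 2 * Real.tan (b n g) * V n m g := by positivity
  linarith

end RP38
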