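import Pool.Agent.RP38.HDefs
import Pool.Agent.RP38.Weights

/-!
# Signs of the halving weights (MP_d975fc_co, S11783); definitions in HDefs (helper85)
-/

namespace RP38

open Finset

theorem b_pos' {n h : ℕ} (hn : 0 < n) (hh : 0 < h) : 0 < b n h := by
  unfold b
  have h1 : (0 : ℝ) < n := by exact_mod_cast hn
  have h2 : (0 : ℝ) < h := by exact_mod_cast hh
  have := Real.pi_pos
  positivity

theorem b_lt' {n h : ℕ} (hn : 0 < n) (hh : 2 * h < n) : b n h < Real.pi / 2 := by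
  unfold b
  have h1 : (0 : ℝ) < n := by exact_mod_cast hn
  have h2 : 2 * (h : ℝ) < n := by exact_mod_cast hh
  rw [div_lt_div_iff₀ h1 (by norm_num)]
  have := Real.pi_pos
  nlinarith

theorem b_nonneg' (n h : ℕ) : 0 ≤ b n h := by
  unfold b
  have := Real.pi_pos
  positivity

theorem sh_nonneg {n g k : ℕ} (hn : 0 < n) (hgk : 2 * (g + k) < n) : 0 ≤ sh n g k := by
  unfold sh
  apply div_nonneg (mul_nonneg _ _)
  · apply Real.sin_nonneg_of_nonneg_of_le_pi (b_nonneg' _ _)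
    linarith [b_lt' (h := g + k) hn (by omega), Real.pi_pos]
  · apply Real.sin_nonneg_of_nonneg_of_le_pi (b_nonneg' _ _)
    linarith [b_lt' (h := g) hn (by omega), Real.pi_pos]
  · apply Real.cos_nonneg_of_neg_pi_div_two_le_of_le
    · linarith [b_nonneg' n k, Real.pi_pos]
    · exact (b_lt' hn (by omega)).le

private theorem cm_nonneg_aux {n m g : ℕ} (hn : n = 2 * m + 1)
    (h : 2 * g - 1 < m → 0 ≤ WH n m (2 * g - 1)) : 0 ≤ cm n m g := by
  unfold cm
  split
  · by_cases h3 : 2 * g - 1 < m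
    · exact mul_nonneg (sh_nonneg (by omega) (by omega)) (h h3)
    · rw [WH_top (by omega), mul_zero]
  · exact le_rfl

private theorem cp_nonneg_aux {n m g : ℕ} (hn : n = 2 * m + 1)
    (h : 2 * g + 1 < m → 0 ≤ WH n m (2 * g + 1)) : 0 ≤ cp n m g := by
  unfold cp
  by_cases h3 : 2 * g + 1 < m
  · exact mul_nonneg (sh_nonneg (by omega) (by omega)) (h h3)
  · rw [WH_top (by omega), mul_zero]

theorem WH_nonneg' {n m : ℕ} (hn : n = 2 * m + 1) (g : ℕ) : 0 ≤ WH n m g := by
  suffices H : ∀ N g : ℕ, m - g ≤ N → 0 ≤ WH n m g from H (m - g) g le_rfl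
  intro N
  induction N with
  | zero =>
    intro g hg
    rw [WH_top (by omega)]
  | succ N ih =>
    intro g hg
    by_cases h1 : 1 ≤ g ∧ g < m
    · rw [WH_rec h1.1 h1.2]
      have e1 := phi_le_one n g
      have e2 : 0 ≤ c0 n m g := ih (2 * g) (by omega)
      have e3 : 0 ≤ cm n m g := by
        by_cases hg1 : 2 ≤ g
        · exact cm_nonneg_aux hn (fun h3 => ih _ (by omega))
        · simp [cm, hg1]
      have e4 : 0 ≤ cp n m g := cp_nonneg_aux hn (fun h3 => ih _ (by omega))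
      linarith
    · rw [WH, dif_neg h1]

theorem c0_nonneg' {n m : ℕ} (hn : n = 2 * m + 1) (g : ℕ) : 0 ≤ c0 n m g := WH_nonneg' hn _

theorem cm_nonneg' {n m : ℕ} (hn : n = 2 * m + 1) (g : ℕ) : 0 ≤ cm n m g :=
  cm_nonneg_aux hn (fun _ => WH_nonneg' hn _)

theorem cp_nonneg' {n m : ℕ} (hn : n = 2 * m + 1) (g : ℕ) : 0 ≤ cp n m g :=
  cp_nonneg_aux hn (fun _ => WH_nonneg' hn _)

end RP38
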