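import Pool.Agent.RP38.Step
import Pool.Agent.RP38.Bessel
import Pool.Agent.RP38.DefsH

/-!
# Assembly with the halving weights (module RP38:AssembleH; replaces RP38:Assemble)

`S h = ∑_i (X^(h) i - 1)`, `W = WH n m ≥ 0` (`WH_nonneg'`), `W h = 0` for `h ≥ m` (`WH_top`), recursion `WH_rec`.
`step` with `(g, g)` (`sin b cos b / sin 2b = 1/2`, twice): for `2 g < m`: `S (2g) ≤ ∑_i (M b_g (X^(g)) - 1)`.
`step` with `(g, g+1)`: for `2 g + 1 < m`, `g ≥ 1`:
`S (2g+1) ≤ sh g (g+1) ∑_i (M b_{g+1} (X^(g)) - 1) + sh (g+1) g ∑_i (M b_g (X^(g+1)) - 1)` (`sh g (g+1) + sh (g+1) g = 1`).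
Multiply by `W (2g)`, `W (2g+1)` and sum:
`∑_{h=2}^{m-1} W_h S_h ≤ ∑_{g=1}^{m-1} ∑_i [c0_g (M b_g X - 1) + cm_g (M b_{g-1} X - 1) + cp_g (M b_{g+1} X - 1)]`.
Then `∑_{h<m} ∑_i log X^(h) = ∑_h ∑_i [PhiH h (X) + φ_h/2 (X²-1) + W_h (X-1) - (the three M terms)]`; use `quad`,
`W_1 S 1 ≤ 0` (perimeter) and the displayed inequality.
-/

namespace RP38

open Finset Pool.Agent.RegPoly

/-- the sum of `M` minus one -/
private noncomputable def QH {n : ℕ} [NeZero n] (z : ZMod n → ℂ) (g k : ℕ) : ℝ :=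
  ∑ i, (M (b n k) (X z g i) - 1)

/-- the sum of `X` minus one -/
private noncomputable def SH {n : ℕ} [NeZero n] (z : ZMod n → ℂ) (g : ℕ) : ℝ :=
  ∑ i, (X z g i - 1)

private theorem sh_add {n g k : ℕ} (hg : 0 < g) (hgk : 2 * (g + k) < n) :
    sh n g k + sh n k g = 1 := by
  have hn : 0 < n := by omega
  have hs : 0 < Real.sin (b n (g + k)) :=
    Real.sin_pos_of_pos_of_lt_pi (b_pos' hn (by omega))
      (by linarith [b_lt' (n := n) (h := g + k) hn (by omega), Real.pi_pos])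
  have hb : b n (g + k) = b n g + b n k := by
    unfold b
    push_cast
    ring
  unfold sh
  rw [Nat.add_comm k g, ← add_div, div_eq_one_iff_eq hs.ne', hb, Real.sin_add]
  ring

private theorem pairH {n : ℕ} [NeZero n] {z : ZMod n → ℂ} (hz : CPos z) {g k : ℕ} (hg : 0 < g) (hk : 0 < k)
    (hgk : 2 * (g + k) < n) :
    SH z (g + k) ≤ sh n g k * QH z g k + sh n k g * QH z k g := by
  have hst := step hz hg hk hgk
  have hsum := sh_add hg hgk
  have hcard : ((Finset.univ : Finset (ZMod n)).card : ℝ) = n := by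
    rw [Finset.card_univ, ZMod.card]
  have hS : SH z (g + k) = ∑ i, X z (g + k) i - n := by
    unfold SH
    rw [Finset.sum_sub_distrib, Finset.sum_const, nsmul_eq_mul, hcard, mul_one]
  have hQ1 : QH z g k = ∑ i, M (b n k) (X z g i) - n := by
    unfold QH
    rw [Finset.sum_sub_distrib, Finset.sum_const, nsmul_eq_mul, hcard, mul_one]
  have hQ2 : QH z k g = ∑ i, M (b n g) (X z k i) - n := by
    unfold QH
    rw [Finset.sum_sub_distrib, Finset.sum_const, nsmul_eq_mul, hcard, mul_one]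
  rw [Finset.sum_add_distrib, ← Finset.mul_sum, ← Finset.mul_sum] at hst
  have e1 : Real.sin (b n g) * Real.cos (b n k) / Real.sin (b n (g + k)) = sh n g k := rfl
  have e2 : Real.sin (b n k) * Real.cos (b n g) / Real.sin (b n (g + k)) = sh n k g := by
    unfold sh
    rw [Nat.add_comm k g]
  rw [e1, e2] at hst
  rw [hS, hQ1, hQ2]
  have h3 : (n : ℝ) = sh n g k * n + sh n k g * n := by rw [← add_mul, hsum, one_mul]
  linarith

private theorem sum_pairs (f : ℕ → ℝ) (m : ℕ) (hm : 1 ≤ m) :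
    ∑ h ∈ Ico 2 (2 * m), f h = ∑ g ∈ Ico 1 m, (f (2 * g) + f (2 * g + 1)) := by
  induction m, hm using Nat.le_induction with
  | base => simp
  | succ m hm ih =>
    rw [Finset.sum_Ico_succ_top (by omega), ← ih]
    have : 2 * (m + 1) = 2 * m + 1 + 1 := by omega
    rw [this, Finset.sum_Ico_succ_top (by omega), Finset.sum_Ico_succ_top (by omega)]
    ring

private theorem linH {m : ℕ} {n : ℕ} [NeZero n] (hm : 2 ≤ m) (hn : n = 2 * m + 1)
    (z : ZMod n → ℂ) (hz : CPos z) :
    ∑ h ∈ Ico 2 m, WH n m h * SH z h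
      ≤ ∑ g ∈ Ico 1 m, (cm n m g * QH z g (g - 1) + c0 n m g * QH z g g + cp n m g * QH z g (g + 1)) := by
  have h1 : ∑ h ∈ Ico 2 m, WH n m h * SH z h = ∑ h ∈ Ico 2 (2 * m), WH n m h * SH z h := by
    refine Finset.sum_subset ?_ ?_
    · intro h hh
      rw [Finset.mem_Ico] at hh ⊢
      omega
    · intro h hh hh'
      rw [Finset.mem_Ico] at hh hh'
      rw [WH_top (by omega), zero_mul]
  rw [h1, sum_pairs _ m (by omega)]
  -- the shifted sum
  have h2 : ∑ g ∈ Ico 1 m, cm n m g * QH z g (g - 1)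
      = ∑ g ∈ Ico 1 m, sh n (g + 1) g * WH n m (2 * g + 1) * QH z (g + 1) g := by
    rw [Finset.sum_eq_sum_Ico_succ_bot (by omega)]
    have h3 : cm n m 1 * QH z 1 (1 - 1) = 0 := by
      unfold cm
      rw [if_neg (by omega), zero_mul]
    rw [h3, zero_add]
    have h4 : ∑ g ∈ Ico 1 m, sh n (g + 1) g * WH n m (2 * g + 1) * QH z (g + 1) g
        = ∑ g ∈ Ico 1 (m - 1), sh n (g + 1) g * WH n m (2 * g + 1) * QH z (g + 1) g := by
      symm
      refine Finset.sum_subset ?_ ?_
      · intro h hh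
        rw [Finset.mem_Ico] at hh ⊢
        omega
      · intro h hh hh'
        rw [Finset.mem_Ico] at hh hh'
        rw [WH_top (by omega), mul_zero, zero_mul]
    have h5 := Finset.sum_Ico_add' (fun g => cm n m g * QH z g (g - 1)) 1 (m - 1) 1
    have h6 : m - 1 + 1 = m := by omega
    rw [h6] at h5
    rw [h4, ← h5]
    refine Finset.sum_congr rfl (fun g hg => ?_)
    rw [Finset.mem_Ico] at hg
    have h7 : g + 1 - 1 = g := by omega
    have h8 : 2 * (g + 1) - 1 = 2 * g + 1 := by omega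
    unfold cm
    rw [if_pos (by omega), h7, h8]
  have h3 : ∑ g ∈ Ico 1 m, (cm n m g * QH z g (g - 1) + c0 n m g * QH z g g + cp n m g * QH z g (g + 1))
      = ∑ g ∈ Ico 1 m, (sh n (g + 1) g * WH n m (2 * g + 1) * QH z (g + 1) g + c0 n m g * QH z g g
        + cp n m g * QH z g (g + 1)) := by
    rw [Finset.sum_add_distrib, Finset.sum_add_distrib, h2, ← Finset.sum_add_distrib,
      ← Finset.sum_add_distrib]
  rw [h3]
  refine Finset.sum_le_sum (fun g hg => ?_)
  rw [Finset.mem_Ico] at hg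
  have h5 : WH n m (2 * g) * SH z (2 * g) ≤ c0 n m g * QH z g g := by
    unfold c0
    by_cases h6 : 2 * g < m
    · have h7 := pairH hz (g := g) (k := g) (by omega) (by omega) (by omega)
      have h8 := sh_add (n := n) (g := g) (k := g) (by omega) (by omega)
      rw [← add_mul, h8, one_mul, ← two_mul] at h7
      exact mul_le_mul_of_nonneg_left h7 (WH_nonneg' hn _)
    · rw [WH_top (by omega), zero_mul, zero_mul]
  have h6 : WH n m (2 * g + 1) * SH z (2 * g + 1)
      ≤ sh n (g + 1) g * WH n m (2 * g + 1) * QH z (g + 1) g + cp n m g * QH z g (g + 1) := by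
    unfold cp
    by_cases h6 : 2 * g + 1 < m
    · have h7 := pairH hz (g := g) (k := g + 1) (by omega) (by omega) (by omega)
      have h8 : g + (g + 1) = 2 * g + 1 := by omega
      rw [h8] at h7
      have h9 := mul_le_mul_of_nonneg_left h7 (WH_nonneg' (m := m) hn (2 * g + 1))
      linarith
    · rw [WH_top (by omega)]
      simp
  linarith

theorem sum_log_le_PhiH {m : ℕ} (hm : 4 ≤ m) {n : ℕ} [NeZero n] (hn : n = 2 * m + 1)
    (z : ZMod n → ℂ) (hz : CPos z) (hd : ∀ i j, ‖z i - z j‖ ≤ 2)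
    (hper : ∑ i, X z 1 i ≤ (n : ℝ)) :
    ∑ h ∈ Ico 1 m, ∑ i, Real.log (X z h i) ≤ ∑ h ∈ Ico 1 m, ∑ i, PhiH n m h (X z h i) := by
  have hq := quad hm hn z hd
  have hcard : ((Finset.univ : Finset (ZMod n)).card : ℝ) = n := by
    rw [Finset.card_univ, ZMod.card]
  -- expansion of one class
  have hexp : ∀ g ∈ Ico 1 m, ∑ i, PhiH n m g (X z g i)
      = ∑ i, Real.log (X z g i) - 1 / 2 * (phi n g * ∑ i, (X z g i ^ 2 - 1)) - WH n m g * SH z g
        + (cm n m g * QH z g (g - 1) + c0 n m g * QH z g g + cp n m g * QH z g (g + 1)) := by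
    intro g _
    unfold PhiH QH SH
    rw [Finset.sum_add_distrib, Finset.sum_add_distrib, Finset.sum_add_distrib, Finset.sum_sub_distrib,
      Finset.sum_sub_distrib, ← Finset.mul_sum, ← Finset.mul_sum, ← Finset.mul_sum, ← Finset.mul_sum,
      ← Finset.mul_sum]
    ring
  rw [Finset.sum_congr rfl hexp, Finset.sum_add_distrib, Finset.sum_sub_distrib,
    Finset.sum_sub_distrib, ← Finset.mul_sum]
  have hlin : ∑ g ∈ Ico 1 m, WH n m g * SH z g
      ≤ ∑ g ∈ Ico 1 m, (cm n m g * QH z g (g - 1) + c0 n m g * QH z g g + cp n m g * QH z g (g + 1)) := by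
    rw [Finset.sum_eq_sum_Ico_succ_bot (by omega : 1 < m)]
    have hW1 : WH n m 1 * SH z 1 ≤ 0 := by
      have hS1 : SH z 1 ≤ 0 := by
        unfold SH
        rw [Finset.sum_sub_distrib, Finset.sum_const, nsmul_eq_mul, hcard, mul_one]
        linarith
      exact mul_nonpos_of_nonneg_of_nonpos (WH_nonneg' hn 1) hS1
    have hW2 := linH (by omega) hn z hz
    have : (1 : ℕ) + 1 = 2 := rfl
    rw [this]
    linarith
  linarith

end RP38
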