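import Pool.Agent.RegPoly.FiveSeven

/-!
# MP_d975fc_co, S11783: the regular `n`-gon maximises the product of distances (all odd `n`), diameter version

`n = 2 m + 1`, `m ≥ 4`.  `b n h = π h / n`.  `X z h i` = chord from vertex `i` to vertex `i + h`, divided by the chord of
the regular `n`-gon of diameter two.  `M β x = max over 0 ≤ v ≤ π/2 of x cos v / cos β + tan β (v - β)`.

Proof.  (Step) for `g, k ≥ 1`, `2 (g + k) < n`: `∑ X^(g+k) ≤ ∑ (p M_{b k} (X^(g)) + (1-p) M_{b g} (X^(k)))`,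
`p = sin (b g) cos (b k) / sin (b (g+k))`.  (Quad) `∑_{h<m} φ h ∑ ((X^(h))^2 - 1) ≤ 0`.  (Diam) `X^(m) ≤ 1`.  (Perimeter)
`∑ X^(1) ≤ n`.  Splitting `h = g + k` with weights `U (g+k) (tan b g + tan b k)` gives
`∑_h ∑_i log X ≤ ∑_{g<m} ∑_i Phi g (X^(g) i) ≤ 0`.
-/

namespace RP38

open Finset Pool.Agent.RegPoly

/-- `b n h = π h / n` -/
noncomputable def b (n h : ℕ) : ℝ := Real.pi * (h : ℝ) / (n : ℝ)

/-- strictly convex polygon, counterclockwise, cyclic form -/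
def CPos {n : ℕ} [NeZero n] (z : ZMod n → ℂ) : Prop :=
  ∀ (i : ZMod n) (a c : ℕ), 0 < a → a < c → c < n →
    0 < orient (z i) (z (i + (a : ZMod n))) (z (i + (c : ZMod n)))

/-- angle at the vertex `i` between the rays to the vertices `i + a` and `i + c` -/
noncomputable def ang {n : ℕ} [NeZero n] (z : ZMod n → ℂ) (i : ZMod n) (a c : ℕ) : ℝ :=
  Complex.arg ((z (i + (c : ZMod n)) - z i) / (z (i + (a : ZMod n)) - z i))

/-- length of the chord from `i` to `i + h` -/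
noncomputable def len {n : ℕ} [NeZero n] (z : ZMod n → ℂ) (h : ℕ) (i : ZMod n) : ℝ :=
  ‖z (i + (h : ZMod n)) - z i‖

/-- circumradius of the regular `n`-gon of diameter two (`n` odd) -/
noncomputable def RR (n : ℕ) : ℝ := 1 / Real.cos (Real.pi / (2 * (n : ℝ)))

/-- normalised chord -/
noncomputable def X {n : ℕ} [NeZero n] (z : ZMod n → ℂ) (h : ℕ) (i : ZMod n) : ℝ :=
  len z h i / (2 * RR n * Real.sin (b n h))

/-- `M β x = max over 0 ≤ v ≤ π/2 of x cos v / cos β + tan β (v - β)` -/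
noncomputable def M (β x : ℝ) : ℝ :=
  if x ≤ Real.sin β then Real.tan β * (Real.pi / 2 - β)
  else Real.sqrt (x ^ 2 - Real.sin β ^ 2) / Real.cos β
    + Real.tan β * (Real.arcsin (Real.sin β / x) - β)

/-- `φ_h = sin² b_h (-(19/16) cos 2 b_h + (3/16) cos 6 b_h)` -/
noncomputable def phi (n h : ℕ) : ℝ :=
  Real.sin (b n h) ^ 2 * (-(19 / 16) * Real.cos (2 * b n h) + 3 / 16 * Real.cos (6 * b n h))

/-- `T_g = ∑_{j<g} tan b_j` -/
noncomputable def T (n g : ℕ) : ℝ := ∑ j ∈ range g, Real.tan (b n j)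

/-- `R_g = ∑_{g ≤ h < m} (1 - φ_h)` -/
noncomputable def Rs (n m g : ℕ) : ℝ := ∑ h ∈ Ico g m, (1 - phi n h)

/-- `V_g = R_{g+1} / (2 T_{g+1})` (`g ≥ 1`) -/
noncomputable def V (n m g : ℕ) : ℝ := Rs n m (g + 1) / (2 * T n (g + 1))

/-- `U_h = V_{h-1} - V_h` (`2 ≤ h < m`) -/
noncomputable def U (n m h : ℕ) : ℝ := V n m (h - 1) - V n m h

/-- `W_g = 1 - φ_g + 2 tan b_g ∑_{k=1}^{m-1-g} U_{g+k}` -/
noncomputable def W (n m g : ℕ) : ℝ :=
  1 - phi n g + 2 * Real.tan (b n g) * ∑ k ∈ Ico 1 (m - g), U n m (g + k)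

/-- the function of one chord of class `g` which bounds everything -/
noncomputable def Phi (n m g : ℕ) (x : ℝ) : ℝ :=
  Real.log x - phi n g / 2 * (x ^ 2 - 1) - W n m g * (x - 1)
    + 2 * Real.tan (b n g) * ∑ k ∈ Ico 1 (m - g), U n m (g + k) * (M (b n k) x - 1)

end RP38
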