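import Pool.Agent.RP38.MBound

/-!
# The scalar inequality for the halving weights (module RP38:ScalarH)

`PhiH g x = Σ_j c_j (M β_j x - x) - (x - 1 - log x) - φ_g/2 (x-1)²` with the three arrivals `c_j`, `β_j`, by `WH_eq`.
-/

namespace RP38

open Finset

theorem PhiH_eq {n m g : ℕ} (hg : 1 ≤ g) (hgm : g < m) (x : ℝ) :
    PhiH n m g x = c0 n m g * (M (b n g) x - x) + cm n m g * (M (b n (g - 1)) x - x)
      + cp n m g * (M (b n (g + 1)) x - x)
      - (x - 1 - Real.log x) - phi n g * ((x - 1) ^ 2 / 2) := by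
  unfold PhiH
  rw [WH_rec hg hgm]
  ring

/-- one arrival: `c (M β x - x) ≤ c κ (x - 1 - log x)` -/
private theorem term_le {c a κ G : ℝ} (hc : 0 ≤ c) (h : 0 < c → a ≤ κ * G) :
    c * a ≤ c * κ * G := by
  rcases hc.eq_or_lt with h0 | h0
  · rw [← h0]; simp
  · rw [mul_assoc]
    exact mul_le_mul_of_nonneg_left (h h0) hc

theorem PhiH_nonpos {m n g : ℕ} (hm : 4 ≤ m) (hn : n = 2 * m + 1) (hg : 1 ≤ g) (hgm : g < m) {x : ℝ}
    (hx : 0 < x) (hx1 : x ≤ Real.cos (Real.pi / (2 * (n : ℝ))) / Real.sin (b n g)) :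
    PhiH n m g x ≤ 0 := by
  have hn0 : 0 < n := by omega
  have hW2 := c0_nonneg' (m := m) hn g
  have hcm := cm_nonneg' (m := m) hn g
  have hcp := cp_nonneg' (m := m) hn g
  -- the angles of the arrivals which are present are at most `π/4`
  have hquarter : ∀ h : ℕ, 4 * h < n → b n h ≤ Real.pi / 4 := by
    intro h hh
    unfold b
    have h1 : (0 : ℝ) < n := by exact_mod_cast hn0
    have h2 : 4 * (h : ℝ) < n := by exact_mod_cast hh
    rw [div_le_div_iff₀ h1 (by norm_num)]
    nlinarith [Real.pi_pos]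
  have a2 : 0 < c0 n m g → 4 * g < n := by
    intro h
    by_contra hcon
    rw [c0, WH_top (by omega)] at h
    exact lt_irrefl _ h
  have am : 0 < cm n m g → 4 * (g - 1) < n ∧ 0 < g - 1 := by
    intro h
    by_cases h2 : 2 ≤ g
    · refine ⟨?_, by omega⟩
      by_contra hcon
      rw [cm, if_pos h2, WH_top (by omega), mul_zero] at h
      exact lt_irrefl _ h
    · rw [cm, if_neg h2] at h
      exact absurd h (lt_irrefl _)
  have ap : 0 < cp n m g → 4 * (g + 1) < n := by
    intro h
    by_contra hcon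
    rw [cp, WH_top (by omega), mul_zero] at h
    exact lt_irrefl _ h
  have hlt : ∀ h : ℕ, 4 * h < n → b n h < Real.pi / 2 := fun h hh =>
    lt_of_le_of_lt (hquarter h hh) (by linarith [Real.pi_pos])
  have hkap : ∀ β : ℝ, 0 < β → β ≤ Real.pi / 4 → 0 < kap β := by
    intro β h1 h2
    have := Real.tan_pos_of_pos_of_lt_pi_div_two h1 (by linarith [Real.pi_pos])
    unfold kap
    positivity
  set G := x - 1 - Real.log x with hG
  have hG0 : 0 ≤ G := by
    have := Real.log_le_sub_one_of_pos hx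
    rw [hG]; linarith
  rw [PhiH_eq hg hgm]
  rw [← hG]
  rcases le_total x 1 with hx1' | hx1'
  · have key : ∀ h : ℕ, 0 < h → 4 * h < n → M (b n h) x - x ≤ kap (b n h) * G := by
      intro h h0 h4
      exact M_sub_le_of_le_one (b_pos' hn0 h0) (hlt h h4) (hkap _ (b_pos' hn0 h0) (hquarter h h4))
        (kap_spec (b_pos' hn0 h0) (hquarter h h4)) hx hx1'
    have t2 := term_le hW2 (fun h => key g (by omega) (a2 h))
    have tm := term_le hcm (fun h => key (g - 1) (am h).2 (am h).1)
    have tp := term_le hcp (fun h => key (g + 1) (by omega) (ap h))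
    have hq : -phi n g * ((x - 1) ^ 2 / 2) ≤ max (-phi n g) 0 * G := by
      have h1 : -phi n g * ((x - 1) ^ 2 / 2) ≤ max (-phi n g) 0 * ((x - 1) ^ 2 / 2) :=
        mul_le_mul_of_nonneg_right (le_max_left _ _) (by positivity)
      exact h1.trans (mul_le_mul_of_nonneg_left (sq_le_of_le_one hx hx1') (le_max_right _ _))
    have hl := mul_le_mul_of_nonneg_right (load1 hm hn hg hgm) hG0
    nlinarith
  · have key : ∀ h : ℕ, 0 < h → 4 * h < n → M (b n h) x - x ≤ Real.tan (b n h) ^ 2 * G := by
      intro h h0 h4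
      exact M_sub_le_of_one_le (b_pos' hn0 h0) (hlt h h4) hx1'
    have t2 := term_le hW2 (fun h => key g (by omega) (a2 h))
    have tm := term_le hcm (fun h => key (g - 1) (am h).2 (am h).1)
    have tp := term_le hcp (fun h => key (g + 1) (by omega) (ap h))
    have hsin : 0 < Real.sin (b n g) :=
      Real.sin_pos_of_pos_of_lt_pi (b_pos' hn0 (by omega))
        (by linarith [b_lt' (h := g) hn0 (by omega), Real.pi_pos])
    have hx2 : x ≤ 1 / Real.sin (b n g) :=
      hx1.trans (div_le_div_of_nonneg_right (Real.cos_le_one _) hsin.le)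
    have hq : -phi n g * ((x - 1) ^ 2 / 2) ≤ max (-phi n g) 0 / Real.sin (b n g) * G := by
      have h1 : -phi n g * ((x - 1) ^ 2 / 2) ≤ max (-phi n g) 0 * ((x - 1) ^ 2 / 2) :=
        mul_le_mul_of_nonneg_right (le_max_left _ _) (by positivity)
      have h2 : max (-phi n g) 0 * ((x - 1) ^ 2 / 2) ≤ max (-phi n g) 0 * (x * G) :=
        mul_le_mul_of_nonneg_left (sq_le_of_one_le hx1') (le_max_right _ _)
      have h3 : max (-phi n g) 0 * (x * G) ≤ max (-phi n g) 0 * (1 / Real.sin (b n g) * G) :=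
        mul_le_mul_of_nonneg_left (mul_le_mul_of_nonneg_right hx2 hG0) (le_max_right _ _)
      have h4 : max (-phi n g) 0 * (1 / Real.sin (b n g) * G)
          = max (-phi n g) 0 / Real.sin (b n g) * G := by ring
      linarith
    have hl := mul_le_mul_of_nonneg_right (load2 hm hn hg hgm) hG0
    nlinarith

end RP38
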