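import Pool.Agent.RP38.AssembleH
import Pool.Agent.RP38.ScalarH
import Pool.Agent.RegPoly.Reduction
import Pool.Agent.EHP56.PairSum

/-!
# The theorem for all odd `n ≥ 9` (module RP38:Final)

`RegPoly.reduction` (with `D = 2`, `B = pairProd (reg n)`) reduces to strictly convex `z` with
`∑ ‖z (k+1) - z k‖ ≤ 4 n sin (π/(2n)) = n * 2 R sin (π/n)`, i.e. `∑ X z 1 i ≤ n`.
`ConvexPos z → CPos z` (cyclic invariance `orient_cyc`).  If `pairProd z = 0` trivial, else `z` injective, `X > 0`.
`∑_{i,j} log ‖z i - z j‖ = ∑_{d ∈ Ico 1 n} ∑_j log ‖z (j+d) - z j‖ = 2 ∑_{h=1}^m ∑_j log (len z h j)` (`d ↔ n - d`), and the same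
for `reg n`, whose chords are `2 R sin (b n h)` (see `EHP56.log_pairProd_reg`, `EHP56.sum_log_eq`, `EHP56.sum_log_X`, the proof of
`EHP56.fin_core`), so `2 log pairProd z - 2 log pairProd (reg n) = 2 ∑_{h=1}^m ∑_j log X z h j ≤ 0`, as
`∑_j log X z m j ≤ 0` and `sum_log_le_PhiH`, `PhiH_nonpos`, `X_le`.
-/

namespace RP38

open Finset Pool.Agent.RegPoly

/-- `ConvexPos` in cyclic form -/
private lemma final_cpos {n : ℕ} [NeZero n] (z : ZMod n → ℂ)
    (hc : ∀ i j k : ZMod n, i.val < j.val → j.val < k.val → 0 < orient (z i) (z j) (z k)) :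
    CPos z := by
  intro i a c ha hac hcn
  have hv : i.val < n := ZMod.val_lt i
  have hva : (i + (a : ZMod n)).val = (i.val + a) % n := by
    rw [ZMod.val_add, ZMod.val_natCast, Nat.add_mod_mod]
  have hvc : (i + (c : ZMod n)).val = (i.val + c) % n := by
    rw [ZMod.val_add, ZMod.val_natCast, Nat.add_mod_mod]
  by_cases h1 : i.val + c < n
  · rw [Nat.mod_eq_of_lt (by omega)] at hva hvc
    exact hc _ _ _ (by omega) (by omega)
  · have hvc' : (i + (c : ZMod n)).val = i.val + c - n := by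
      rw [hvc, Nat.mod_eq_sub_mod (by omega), Nat.mod_eq_of_lt (by omega)]
    by_cases h2 : i.val + a < n
    · rw [Nat.mod_eq_of_lt h2] at hva
      have h3 := hc (i + (c : ZMod n)) i (i + (a : ZMod n)) (by omega) (by omega)
      rw [orient_cyc] at h3
      exact h3
    · have hva' : (i + (a : ZMod n)).val = i.val + a - n := by
        rw [hva, Nat.mod_eq_sub_mod (by omega), Nat.mod_eq_of_lt (by omega)]
      have h3 := hc (i + (a : ZMod n)) (i + (c : ZMod n)) i (by omega) (by omega)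
      rw [orient_cyc, orient_cyc] at h3
      exact h3

private lemma final_natCast_ne {n : ℕ} [NeZero n] (i : ZMod n) {d : ℕ} (hd : 1 ≤ d) (hdn : d < n) :
    i + (d : ZMod n) ≠ i := by
  intro h
  have h1 : (d : ZMod n) = 0 := by
    have : i + (d : ZMod n) = i + 0 := by rw [h, add_zero]
    exact add_left_cancel this
  have h2 := congrArg ZMod.val h1
  rw [ZMod.val_natCast, ZMod.val_zero, Nat.mod_eq_of_lt hdn] at h2
  omega

private lemma final_sin_pos {n : ℕ} (hn : 1 ≤ n) {d : ℕ} (hd : 1 ≤ d) (hdn : d < n) :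
    0 < Real.sin (b n d) := by
  have hn0 : (0 : ℝ) < n := by exact_mod_cast hn
  have hd0 : (0 : ℝ) < d := by exact_mod_cast hd
  unfold b
  apply Real.sin_pos_of_pos_of_lt_pi
  · have := Real.pi_pos
    positivity
  · rw [div_lt_iff₀ hn0]
    have : (d : ℝ) < n := by exact_mod_cast hdn
    exact mul_lt_mul_of_pos_left this Real.pi_pos

private lemma final_cos_pos {n : ℕ} (hn : 2 ≤ n) : 0 < Real.cos (Real.pi / (2 * (n : ℝ))) := by
  apply Real.cos_pos_of_mem_Ioo
  have hn' : (2 : ℝ) ≤ n := by exact_mod_cast hn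
  constructor
  · have : 0 < Real.pi / (2 * (n : ℝ)) := by
      have := Real.pi_pos
      positivity
    linarith [Real.pi_pos]
  · rw [div_lt_div_iff₀ (by positivity) (by norm_num)]
    nlinarith [Real.pi_pos]

/-- the chord of class `n - h` is the chord of class `h` seen from the other end -/
private lemma final_X_refl {n : ℕ} [NeZero n] (z : ZMod n → ℂ) {h : ℕ} (hn : h ≤ n) (i : ZMod n) :
    X z (n - h) (i + (h : ZMod n)) = X z h i := by
  have hn0 : (0 : ℝ) < n := by exact_mod_cast Nat.pos_of_ne_zero (NeZero.ne n)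
  have h1 : i + (h : ZMod n) + ((n - h : ℕ) : ZMod n) = i := by
    rw [add_assoc, ← Nat.cast_add, Nat.add_sub_cancel' hn, ZMod.natCast_self, add_zero]
  have h2 : b n (n - h) = Real.pi - b n h := by
    unfold b
    rw [Nat.cast_sub hn]
    field_simp
  unfold X len
  rw [h1, h2, Real.sin_pi_sub, norm_sub_rev]

private lemma final_core (m' : ℕ) (hodd : Odd (m' + 1)) (hn9 : 9 ≤ m' + 1) (z : Fin (m' + 1) → ℂ)
    (hd : ∀ i j, ‖z i - z j‖ ≤ 2) (hc : ConvexPos z)
    (hper : ∑ k, ‖z (k + 1) - z k‖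
        ≤ (2 * 2) * (((m' + 1 : ℕ) : ℝ) * Real.sin (Real.pi / (2 * ((m' + 1 : ℕ) : ℝ))))) :
    pairProd z ≤ pairProd (reg (m' + 1)) := by
  let n : ℕ := m' + 1
  have hn : n = m' + 1 := rfl
  obtain ⟨m, hm⟩ : ∃ m, n = 2 * m + 1 := hodd
  have hm4 : 4 ≤ m := by omega
  have : NeZero n := ⟨by omega⟩
  have hn2 : 2 ≤ n := by omega
  have hn0 : (0 : ℝ) < n := by positivity
  by_contra hlt
  rw [not_le] at hlt
  have hregpos := EHP56.pairProd_reg_pos (n := n) hn2
  have hzpos : 0 < pairProd z := hregpos.trans hlt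
  have hinj := injective_of_pairProd_pos z hzpos
  let zz : ZMod n → ℂ := fun k => z k
  have hzz : Function.Injective zz := hinj
  have hdz : ∀ i j : ZMod n, ‖zz i - zz j‖ ≤ 2 := fun i j => hd i j
  have hcp : CPos zz := final_cpos zz (fun i j k hij hjk => hc i j k hij hjk)
  have hcos := final_cos_pos hn2
  have hR : 0 < RR n := by unfold RR; positivity
  have hsin : ∀ d : ℕ, 1 ≤ d → d < n → 0 < Real.sin (b n d) :=
    fun d h1 h2 => final_sin_pos (by omega) h1 h2
  have hlen : ∀ (d : ℕ) (i : ZMod n), 1 ≤ d → d < n → 0 < len zz d i := by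
    intro d i h1 h2
    unfold len
    exact norm_pos_iff.mpr (sub_ne_zero.mpr (fun he => final_natCast_ne i h1 h2 (hzz he)))
  have hXpos : ∀ (d : ℕ) (i : ZMod n), 1 ≤ d → d < n → 0 < X zz d i := by
    intro d i h1 h2
    have a1 := hlen d i h1 h2
    have a2 := hsin d h1 h2
    unfold X
    positivity
  -- the perimeter
  have hRs : 2 * RR n * Real.sin (b n 1) = 4 * Real.sin (Real.pi / (2 * (n : ℝ))) := by
    have h1 : b n 1 = 2 * (Real.pi / (2 * (n : ℝ))) := by
      unfold b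
      push_cast
      field_simp
    rw [h1, Real.sin_two_mul]
    unfold RR
    field_simp
    ring
  have hper' : ∑ i, X zz 1 i ≤ (n : ℝ) := by
    have h1 : ∑ i, X zz 1 i = (∑ k : ZMod n, ‖zz (k + 1) - zz k‖) / (2 * RR n * Real.sin (b n 1)) := by
      rw [Finset.sum_div]
      apply Finset.sum_congr rfl
      intro i _
      unfold X len
      rw [Nat.cast_one]
    have h2 : 0 < 2 * RR n * Real.sin (b n 1) := by
      have := hsin 1 le_rfl (by omega)
      positivity
    rw [h1, div_le_iff₀ h2, hRs]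
    have h3 : ∑ k : ZMod n, ‖zz (k + 1) - zz k‖
        ≤ (2 * 2) * ((n : ℝ) * Real.sin (Real.pi / (2 * (n : ℝ)))) := hper
    linarith
  -- logarithms
  have hlogreg := EHP56.log_pairProd_reg (n := n) hn2
  have hS := EHP56.sum_log_eq z hinj
  have hS' : ∑ i : ZMod n, ∑ j : ZMod n, Real.log ‖zz i - zz j‖ = 2 * Real.log (pairProd z) := hS
  have hlog : Real.log (pairProd (reg n)) < Real.log (pairProd z) := Real.log_lt_log hregpos hlt
  have hX := EHP56.sum_log_X zz hzz
  have hconv : ∀ d ∈ Ico 1 n, ∑ j, Real.log ‖EHP56.X zz j d‖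
      = (n : ℝ) * Real.log (RR n) + ∑ j, Real.log (X zz d j) := by
    intro d hd'
    obtain ⟨hd1, hd2⟩ := mem_Ico.1 hd'
    have h1 : ∀ j : ZMod n, Real.log ‖EHP56.X zz j d‖ = Real.log (RR n) + Real.log (X zz d j) := by
      intro j
      rw [← Real.log_mul hR.ne' (hXpos d j hd1 hd2).ne']
      congr 1
      unfold EHP56.X X len
      rw [norm_div, EHP56.norm_chi_sub j d hd2.le]
      have h2 := hsin d hd1 hd2
      have h3 : Real.sin (Real.pi * (d : ℝ) / n) = Real.sin (b n d) := rfl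
      rw [h3]
      field_simp
    rw [Finset.sum_congr rfl (fun j _ => h1 j), Finset.sum_add_distrib, Finset.sum_const,
      Finset.card_univ, ZMod.card, nsmul_eq_mul]
  rw [Finset.sum_congr rfl hconv, Finset.sum_add_distrib, Finset.sum_const, Nat.card_Ico,
    nsmul_eq_mul] at hX
  -- the sum over all classes is twice the sum over the classes `1, ..., m`
  set L : ℕ → ℝ := fun h => ∑ j : ZMod n, Real.log (X zz h j) with hL
  have hrefl : ∀ h, h ≤ n → L (n - h) = L h := by
    intro h hh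
    simp only [hL]
    rw [← Equiv.sum_comp (Equiv.addRight (h : ZMod n))]
    apply Finset.sum_congr rfl
    intro i _
    simp only [Equiv.coe_addRight]
    rw [final_X_refl zz hh i]
  have hsplit : ∑ d ∈ Ico 1 n, L d = ∑ d ∈ Ico 1 (m + 1), L d + ∑ d ∈ Ico (m + 1) n, L d :=
    (Finset.sum_Ico_consecutive L (by omega) (by omega)).symm
  have hhalf : ∑ d ∈ Ico (m + 1) n, L d = ∑ d ∈ Ico 1 (m + 1), L d := by
    have h1 : ∑ d ∈ Ico 1 (m + 1), L d = ∑ d ∈ Ico 1 (m + 1), L (n - d) := by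
      apply Finset.sum_congr rfl
      intro d hd'
      obtain ⟨hd1, hd2⟩ := mem_Ico.1 hd'
      exact (hrefl d (by omega)).symm
    rw [h1, Finset.sum_Ico_reflect L 1 (by omega)]
    congr 2
    omega
  have htop : L m ≤ 0 := by
    simp only [hL]
    apply Finset.sum_nonpos
    intro i _
    exact Real.log_nonpos (hXpos m i (by omega) (by omega)).le
      (X_top_le (by omega) hm zz hdz i)
  have hrest : ∑ h ∈ Ico 1 m, L h ≤ 0 := by
    refine le_trans (sum_log_le_PhiH hm4 hm zz hcp hdz hper') ?_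
    apply Finset.sum_nonpos
    intro h hh
    obtain ⟨hh1, hh2⟩ := mem_Ico.1 hh
    apply Finset.sum_nonpos
    intro i _
    exact PhiH_nonpos hm4 hm hh1 hh2 (hXpos h i hh1 (by omega))
      (X_le hm zz hdz hh1 hh2.le i)
  have hm1 : ∑ d ∈ Ico 1 (m + 1), L d = ∑ d ∈ Ico 1 m, L d + L m :=
    Finset.sum_Ico_succ_top (by omega) L
  have hcard : ((n - 1 : ℕ) : ℝ) = (n : ℝ) - 1 := by
    rw [Nat.cast_sub (by omega), Nat.cast_one]
  rw [hcard] at hX
  have hRR : RR n = 1 / Real.cos (Real.pi / (2 * (n : ℝ))) := rfl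
  rw [← hRR] at hlogreg
  have hXL : ∑ d ∈ Ico 1 n, ∑ j : ZMod n, Real.log (X zz d j) = ∑ d ∈ Ico 1 n, L d := rfl
  rw [hXL, hS'] at hX
  nlinarith

theorem main_nine (n : ℕ) (hodd : Odd n) (hn : 9 ≤ n) (z : Fin n → ℂ)
    (hz : ∀ i j, ‖z i - z j‖ ≤ 2) : pairProd z ≤ pairProd (reg n) := by
  obtain ⟨m, rfl⟩ : ∃ m, n = m + 1 := ⟨n - 1, by omega⟩
  exact reduction m (by omega) 2 (by norm_num) (pairProd (reg (m + 1)))
    (EHP56.pairProd_reg_pos (n := m + 1) (by omega)).le
    (fun z hd hc hper => final_core m hodd hn z hd hc hper) z hz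

end RP38
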