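import Pool.Agent.RP38.Defs

/-!
# Halving weights

`h = 2 g` is split into `(g, g)`, `h = 2 g + 1` into `(g, g + 1)`.  `sh n g k = sin b_g cos b_k / sin b_{g+k}` is the share of the
class `g` in the step `g + k`.  The weights `WH n m g` (`1 ≤ g < m`) satisfy
`W_g = 1 - φ_g + sh g (g-1) W_{2g-1} + W_{2g} + sh g (g+1) W_{2g+1}` (first term only for `g ≥ 2`; `W_h = 0` for `h ≥ m`).
-/

namespace RP38

open Finset

/-- the share of the class `g` in the step `g + k` -/
noncomputable def sh (n g k : ℕ) : ℝ :=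
  Real.sin (b n g) * Real.cos (b n k) / Real.sin (b n (g + k))

/-- the halving weights -/
noncomputable def WH (n m g : ℕ) : ℝ :=
  if _ : 1 ≤ g ∧ g < m then
    1 - phi n g + (if _ : 2 ≤ g then sh n g (g - 1) * WH n m (2 * g - 1) else 0)
      + WH n m (2 * g) + sh n g (g + 1) * WH n m (2 * g + 1)
  else 0
termination_by m - g
decreasing_by all_goals omega

/-- coefficient of the class `g` with the partner `g - 1` -/
noncomputable def cm (n m g : ℕ) : ℝ :=
  if 2 ≤ g then sh n g (g - 1) * WH n m (2 * g - 1) else 0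

/-- coefficient of the class `g` with the partner `g` -/
noncomputable def c0 (n m g : ℕ) : ℝ := WH n m (2 * g)

/-- coefficient of the class `g` with the partner `g + 1` -/
noncomputable def cp (n m g : ℕ) : ℝ := sh n g (g + 1) * WH n m (2 * g + 1)

/-- the function of one chord of class `g` which bounds everything -/
noncomputable def PhiH (n m g : ℕ) (x : ℝ) : ℝ :=
  Real.log x - phi n g / 2 * (x ^ 2 - 1) - WH n m g * (x - 1)
    + cm n m g * (M (b n (g - 1)) x - 1) + c0 n m g * (M (b n g) x - 1)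
    + cp n m g * (M (b n (g + 1)) x - 1)

theorem WH_top {n m g : ℕ} (h : m ≤ g) : WH n m g = 0 := by
  rw [WH, dif_neg (by omega)]

theorem WH_rec {n m g : ℕ} (hg : 1 ≤ g) (hm : g < m) :
    WH n m g = 1 - phi n g + cm n m g + c0 n m g + cp n m g := by
  rw [WH, dif_pos ⟨hg, hm⟩]
  unfold cm c0 cp
  by_cases h2 : 2 ≤ g
  · rw [dif_pos h2, if_pos h2]
  · rw [dif_neg h2, if_neg h2]

end RP38
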