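import Pool.Agent.RP38.HWa

/-!
# The bound for the halving weights

`W_h ≤ (1.77 / b_h) (1 + .8 / h²) - 1.2` for `2 ≤ h < m`, `b_h ≤ 1.47`.
-/

namespace RP38

open Finset

/-- `E(x) = C² (10 - 15 C + 6 C²)`, `C = cos² x` -/
noncomputable def EE (x : ℝ) : ℝ :=
  Real.cos x ^ 4 * (10 - 15 * Real.cos x ^ 2 + 6 * Real.cos x ^ 4)

theorem one_sub_phi_EE (n h : ℕ) : 1 - phi n h = EE (b n h) := by
  rw [one_sub_phi, Real.cos_two_mul]
  unfold EE
  ring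

private theorem C_mem (x : ℝ) : 0 ≤ Real.cos x ^ 2 ∧ Real.cos x ^ 2 ≤ 1 :=
  ⟨sq_nonneg _, Real.cos_sq_le_one x⟩

theorem EE_le (x : ℝ) : EE x ≤ 6 / 5 := by
  obtain ⟨h0, h1⟩ := C_mem x
  unfold EE
  have e : Real.cos x ^ 4 = (Real.cos x ^ 2) ^ 2 := by ring
  rw [e]
  set C := Real.cos x ^ 2
  nlinarith [mul_nonneg h0 (sub_nonneg.2 h1), sq_nonneg (C - 181 / 250),
    mul_nonneg (mul_nonneg h0 (sub_nonneg.2 h1)) (sq_nonneg (C - 181 / 250)),
    mul_nonneg (sub_nonneg.2 h1) (sq_nonneg (C - 181 / 250)),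
    mul_nonneg h0 (sq_nonneg (C - 181 / 250))]

theorem EE_le_four {x : ℝ} (hx : 0 ≤ x) (hx2 : x ≤ Real.pi / 2) :
    EE x ≤ 10 * (Real.pi / 2 - x) ^ 4 := by
  obtain ⟨h0, h1⟩ := C_mem x
  have hc0 : 0 ≤ Real.cos x := Real.cos_nonneg_of_neg_pi_div_two_le_of_le (by linarith [Real.pi_pos]) hx2
  have hc : Real.cos x ≤ Real.pi / 2 - x := by
    rw [← Real.sin_pi_div_two_sub]
    exact Real.sin_le (by linarith)
  have h4 : Real.cos x ^ 4 ≤ (Real.pi / 2 - x) ^ 4 := pow_le_pow_left₀ hc0 hc 4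
  unfold EE
  have h5 : Real.cos x ^ 4 * (10 - 15 * Real.cos x ^ 2 + 6 * Real.cos x ^ 4) ≤
      Real.cos x ^ 4 * 10 := by
    apply mul_le_mul_of_nonneg_left _ (by positivity)
    have e : Real.cos x ^ 4 = (Real.cos x ^ 2) ^ 2 := by ring
    rw [e]
    nlinarith
  linarith

theorem EE_nonneg (x : ℝ) : 0 ≤ EE x := by
  unfold EE
  apply mul_nonneg (by positivity)
  nlinarith [sq_nonneg (Real.cos x ^ 2 - 5 / 4)]

/-- `E` in terms of `u = sin (2 x - π/2)` -/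
theorem EE_u (x : ℝ) : EE x = (8 - 7 * Real.sin (2 * x - Real.pi / 2)
    - 7 * Real.sin (2 * x - Real.pi / 2) ^ 2 + 3 * Real.sin (2 * x - Real.pi / 2) ^ 3
    + 3 * Real.sin (2 * x - Real.pi / 2) ^ 4) / 8 := by
  have e : Real.sin (2 * x - Real.pi / 2) = - Real.cos (2 * x) := by
    rw [Real.sin_sub_pi_div_two]
  rw [e, Real.cos_two_mul]
  unfold EE
  ring


private theorem poly_anti {u v : ℝ} (hv : 0 ≤ v) (hvu : v ≤ u) (hu : u ≤ 1) :
    8 - 7 * u - 7 * u ^ 2 + 3 * u ^ 3 + 3 * u ^ 4 ≤ 8 - 7 * v - 7 * v ^ 2 + 3 * v ^ 3 + 3 * v ^ 4 := by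
  have hu0 : 0 ≤ u := hv.trans hvu
  have hv1 : v ≤ 1 := hvu.trans hu
  have a1 : u ^ 2 ≤ u := by nlinarith
  have a2 : v ^ 2 ≤ v := by nlinarith
  have a3 : u * v ≤ (u + v) / 2 := by nlinarith
  have a4 : u ^ 3 ≤ u := by nlinarith
  have a5 : v ^ 3 ≤ v := by nlinarith
  have a6 : u ^ 2 * v ≤ (u + v) / 2 := by nlinarith
  have a7 : u * v ^ 2 ≤ (u + v) / 2 := by nlinarith
  have hb : -7 - 7 * (u + v) + 3 * (u ^ 2 + u * v + v ^ 2) +
      3 * (u ^ 3 + u ^ 2 * v + u * v ^ 2 + v ^ 3) ≤ 0 := by linarith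
  have := mul_nonneg (sub_nonneg.2 hvu) (neg_nonneg.2 hb)
  nlinarith [this]

private theorem EE_le_of_sin {x v : ℝ} (hv : 0 ≤ v) (h : v ≤ Real.sin (2 * x - Real.pi / 2)) :
    EE x ≤ (8 - 7 * v - 7 * v ^ 2 + 3 * v ^ 3 + 3 * v ^ 4) / 8 := by
  rw [EE_u]
  have := poly_anti hv h (Real.sin_le_one _)
  linarith

private theorem sin_lower {θ θ0 : ℝ} (h0 : 0 ≤ θ0) (h : θ0 ≤ θ) (h2 : θ ≤ Real.pi / 2) :
    θ0 - θ0 ^ 3 / 6 ≤ Real.sin θ :=
  (Real.sin_ge_sub_cube h0).trans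
    (Real.sin_le_sin_of_le_of_le_pi_div_two (by linarith [Real.pi_pos]) h2 h)

theorem caseA {x : ℝ} (h1 : Real.pi / 4 ≤ x) (h2 : x ≤ 147 / 100) :
    (EE x + 6 / 5) * x ≤ 177 / 100 := by
  have hp1 := Real.pi_gt_d4
  have hp2 := Real.pi_lt_d4
  have hx0 : 0 < x := by linarith
  set θ := 2 * x - Real.pi / 2 with hθ
  have hθ0 : 0 ≤ θ := by linarith
  have hθ2 : θ ≤ Real.pi / 2 := by linarith
  have hx : x = (θ + Real.pi / 2) / 2 := by linarith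
  rcases le_total θ (4 / 5) with h | h
  · have hs := Real.sin_ge_sub_cube hθ0
    have hl0 : 0 ≤ θ - θ ^ 3 / 6 := by nlinarith [mul_nonneg hθ0 hθ0, mul_nonneg hθ0 (mul_nonneg hθ0 hθ0)]
    have h3 := EE_le_of_sin hl0 hs
    have hlt : θ - θ ^ 3 / 6 ≤ θ := by
      have : 0 ≤ θ ^ 3 := by positivity
      linarith
    have b2 : θ ^ 2 - θ ^ 4 / 3 ≤ (θ - θ ^ 3 / 6) ^ 2 := by nlinarith [sq_nonneg (θ ^ 3)]
    have b3 : (θ - θ ^ 3 / 6) ^ 3 ≤ θ ^ 3 := pow_le_pow_left₀ hl0 hlt 3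
    have b4 : (θ - θ ^ 3 / 6) ^ 4 ≤ θ ^ 4 := pow_le_pow_left₀ hl0 hlt 4
    have h4 : EE x ≤ (8 - 7 * θ - 7 * θ ^ 2 + 25 / 6 * θ ^ 3 + 16 / 3 * θ ^ 4) / 8 := by linarith
    have h5 : (EE x + 6 / 5) * x ≤
        ((8 - 7 * θ - 7 * θ ^ 2 + 25 / 6 * θ ^ 3 + 16 / 3 * θ ^ 4) / 8 + 6 / 5) *
          ((θ + 15708 / 10000) / 2) := by
      apply mul_le_mul (by linarith) (by linarith) hx0.le
      nlinarith [EE_nonneg x]
    refine h5.trans ?_
    nlinarith [mul_nonneg hθ0 (sub_nonneg.2 h), sq_nonneg (θ - 18 / 100),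
      mul_nonneg hθ0 (sq_nonneg (θ - 18 / 100)), mul_nonneg hθ0 (mul_nonneg hθ0 (sub_nonneg.2 h)),
      mul_nonneg (mul_nonneg hθ0 hθ0) (sq_nonneg (θ - 18 / 100)),
      mul_nonneg (mul_nonneg hθ0 (mul_nonneg hθ0 hθ0)) (sub_nonneg.2 h),
      mul_nonneg (mul_nonneg hθ0 (mul_nonneg hθ0 hθ0)) (mul_nonneg hθ0 (sub_nonneg.2 h))]
  rcases le_total θ 1 with h' | h'
  · have hs := sin_lower (by norm_num) h hθ2
    have h3 := EE_le_of_sin (x := x) (v := 71 / 100) (by norm_num) (le_trans (by norm_num) hs)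
    have h4 : EE x + 6 / 5 ≤ 1368 / 1000 := by
      refine (add_le_add_left h3 _).trans ?_
      norm_num
    have h5 : x ≤ 12854 / 10000 := by linarith
    calc (EE x + 6 / 5) * x ≤ 1368 / 1000 * (12854 / 10000) :=
          mul_le_mul h4 h5 hx0.le (by norm_num)
      _ ≤ 177 / 100 := by norm_num
  rcases le_total θ (6 / 5) with h'' | h''
  · have hs := sin_lower (by norm_num) h' hθ2
    have h3 := EE_le_of_sin (x := x) (v := 83 / 100) (by norm_num) (le_trans (by norm_num) hs)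
    have h4 : EE x + 6 / 5 ≤ 1264 / 1000 := by
      refine (add_le_add_left h3 _).trans ?_
      norm_num
    have h5 : x ≤ 13854 / 10000 := by linarith
    calc (EE x + 6 / 5) * x ≤ 1264 / 1000 * (13854 / 10000) :=
          mul_le_mul h4 h5 hx0.le (by norm_num)
      _ ≤ 177 / 100 := by norm_num
  rcases le_total θ (13 / 10) with h3' | h3'
  · have hs := sin_lower (by norm_num) h'' hθ2
    have h3 := EE_le_of_sin (x := x) (v := 91 / 100) (by norm_num) (le_trans (by norm_num) hs)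
    have h4 : EE x + 6 / 5 ≤ 122 / 100 := by
      refine (add_le_add_left h3 _).trans ?_
      norm_num
    have h5 : x ≤ 14354 / 10000 := by linarith
    calc (EE x + 6 / 5) * x ≤ 122 / 100 * (14354 / 10000) :=
          mul_le_mul h4 h5 hx0.le (by norm_num)
      _ ≤ 177 / 100 := by norm_num
  · have h3 := EE_le_four hx0.le (by linarith)
    have h4 : (Real.pi / 2 - x) ^ 4 ≤ (1355 / 10000) ^ 4 :=
      pow_le_pow_left₀ (by linarith) (by linarith) 4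
    have h5 : EE x + 6 / 5 ≤ 12034 / 10000 := by
      have : EE x ≤ 10 * (1355 / 10000) ^ 4 := h3.trans (by linarith)
      refine (add_le_add_left this _).trans ?_
      norm_num
    calc (EE x + 6 / 5) * x ≤ 12034 / 10000 * (147 / 100) :=
          mul_le_mul h5 h2 hx0.le (by norm_num)
      _ ≤ 177 / 100 := by norm_num


/-- the bound -/
noncomputable def ww (n h : ℕ) : ℝ := 177 / 100 / b n h * (1 + 4 / 5 / (h : ℝ) ^ 2) - 6 / 5

theorem b_eq (n h : ℕ) : b n h = h * b n 1 := by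
  unfold b
  push_cast
  ring

theorem ww_eq {n h : ℕ} : ww n h = 177 / 100 / b n 1 * ff h - 6 / 5 := by
  unfold ww ff
  rw [b_eq]
  rw [div_mul_div_comm, mul_comm (b n 1) (h : ℝ), mul_comm_div, mul_div_assoc', div_mul_eq_mul_div]

theorem WH_top_half {n m h : ℕ} (h1 : 1 ≤ h) (hm : h < m) (h2 : m ≤ 2 * h - 1) :
    WH n m h = EE (b n h) := by
  rw [WH_rec h1 hm]
  unfold cm c0 cp
  rw [WH_top (g := 2 * h - 1) h2, WH_top (g := 2 * h) (by omega), WH_top (g := 2 * h + 1) (by omega),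
    ← one_sub_phi_EE]
  split_ifs <;> ring

theorem b_ge_quarter {n h : ℕ} (hn : 0 < n) (h4 : n ≤ 4 * h) : Real.pi / 4 ≤ b n h := by
  unfold b
  have h1 : (0 : ℝ) < n := by exact_mod_cast hn
  have h2 : (n : ℝ) ≤ 4 * h := by exact_mod_cast h4
  rw [div_le_div_iff₀ (by norm_num) h1]
  nlinarith [Real.pi_pos]

theorem quarter_of_b {n h : ℕ} (hn : 0 < n) (hb : Real.pi / 4 ≤ b n h) : n ≤ 4 * h := by
  unfold b at hb
  have h1 : (0 : ℝ) < n := by exact_mod_cast hn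
  rw [div_le_div_iff₀ (by norm_num) h1] at hb
  have : (n : ℝ) ≤ 4 * h := by nlinarith [Real.pi_pos]
  exact_mod_cast this

theorem WH_le_A {n m h : ℕ} (hn : n = 2 * m + 1) (h1 : 1 ≤ h) (hm : h < m) (h2 : m ≤ 2 * h - 1)
    (hb : b n h ≤ 147 / 100) : WH n m h ≤ 177 / 100 / b n h - 6 / 5 := by
  rw [WH_top_half h1 hm h2]
  have hq := b_ge_quarter (n := n) (h := h) (by omega) (by omega)
  have hA := caseA hq hb
  have hb0 : 0 < b n h := by linarith [Real.pi_pos]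
  rw [le_sub_iff_add_le, le_div_iff₀ hb0]
  exact hA

/-- `E (β)` for `2 β = π/2 - t` -/
theorem EE_le_t {x t : ℝ} (hx : 2 * x = Real.pi / 2 - t) (ht : 0 ≤ t) (ht2 : t ≤ 1) :
    EE x ≤ 1 + 7 / 8 * (Real.sin t - Real.sin t ^ 2) ∧ 0 ≤ Real.sin t ∧ Real.sin t ≤ t := by
  have hs : Real.sin (2 * x - Real.pi / 2) = - Real.sin t := by
    rw [hx, ← Real.sin_neg]
    congr 1
    ring
  have h0 : 0 ≤ Real.sin t := Real.sin_nonneg_of_nonneg_of_le_pi ht (by linarith [Real.pi_gt_three])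
  have h1 : Real.sin t ≤ t := Real.sin_le ht
  refine ⟨?_, h0, h1⟩
  rw [EE_u, hs]
  have h2 : Real.sin t ≤ 1 := Real.sin_le_one t
  have h3 : Real.sin t ^ 4 ≤ Real.sin t ^ 3 := by
    have : 0 ≤ Real.sin t ^ 3 := by positivity
    nlinarith
  nlinarith

end RP38
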