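import Pool.Agent.RP38.DefsH

/-!
# Analytic part of the recursion for the halving weights
-/

namespace RP38

open Finset

theorem cos_le_four {t : ℝ} (h0 : 0 ≤ t) (h1 : t ≤ 2) :
    Real.cos t ≤ 1 - t ^ 2 / 2 + t ^ 4 / 24 := by
  have e : Real.cos t = 1 - 2 * Real.sin (t / 2) ^ 2 := by
    have h1 := Real.cos_two_mul (t / 2)
    have h2 := Real.sin_sq (t / 2)
    have h3 : 2 * (t / 2) = t := by ring
    rw [h3] at h1
    linarith
  have hs := Real.sin_ge_sub_cube (x := t / 2) (by linarith)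
  have hl : 0 ≤ t / 2 - (t / 2) ^ 3 / 6 := by
    have : t ^ 2 ≤ 4 := by nlinarith
    nlinarith [mul_nonneg h0 (sub_nonneg.2 this)]
  have h2 : (t / 2 - (t / 2) ^ 3 / 6) ^ 2 ≤ Real.sin (t / 2) ^ 2 := pow_le_pow_left₀ hl hs 2
  rw [e]
  nlinarith [sq_nonneg (t ^ 3)]

theorem key_nonneg {t : ℝ} (h0 : 0 ≤ t) (h1 : t ≤ 2) :
    0 ≤ 2 * Real.sin t ^ 2 - t * Real.sin t - t ^ 2 * Real.cos t := by
  have hs := Real.sin_ge_sub_cube h0
  have hc := cos_le_four h0 h1
  have ht2 : t ^ 2 ≤ 4 := by nlinarith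
  have h4 : t / 4 ≤ t - t ^ 3 / 6 := by nlinarith [mul_nonneg h0 (sub_nonneg.2 ht2)]
  have h5 : 2 * (t - t ^ 3 / 6) ^ 2 - t * (t - t ^ 3 / 6) ≤ 2 * Real.sin t ^ 2 - t * Real.sin t := by
    nlinarith [mul_nonneg (sub_nonneg.2 hs)
      (by linarith : (0 : ℝ) ≤ 2 * (Real.sin t + (t - t ^ 3 / 6)) - t)]
  have h6 : t ^ 2 * Real.cos t ≤ t ^ 2 * (1 - t ^ 2 / 2 + t ^ 4 / 24) :=
    mul_le_mul_of_nonneg_left hc (sq_nonneg t)
  nlinarith [sq_nonneg (t ^ 3)]

theorem gdiff {x y : ℝ} (hx : 0 < x) (hxy : x ≤ y) (hy : y ≤ Real.pi / 2) :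
    1 / (x * Real.sin x) - 1 / (y * Real.sin y) ≤ 1 / x ^ 2 - 1 / y ^ 2 := by
  have hmono : MonotoneOn (fun t : ℝ => 1 / (t * Real.sin t) - 1 / t ^ 2) (Set.Icc x y) := by
    have hsin : ∀ t ∈ Set.Icc x y, 0 < Real.sin t := fun t ht =>
      Real.sin_pos_of_pos_of_lt_pi (hx.trans_le ht.1) (by linarith [ht.2, Real.pi_pos])
    apply monotoneOn_of_deriv_nonneg (convex_Icc x y)
    · apply ContinuousOn.sub
      · apply ContinuousOn.div continuousOn_const (by fun_prop)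
        intro t ht
        exact (mul_pos (hx.trans_le ht.1) (hsin t ht)).ne'
      · apply ContinuousOn.div continuousOn_const (by fun_prop)
        intro t ht
        exact (pow_pos (hx.trans_le ht.1) 2).ne'
    · intro t ht
      rw [interior_Icc] at ht
      have ht' : t ∈ Set.Icc x y := ⟨ht.1.le, ht.2.le⟩
      have h0 : t ≠ 0 := (hx.trans ht.1).ne'
      have h1 : Real.sin t ≠ 0 := (hsin t ht').ne'
      apply DifferentiableAt.differentiableWithinAt
      fun_prop (disch := first | exact mul_ne_zero h0 h1 | exact pow_ne_zero 2 h0)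
    · intro t ht
      rw [interior_Icc] at ht
      have ht' : t ∈ Set.Icc x y := ⟨ht.1.le, ht.2.le⟩
      have ht0 : 0 < t := hx.trans ht.1
      have hs0 := hsin t ht'
      have d1 : HasDerivAt (fun t : ℝ => t * Real.sin t) (1 * Real.sin t + t * Real.cos t) t :=
        (hasDerivAt_id t).mul (Real.hasDerivAt_sin t)
      have d2 : HasDerivAt (fun t : ℝ => 1 / (t * Real.sin t))
          (-(1 * Real.sin t + t * Real.cos t) / (t * Real.sin t) ^ 2) t := by
        have := (hasDerivAt_const t (1 : ℝ)).div d1 (mul_pos ht0 hs0).ne'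
        convert! this using 1
        ring
      have d3 : HasDerivAt (fun t : ℝ => 1 / t ^ 2) (-(2 * t) / (t ^ 2) ^ 2) t := by
        have := (hasDerivAt_const t (1 : ℝ)).div (hasDerivAt_pow 2 t) (pow_pos ht0 2).ne'
        convert! this using 1
        norm_num
      have d4 := d2.sub d3
      have e : deriv (fun t : ℝ => 1 / (t * Real.sin t) - 1 / t ^ 2) t =
          -(1 * Real.sin t + t * Real.cos t) / (t * Real.sin t) ^ 2 - -(2 * t) / (t ^ 2) ^ 2 :=
        d4.deriv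
      rw [e]
      have hk := key_nonneg ht0.le (by linarith [ht.2, Real.pi_lt_d2])
      have e2 : -(1 * Real.sin t + t * Real.cos t) / (t * Real.sin t) ^ 2 - -(2 * t) / (t ^ 2) ^ 2 =
          (2 * Real.sin t ^ 2 - t * Real.sin t - t ^ 2 * Real.cos t) / (t ^ 3 * Real.sin t ^ 2) := by
        field_simp
        ring
      rw [e2]
      positivity
  have := hmono (Set.left_mem_Icc.2 hxy) (Set.right_mem_Icc.2 hxy) hxy
  simp only at this
  linarith


/-- `(1 + .8 / j²) / j` -/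
noncomputable def ff (j : ℝ) : ℝ := (1 + 4 / 5 / j ^ 2) / j

theorem rat_step {s : ℝ} (hs : 0 ≤ s) :
    1 / 2 * (ff (3 + 2 * s) + ff (5 + 2 * s)) + ff (2 * (2 + s)) +
      1 / 2 * ((1 + 4 / 5 / (3 + 2 * s) ^ 2) * (1 / (3 + 2 * s) ^ 2 - 1 / (5 + 2 * s) ^ 2) +
        4 / 5 * (1 / (3 + 2 * s) ^ 2 - 1 / (5 + 2 * s) ^ 2) * (15708 / 10000 / (5 + 2 * s) ^ 2))
      ≤ ff (2 + s) := by
  have h2 : (2 : ℝ) + s ≠ 0 := by positivity
  have h3 : (3 : ℝ) + 2 * s ≠ 0 := by positivity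
  have h5 : (5 : ℝ) + 2 * s ≠ 0 := by positivity
  rw [← sub_nonneg]
  have e : ff (2 + s) - (1 / 2 * (ff (3 + 2 * s) + ff (5 + 2 * s)) + ff (2 * (2 + s)) +
      1 / 2 * ((1 + 4 / 5 / (3 + 2 * s) ^ 2) * (1 / (3 + 2 * s) ^ 2 - 1 / (5 + 2 * s) ^ 2) +
        4 / 5 * (1 / (3 + 2 * s) ^ 2 - 1 / (5 + 2 * s) ^ 2) * (15708 / 10000 / (5 + 2 * s) ^ 2))) =
      (31172971 * s ^ 0 + 180092820 * s ^ 1 + 403412901 * s ^ 2 + 480728992 * s ^ 3 + 340652884 * s ^ 4 + 148657696 * s ^ 5 + 39264336 * s ^ 6 + 5760000 * s ^ 7 + 360000 * s ^ 8) / (6250 * ((2 + s) ^ 3 * (3 + 2 * s) ^ 4 * (5 + 2 * s) ^ 4)) := by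
    unfold ff
    field_simp
    ring
  rw [e]
  positivity


theorem ff_nonneg {j : ℝ} (hj : 0 < j) : 0 ≤ ff j := by
  unfold ff
  positivity

theorem trig_step {H δ : ℝ} (hH : 2 ≤ H) (hδ : 0 < δ) (hy : (2 * H + 1) * δ ≤ Real.pi / 2) :
    1 / 2 * (1 + Real.sin δ / Real.sin ((2 * H - 1) * δ)) * ff (2 * H - 1) + ff (2 * H) +
      1 / 2 * (1 - Real.sin δ / Real.sin ((2 * H + 1) * δ)) * ff (2 * H + 1) ≤ ff H := by
  obtain ⟨s, rfl⟩ : ∃ s, H = 2 + s := ⟨H - 2, by ring⟩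
  have hs : 0 ≤ s := by linarith
  have ea : 2 * (2 + s) - 1 = 3 + 2 * s := by ring
  have ec : 2 * (2 + s) + 1 = 5 + 2 * s := by ring
  rw [ea, ec]
  rw [ec] at hy
  set a : ℝ := 3 + 2 * s with ha
  set c : ℝ := 5 + 2 * s with hc
  have ha0 : 0 < a := by positivity
  have hc0 : 0 < c := by positivity
  have hac : a < c := by linarith
  have hx0 : 0 < a * δ := by positivity
  have hy0 : 0 < c * δ := by positivity
  have hxy : a * δ ≤ c * δ := mul_le_mul_of_nonneg_right hac.le hδ.le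
  have hsx : 0 < Real.sin (a * δ) :=
    Real.sin_pos_of_pos_of_lt_pi hx0 (by linarith [Real.pi_pos])
  have hsy : 0 < Real.sin (c * δ) :=
    Real.sin_pos_of_pos_of_lt_pi hy0 (by linarith [Real.pi_pos])
  have hsxy : Real.sin (a * δ) ≤ Real.sin (c * δ) :=
    Real.sin_le_sin_of_le_of_le_pi_div_two (by linarith [Real.pi_pos]) hy hxy
  have hg := gdiff hx0 hxy hy
  have hj := Real.mul_le_sin hy0.le hy
  have hgy : 1 / (c * δ * Real.sin (c * δ)) ≤ 15708 / 10000 / (c * δ) ^ 2 := by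
    rw [div_le_div_iff₀ (by positivity) (by positivity)]
    have h1 : c * δ ≤ Real.pi / 2 * Real.sin (c * δ) := by
      have e : c * δ = Real.pi / 2 * (2 / Real.pi * (c * δ)) := by
        field_simp
      calc c * δ = Real.pi / 2 * (2 / Real.pi * (c * δ)) := e
        _ ≤ _ := mul_le_mul_of_nonneg_left hj (by positivity)
    have h2 : c * δ ≤ 15708 / 10000 * Real.sin (c * δ) := by
      nlinarith [Real.pi_lt_d4]
    nlinarith [mul_le_mul_of_nonneg_left h2 hy0.le]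
  have hsd : Real.sin δ ≤ δ := Real.sin_le hδ.le
  have hsd0 : 0 ≤ Real.sin δ := by
    apply Real.sin_nonneg_of_nonneg_of_le_pi hδ.le
    nlinarith [Real.pi_pos]
  -- the bracket
  have hffac : ff c ≤ ff a := by
    unfold ff
    apply div_le_div₀ (by positivity) _ ha0 hac.le
    have : 4 / 5 / c ^ 2 ≤ 4 / 5 / a ^ 2 := by
      apply div_le_div_of_nonneg_left (by norm_num) (by positivity)
      exact pow_le_pow_left₀ ha0.le hac.le 2
    linarith
  have hA0 : 0 ≤ ff a / Real.sin (a * δ) - ff c / Real.sin (c * δ) := by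
    rw [sub_nonneg]
    exact div_le_div₀ (ff_nonneg ha0) hffac hsx hsxy
  have hA1 : Real.sin δ * (ff a / Real.sin (a * δ) - ff c / Real.sin (c * δ)) ≤
      δ * (ff a / Real.sin (a * δ) - ff c / Real.sin (c * δ)) :=
    mul_le_mul_of_nonneg_right hsd hA0
  have hA2 : δ * (ff a / Real.sin (a * δ) - ff c / Real.sin (c * δ)) =
      δ ^ 2 * ((1 + 4 / 5 / a ^ 2) * (1 / (a * δ * Real.sin (a * δ)) -
        1 / (c * δ * Real.sin (c * δ))) + 4 / 5 * (1 / a ^ 2 - 1 / c ^ 2) *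
        (1 / (c * δ * Real.sin (c * δ)))) := by
    unfold ff
    field_simp
    ring
  have hac2 : 0 ≤ 1 / a ^ 2 - 1 / c ^ 2 := by
    rw [sub_nonneg]
    exact one_div_le_one_div_of_le (by positivity) (pow_le_pow_left₀ ha0.le hac.le 2)
  have hA3 : δ ^ 2 * ((1 + 4 / 5 / a ^ 2) * (1 / (a * δ * Real.sin (a * δ)) -
        1 / (c * δ * Real.sin (c * δ))) + 4 / 5 * (1 / a ^ 2 - 1 / c ^ 2) *
        (1 / (c * δ * Real.sin (c * δ)))) ≤
      δ ^ 2 * ((1 + 4 / 5 / a ^ 2) * (1 / (a * δ) ^ 2 - 1 / (c * δ) ^ 2) +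
        4 / 5 * (1 / a ^ 2 - 1 / c ^ 2) * (15708 / 10000 / (c * δ) ^ 2)) := by
    apply mul_le_mul_of_nonneg_left _ (sq_nonneg δ)
    apply add_le_add
    · exact mul_le_mul_of_nonneg_left hg (by positivity)
    · exact mul_le_mul_of_nonneg_left hgy (by positivity)
  have hA4 : δ ^ 2 * ((1 + 4 / 5 / a ^ 2) * (1 / (a * δ) ^ 2 - 1 / (c * δ) ^ 2) +
        4 / 5 * (1 / a ^ 2 - 1 / c ^ 2) * (15708 / 10000 / (c * δ) ^ 2)) =
      (1 + 4 / 5 / a ^ 2) * (1 / a ^ 2 - 1 / c ^ 2) +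
        4 / 5 * (1 / a ^ 2 - 1 / c ^ 2) * (15708 / 10000 / c ^ 2) := by
    field_simp
  have hr := rat_step hs
  rw [← ha, ← hc] at hr
  have e : 1 / 2 * (1 + Real.sin δ / Real.sin (a * δ)) * ff a + ff (2 * (2 + s)) +
      1 / 2 * (1 - Real.sin δ / Real.sin (c * δ)) * ff c =
      1 / 2 * (ff a + ff c) + ff (2 * (2 + s)) +
        1 / 2 * (Real.sin δ * (ff a / Real.sin (a * δ) - ff c / Real.sin (c * δ))) := by
    ring
  rw [e]
  linarith

theorem sh_minus {n g : ℕ} (hg : 1 ≤ g) (hs : Real.sin (b n (2 * g - 1)) ≠ 0) :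
    sh n g (g - 1) = 1 / 2 * (1 + Real.sin (b n 1) / Real.sin (b n (2 * g - 1))) := by
  have e : g + (g - 1) = 2 * g - 1 := by omega
  unfold sh
  rw [e]
  have e1 : b n (2 * g - 1) = b n g + b n (g - 1) := by
    unfold b
    rw [← e]
    push_cast
    ring
  have e2 : b n 1 = b n g - b n (g - 1) := by
    unfold b
    have : ((g - 1 : ℕ) : ℝ) = (g : ℝ) - 1 := by
      rw [Nat.cast_sub hg, Nat.cast_one]
    rw [this]
    push_cast
    ring
  have h2 : Real.sin (b n g) * Real.cos (b n (g - 1)) =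
      1 / 2 * (Real.sin (b n (2 * g - 1)) + Real.sin (b n 1)) := by
    rw [e1, e2, Real.sin_add, Real.sin_sub]
    ring
  rw [h2]
  field_simp

theorem sh_plus {n g : ℕ} (hs : Real.sin (b n (2 * g + 1)) ≠ 0) :
    sh n g (g + 1) = 1 / 2 * (1 - Real.sin (b n 1) / Real.sin (b n (2 * g + 1))) := by
  have e : g + (g + 1) = 2 * g + 1 := by omega
  unfold sh
  rw [e]
  have e1 : b n (2 * g + 1) = b n g + b n (g + 1) := by
    unfold b
    push_cast
    ring
  have e2 : b n 1 = b n (g + 1) - b n g := by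
    unfold b
    push_cast
    ring
  have h2 : Real.sin (b n g) * Real.cos (b n (g + 1)) =
      1 / 2 * (Real.sin (b n (2 * g + 1)) - Real.sin (b n 1)) := by
    rw [e1, e2, Real.sin_add, Real.sin_sub]
    ring
  rw [h2]
  field_simp

end RP38
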