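import Pool.Agent.RP38.HW

/-!
# The bound for the halving weights: the induction
-/

namespace RP38

open Finset

private theorem b_le_half {n m h : ℕ} (hn : n = 2 * m + 1) (hh : h ≤ m) : b n h ≤ Real.pi / 2 := by
  subst hn
  exact (b_lt' (by omega) (by omega)).le

private theorem sh_minus_le_one {n m h : ℕ} (hn : n = 2 * m + 1) (h1 : 1 ≤ h) (hm : 2 * h - 1 ≤ m) :
    sh n h (h - 1) ≤ 1 := by
  have hpos : 0 < b n (2 * h - 1) := b_pos' (by omega) (by omega)
  have hle := b_le_half hn hm
  have hs : 0 < Real.sin (b n (2 * h - 1)) :=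
    Real.sin_pos_of_pos_of_lt_pi hpos (by linarith [Real.pi_pos])
  rw [sh_minus h1 hs.ne']
  have hb1 : b n 1 ≤ b n (2 * h - 1) := by
    rw [b_eq n (2 * h - 1)]
    have h2 : (1 : ℝ) ≤ ((2 * h - 1 : ℕ) : ℝ) := by
      have : 1 ≤ 2 * h - 1 := by omega
      exact_mod_cast this
    nlinarith [b_nonneg' n 1]
  have hs1 : Real.sin (b n 1) ≤ Real.sin (b n (2 * h - 1)) :=
    Real.sin_le_sin_of_le_of_le_pi_div_two (by linarith [b_nonneg' n 1, Real.pi_pos]) hle hb1
  have : Real.sin (b n 1) / Real.sin (b n (2 * h - 1)) ≤ 1 := (div_le_one hs).2 hs1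
  linarith

private theorem sh_plus_le_half {n m h : ℕ} (hn : n = 2 * m + 1) (hm : 2 * h + 1 ≤ m) :
    sh n h (h + 1) ≤ 1 / 2 := by
  have hpos : 0 < b n (2 * h + 1) := b_pos' (by omega) (by omega)
  have hle := b_le_half hn hm
  have hs : 0 < Real.sin (b n (2 * h + 1)) :=
    Real.sin_pos_of_pos_of_lt_pi hpos (by linarith [Real.pi_pos])
  rw [sh_plus hs.ne']
  have h1 : 0 ≤ Real.sin (b n 1) := by
    apply Real.sin_nonneg_of_nonneg_of_le_pi (b_nonneg' n 1)
    have := b_le_half (h := 1) hn (by omega)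
    linarith [Real.pi_pos]
  have : 0 ≤ Real.sin (b n 1) / Real.sin (b n (2 * h + 1)) := by positivity
  linarith

/-- the case `n = 9`, `h = 2` -/
private theorem case_nine : WH 9 4 2 ≤ ww 9 2 := by
  have h3 : WH 9 4 3 = EE (b 9 3) := WH_top_half (by norm_num) (by norm_num) (by norm_num)
  have hb3 : b 9 3 = Real.pi / 3 := by
    unfold b
    push_cast
    ring
  have hE : EE (b 9 3) = 53 / 128 := by
    rw [hb3]
    unfold EE
    rw [Real.cos_pi_div_three]
    norm_num
  have hr := WH_rec (n := 9) (m := 4) (g := 2) (by norm_num) (by norm_num)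
  have hc0 : c0 9 4 2 = 0 := by
    unfold c0
    exact WH_top (by norm_num)
  have hcp : cp 9 4 2 = 0 := by
    unfold cp
    rw [WH_top (by norm_num), mul_zero]
  have hcm : cm 9 4 2 ≤ 53 / 128 := by
    unfold cm
    rw [if_pos (by norm_num)]
    have e : 2 * 2 - 1 = 3 := rfl
    rw [e, h3, hE]
    have := sh_minus_le_one (n := 9) (m := 4) (h := 2) (by norm_num) (by norm_num) (by norm_num)
    nlinarith
  rw [hc0, hcp, one_sub_phi_EE] at hr
  have hEE := EE_le (b 9 2)
  have hb2 : b 9 2 = 2 * Real.pi / 9 := by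
    unfold b
    push_cast
    ring
  have hw : 184 / 100 ≤ ww 9 2 := by
    unfold ww
    rw [hb2]
    have h1 : 2 * Real.pi / 9 ≤ 69814 / 100000 := by linarith [Real.pi_lt_d4]
    have h2 : 177 / 100 / (69814 / 100000) ≤ 177 / 100 / (2 * Real.pi / 9) :=
      div_le_div_of_nonneg_left (by norm_num) (by linarith [Real.pi_pos]) h1
    have h3 : (2.535 : ℝ) ≤ 177 / 100 / (69814 / 100000) := by norm_num
    have h4 : ((2 : ℕ) : ℝ) = 2 := by norm_num
    rw [h4]
    nlinarith
  linarith

/-- case B1: `b_h ≥ .7` -/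
private theorem case_B1 {n m h : ℕ} (hm4 : 4 ≤ m) (hn : n = 2 * m + 1) (h2 : 2 ≤ h) (hm : 2 * h ≤ m)
    (hb : 7 / 10 ≤ b n h) : WH n m h ≤ ww n h := by
  have hp1 := Real.pi_gt_d4
  have hp2 := Real.pi_lt_d4
  have hn0 : 0 < n := by omega
  have hnR : (0 : ℝ) < n := by exact_mod_cast hn0
  set δ := b n 1 with hδ
  have hδe : δ = Real.pi / n := by
    rw [hδ]
    unfold b
    push_cast
    ring
  have hδ0 : 0 < δ := by rw [hδe]; positivity
  have hnδ : (n : ℝ) * δ = Real.pi := by rw [hδe]; field_simp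
  have hbh : b n h = h * δ := b_eq n h
  set β := b n h with hβ
  set t := Real.pi / 2 - 2 * β with ht
  have ht1 : t ≤ 1708 / 10000 := by linarith
  have hmR : (2 : ℝ) * h ≤ m := by exact_mod_cast hm
  have hnm : (n : ℝ) = 2 * m + 1 := by rw [hn]; push_cast; ring
  have ht0 : δ / 2 ≤ t := by
    rw [ht, hbh]
    nlinarith
  have h3 : 3 ≤ h := by
    by_contra hc
    have : h = 2 := by omega
    subst this
    have h9 : (9 : ℝ) ≤ n := by
      have : 9 ≤ n := by omega
      exact_mod_cast this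
    push_cast at hbh
    nlinarith
  have hβ2 : 2 * β = Real.pi / 2 - t := by rw [ht]; ring
  obtain ⟨hE, hs0, hs1⟩ := EE_le_t hβ2 (by linarith) (by linarith)
  have hE' : EE β ≤ 1 + 7 / 8 * t := by nlinarith
  have hq : n ≤ 4 * (2 * h - 1) := by
    -- b_{2h-1} ≥ π/4
    apply quarter_of_b hn0
    have : b n (2 * h - 1) = 2 * β - δ := by
      rw [b_eq, Nat.cast_sub (by omega), hbh]
      push_cast
      ring
    rw [this]
    have h4 : δ ≤ β / 3 := by
      rw [hbh]
      have : (3 : ℝ) ≤ h := by exact_mod_cast h3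
      nlinarith
    linarith
  have hWm : WH n m (2 * h - 1) = EE (b n (2 * h - 1)) :=
    WH_top_half (by omega) (by omega) (by omega)
  have hbm : b n (2 * h - 1) = 2 * β - δ := by
    rw [b_eq, Nat.cast_sub (by omega), hbh]
    push_cast
    ring
  have hbm2 : Real.pi / 2 - b n (2 * h - 1) = t + δ := by rw [hbm, ht]; ring
  have hEm : EE (b n (2 * h - 1)) ≤ 10 * (t + δ) ^ 4 := by
    rw [← hbm2]
    exact EE_le_four (b_nonneg' _ _) (b_le_half hn (by omega))
  have hsm := sh_minus_le_one hn (by omega : 1 ≤ h) (by omega)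
  have hcm : cm n m h ≤ 10 * (t + δ) ^ 4 := by
    unfold cm
    rw [if_pos h2, hWm]
    have := EE_nonneg (b n (2 * h - 1))
    nlinarith
  have hrec := WH_rec (n := n) (m := m) (g := h) (by omega) (by omega)
  rw [one_sub_phi_EE, ← hβ] at hrec
  have hβ0 : 0 < β := by linarith
  have hhR : (0 : ℝ) < h := by
    have : 0 < h := by omega
    exact_mod_cast this
  -- lower bound for `K / β`
  have hK : 22536 / 10000 + 143 / 100 * t ≤ 177 / 100 / β := by
    rw [le_div_iff₀ hβ0]
    have e : β = (Real.pi / 2 - t) / 2 := by linarith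
    rw [e]
    nlinarith [mul_nonneg (sub_nonneg.2 hp2.le) (by linarith : (0 : ℝ) ≤ t)]
  have hK0 : 0 ≤ 177 / 100 / β := by positivity
  have hw : ww n h = 177 / 100 / β + 177 / 100 / β * (4 / 5 / (h : ℝ) ^ 2) - 6 / 5 := by
    unfold ww
    rw [← hβ]
    ring
  rw [hw, hrec]
  rcases Nat.lt_or_ge (2 * h) m with hlt | hge
  · -- `t ≥ 3/2 δ`
    have ht3 : 3 / 2 * δ ≤ t := by
      have hmR' : (2 : ℝ) * h + 1 ≤ m := by exact_mod_cast hlt
      rw [ht, hbh]
      nlinarith
    have hc0 : c0 n m h ≤ 10 * t ^ 4 := by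
      unfold c0
      rw [WH_top_half (by omega) hlt (by omega)]
      have e : t = Real.pi / 2 - b n (2 * h) := by
        rw [b_eq, ht, hbh]
        push_cast
        ring
      rw [e]
      exact EE_le_four (b_nonneg' _ _) (b_le_half hn (by omega))
    have hcp : cp n m h ≤ 5 * t ^ 4 := by
      unfold cp
      rcases Nat.lt_or_ge (2 * h + 1) m with hlt' | hge'
      · rw [WH_top_half (by omega) hlt' (by omega)]
        have e : Real.pi / 2 - b n (2 * h + 1) = t - δ := by
          rw [b_eq, ht, hbh]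
          push_cast
          ring
        have h5 := EE_le_four (b_nonneg' n (2 * h + 1)) (b_le_half hn (by omega))
        rw [e] at h5
        have h6 : (t - δ) ^ 4 ≤ t ^ 4 := pow_le_pow_left₀ (by linarith) (by linarith) 4
        have h7 := sh_plus_le_half hn (by omega : 2 * h + 1 ≤ m)
        have h8 := EE_nonneg (b n (2 * h + 1))
        nlinarith
      · rw [WH_top hge', mul_zero]
        positivity
    have h9 : (t + δ) ^ 4 ≤ (5 / 3 * t) ^ 4 := pow_le_pow_left₀ (by linarith) (by linarith) 4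
    have h10 : 0 ≤ 177 / 100 / β * (4 / 5 / (h : ℝ) ^ 2) := by positivity
    have ht0' : 0 ≤ t := by linarith
    have h11 : t ^ 3 ≤ (1708 / 10000) ^ 3 := pow_le_pow_left₀ ht0' ht1 3
    have h12 : t ^ 4 ≤ (1708 / 10000) ^ 3 * t := by nlinarith
    have h13 : (5 / 3 * t) ^ 4 = 625 / 81 * t ^ 4 := by ring
    rw [h13] at h9
    norm_num at h12
    linarith
  · -- `2 h = m`
    have hmh : m = 2 * h := by omega
    have hte : t = δ / 2 := by
      rw [ht, hbh]
      have : (m : ℝ) = 2 * h := by rw [hmh]; push_cast; ring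
      nlinarith
    have hc0 : c0 n m h = 0 := by
      unfold c0
      exact WH_top (by omega)
    have hcp : cp n m h = 0 := by
      unfold cp
      rw [WH_top (by omega), mul_zero]
    rw [hc0, hcp]
    have hδ2 : δ ≤ 2417 / 10000 := by
      have h13 : (13 : ℝ) ≤ n := by
        have : 13 ≤ n := by omega
        exact_mod_cast this
      nlinarith
    have hh2 : (290 / 100 : ℝ) * δ ^ 2 ≤ 177 / 100 / β * (4 / 5 / (h : ℝ) ^ 2) := by
      have e1 : (22536 / 10000 : ℝ) ≤ 177 / 100 / β := by linarith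
      have e2 : 129 / 100 * δ ^ 2 ≤ 4 / 5 / (h : ℝ) ^ 2 := by
        rw [le_div_iff₀ (by positivity)]
        have e3 : (h : ℝ) * δ ≤ 7854 / 10000 := by
          rw [← hbh]
          linarith
        have e4 : ((h : ℝ) * δ) ^ 2 ≤ (7854 / 10000) ^ 2 :=
          pow_le_pow_left₀ (by positivity) e3 2
        nlinarith
      have e5 : 22536 / 10000 * (129 / 100 * δ ^ 2) ≤ 177 / 100 / β * (4 / 5 / (h : ℝ) ^ 2) :=
        mul_le_mul e1 e2 (by positivity) hK0
      nlinarith [sq_nonneg δ]
    have h14 : (t + δ) ^ 4 = 81 / 16 * δ ^ 4 := by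
      rw [hte]
      ring
    have h15 : δ ^ 4 ≤ (2417 / 10000) ^ 2 * δ ^ 2 := by
      have : δ ^ 2 ≤ (2417 / 10000) ^ 2 := pow_le_pow_left₀ hδ0.le hδ2 2
      nlinarith [sq_nonneg δ]
    have h16 : δ ^ 2 ≤ (2417 / 10000) ^ 2 := pow_le_pow_left₀ hδ0.le hδ2 2
    rw [h14] at hcm
    norm_num at h15 h16
    rw [hte] at hE' hK
    linarith


/-- the induction step when the three bounds are available -/
private theorem step_sum {n m h : ℕ} (hn : n = 2 * m + 1) (h2 : 2 ≤ h) (hm : 2 * h + 1 ≤ m)
    (w1 w2 w3 e3 : ℝ) (h1 : w1 ≤ ww n (2 * h - 1)) (h2' : w2 ≤ ww n (2 * h))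
    (h3 : w3 ≤ ww n (2 * h + 1) + e3) :
    sh n h (h - 1) * w1 + w2 + sh n h (h + 1) * w3 ≤
      177 / 100 / b n 1 * ff h - 12 / 5 + sh n h (h + 1) * e3 := by
  have hδ0 : 0 < b n 1 := b_pos' (by omega) (by omega)
  have hbp : b n (2 * h + 1) ≤ Real.pi / 2 := b_le_half hn hm
  have hbm : b n (2 * h - 1) ≤ Real.pi / 2 := b_le_half hn (by omega)
  have hsm : 0 < Real.sin (b n (2 * h - 1)) :=
    Real.sin_pos_of_pos_of_lt_pi (b_pos' (by omega) (by omega)) (by linarith [Real.pi_pos])
  have hsp : 0 < Real.sin (b n (2 * h + 1)) :=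
    Real.sin_pos_of_pos_of_lt_pi (b_pos' (by omega) (by omega)) (by linarith [Real.pi_pos])
  have hs1 : 0 ≤ Real.sin (b n 1) := by
    apply Real.sin_nonneg_of_nonneg_of_le_pi hδ0.le
    have := b_le_half (h := 1) hn (by omega)
    linarith [Real.pi_pos]
  have hshm0 : 0 ≤ sh n h (h - 1) := sh_nonneg (by omega) (by omega)
  have hshp0 : 0 ≤ sh n h (h + 1) := sh_nonneg (by omega) (by omega)
  have hem := sh_minus (n := n) (g := h) (by omega) hsm.ne'
  have hep := sh_plus (n := n) (g := h) hsp.ne'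
  have hmono : Real.sin (b n (2 * h - 1)) ≤ Real.sin (b n (2 * h + 1)) := by
    apply Real.sin_le_sin_of_le_of_le_pi_div_two (by linarith [b_nonneg' n (2 * h - 1), Real.pi_pos])
      hbp
    rw [b_eq n (2 * h - 1), b_eq n (2 * h + 1)]
    apply mul_le_mul_of_nonneg_right _ hδ0.le
    have : 2 * h - 1 ≤ 2 * h + 1 := by omega
    exact_mod_cast this
  have hsum : 1 ≤ sh n h (h - 1) + sh n h (h + 1) := by
    rw [hem, hep]
    have : Real.sin (b n 1) / Real.sin (b n (2 * h + 1)) ≤
        Real.sin (b n 1) / Real.sin (b n (2 * h - 1)) :=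
      div_le_div_of_nonneg_left hs1 hsm hmono
    linarith
  have hHr : (2 : ℝ) ≤ h := by exact_mod_cast h2
  have em : ((2 * h - 1 : ℕ) : ℝ) = 2 * (h : ℝ) - 1 := by
    rw [Nat.cast_sub (by omega)]
    push_cast
    ring
  have ep : ((2 * h + 1 : ℕ) : ℝ) = 2 * (h : ℝ) + 1 := by push_cast; ring
  have e0 : ((2 * h : ℕ) : ℝ) = 2 * (h : ℝ) := by push_cast; ring
  have bm : b n (2 * h - 1) = (2 * (h : ℝ) - 1) * b n 1 := by rw [b_eq, em]
  have bp : b n (2 * h + 1) = (2 * (h : ℝ) + 1) * b n 1 := by rw [b_eq, ep]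
  have ht := trig_step hHr hδ0 (by rw [← bp]; exact hbp)
  rw [← bm, ← bp, ← hem, ← hep] at ht
  rw [ww_eq, em] at h1
  rw [ww_eq, e0] at h2'
  rw [ww_eq, ep] at h3
  have hK : 0 ≤ 177 / 100 / b n 1 := by positivity
  have a1 := mul_le_mul_of_nonneg_left h1 hshm0
  have a3 := mul_le_mul_of_nonneg_left h3 hshp0
  have a4 := mul_le_mul_of_nonneg_left ht hK
  nlinarith [a1, a3, a4, hsum, h2']

/-- case B2: `b_h < .7` -/
private theorem case_B2 {n m h : ℕ} (hn : n = 2 * m + 1) (h2 : 2 ≤ h) (hm : 2 * h < m)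
    (hb : b n h < 7 / 10)
    (ih : ∀ j, h < j → j < m → b n j ≤ 147 / 100 → WH n m j ≤ ww n j) :
    WH n m h ≤ ww n h := by
  have hp1 := Real.pi_gt_d4
  have hp2 := Real.pi_lt_d4
  have hn0 : 0 < n := by omega
  have hnR : (0 : ℝ) < n := by exact_mod_cast hn0
  have hδ0 : 0 < b n 1 := b_pos' hn0 (by omega)
  have hbh : b n h = h * b n 1 := b_eq n h
  have hbm : b n (2 * h - 1) = 2 * b n h - b n 1 := by
    rw [b_eq, Nat.cast_sub (by omega), hbh]
    push_cast
    ring
  have hb0 : b n (2 * h) = 2 * b n h := by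
    rw [b_eq, hbh]
    push_cast
    ring
  have hbp : b n (2 * h + 1) = 2 * b n h + b n 1 := by
    rw [b_eq, hbh]
    push_cast
    ring
  have i1 := ih (2 * h - 1) (by omega) (by omega) (by rw [hbm]; linarith)
  have i2 := ih (2 * h) (by omega) hm (by rw [hb0]; linarith)
  have hrec := WH_rec (n := n) (m := m) (g := h) (by omega) (by omega)
  rw [one_sub_phi_EE] at hrec
  have hrec' : WH n m h = EE (b n h) + (sh n h (h - 1) * WH n m (2 * h - 1) + WH n m (2 * h) +
      sh n h (h + 1) * WH n m (2 * h + 1)) := by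
    rw [hrec]
    unfold cm c0 cp
    rw [if_pos h2]
    ring
  have hww : ww n h = 177 / 100 / b n 1 * ff h - 6 / 5 := ww_eq
  have hE := EE_le (b n h)
  rcases le_or_gt (b n (2 * h + 1)) (147 / 100) with hle | hgt
  · have i3 : WH n m (2 * h + 1) ≤ ww n (2 * h + 1) + 0 := by
      rcases Nat.lt_or_ge (2 * h + 1) m with hlt' | hge'
      · rw [add_zero]
        exact ih (2 * h + 1) (by omega) hlt' hle
      · rw [WH_top hge', add_zero]
        unfold ww
        have hpos : 0 < b n (2 * h + 1) := b_pos' hn0 (by omega)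
        have h3 : 177 / 100 / (147 / 100) ≤ 177 / 100 / b n (2 * h + 1) :=
          div_le_div_of_nonneg_left (by norm_num) hpos hle
        have h4 : (12 / 10 : ℝ) ≤ 177 / 100 / (147 / 100) := by norm_num
        have h5 : 0 ≤ 4 / 5 / ((2 * h + 1 : ℕ) : ℝ) ^ 2 := by positivity
        have h6 : 0 ≤ 177 / 100 / b n (2 * h + 1) := by positivity
        nlinarith [mul_nonneg h6 h5]
    have := step_sum hn h2 (by omega) _ _ _ 0 i1 i2 i3
    rw [mul_zero] at this
    rw [hrec', hww]
    linarith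
  · -- `b_{2h+1} > 1.47`
    set β := b n h with hβ
    set δ := b n 1 with hδ
    have hδe : δ * n = Real.pi := by
      rw [hδ]
      unfold b
      push_cast
      field_simp
    have hβe : β * n = Real.pi * h := by
      rw [hβ]
      unfold b
      field_simp
    have h19 : 19 ≤ n := by
      by_contra hc
      have hm8 : m ≤ 8 := by omega
      have hm5 : 5 ≤ m := by omega
      have hh3 : h ≤ 3 := by omega
      have k1 : (147 / 100 : ℝ) * n < Real.pi * (2 * h + 1) := by
        have : (147 / 100 : ℝ) * n < (2 * β + δ) * n := by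
          rw [← hbp]
          exact mul_lt_mul_of_pos_right hgt hnR
        nlinarith
      have k2 : Real.pi * h < 7 / 10 * n := by
        have := mul_lt_mul_of_pos_right hb hnR
        linarith
      have hnm : (n : ℝ) = 2 * m + 1 := by rw [hn]; push_cast; ring
      rw [hnm] at k1 k2
      interval_cases m <;> interval_cases h <;> first | omega | (push_cast at k1 k2; linarith)
    have hδs : δ ≤ 16535 / 100000 := by
      have : (19 : ℝ) ≤ n := by exact_mod_cast h19
      nlinarith
    have hbp2 : b n (2 * h + 1) ≤ Real.pi / 2 := b_le_half hn (by omega)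
    have hβl : 6523 / 10000 ≤ β := by linarith
    have i3 : WH n m (2 * h + 1) ≤ 11 / 10000 := by
      rcases Nat.lt_or_ge (2 * h + 1) m with hlt' | hge'
      · rw [WH_top_half (by omega) hlt']
        · have h5 := EE_le_four (b_nonneg' n (2 * h + 1)) hbp2
          have h6 : (Real.pi / 2 - b n (2 * h + 1)) ^ 4 ≤ (1009 / 10000) ^ 4 :=
            pow_le_pow_left₀ (by linarith) (by linarith) 4
          norm_num at h6
          linarith
        · have := quarter_of_b (n := n) (h := 2 * h + 1) hn0 (by linarith)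
          omega
      · rw [WH_top hge']
        norm_num
    have hx0 : 0 < b n (2 * h + 1) := by linarith
    have i3' : WH n m (2 * h + 1) ≤ ww n (2 * h + 1) +
        (12011 / 10000 - 177 / 100 / b n (2 * h + 1)) := by
      have : 177 / 100 / b n (2 * h + 1) - 6 / 5 ≤ ww n (2 * h + 1) := by
        unfold ww
        have h5 : 0 ≤ 4 / 5 / ((2 * h + 1 : ℕ) : ℝ) ^ 2 := by positivity
        have h6 : 0 ≤ 177 / 100 / b n (2 * h + 1) := by positivity
        nlinarith [mul_nonneg h6 h5]
      linarith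
    have hst := step_sum hn h2 (by omega) _ _ _ _ i1 i2 i3'
    have hsp := sh_plus_le_half hn (by omega : 2 * h + 1 ≤ m)
    have hsp0 : 0 ≤ sh n h (h + 1) := sh_nonneg (by omega) (by omega)
    have hβ2 : 2 * β = Real.pi / 2 - (Real.pi / 2 - 2 * β) := by ring
    obtain ⟨hE1, hs0, hs1⟩ := EE_le_t hβ2 (by linarith) (by linarith)
    set σ := Real.sin (Real.pi / 2 - 2 * β) with hσ
    rw [hrec', hww]
    rcases le_or_gt β (68 / 100) with hb1 | hb1
    · have g1 : 116 / 100 ≤ 177 / 100 / b n (2 * h + 1) := by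
        rw [le_div_iff₀ hx0, hbp]
        linarith
      have g2 : sh n h (h + 1) * (12011 / 10000 - 177 / 100 / b n (2 * h + 1)) ≤ 21 / 1000 := by
        nlinarith
      have g3 : EE β ≤ 1172 / 1000 := by
        have : σ ≤ 2663 / 10000 := by linarith
        nlinarith
      linarith
    · have g1 : 113 / 100 ≤ 177 / 100 / b n (2 * h + 1) := by
        rw [le_div_iff₀ hx0, hbp]
        linarith
      have g2 : sh n h (h + 1) * (12011 / 10000 - 177 / 100 / b n (2 * h + 1)) ≤ 36 / 1000 := by
        nlinarith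
      have g3 : EE β ≤ 1147 / 1000 := by
        have : σ ≤ 2109 / 10000 := by linarith
        nlinarith
      linarith

/-- **The bound for the halving weights.** -/
theorem WH_le {n m : ℕ} (hm4 : 4 ≤ m) (hn : n = 2 * m + 1) {h : ℕ} (h2 : 2 ≤ h) (hm : h < m)
    (hb : b n h ≤ 147 / 100) :
    WH n m h ≤ 177 / 100 / b n h * (1 + 4 / 5 / (h : ℝ) ^ 2) - 6 / 5 := by
  suffices H : ∀ N h : ℕ, m - h ≤ N → 2 ≤ h → h < m → b n h ≤ 147 / 100 → WH n m h ≤ ww n h from
    H (m - h) h le_rfl h2 hm hb
  intro N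
  induction N with
  | zero =>
    intro h hN h2 hm hb
    omega
  | succ N ih =>
    intro h hN h2 hm hb
    rcases Nat.lt_or_ge (2 * h - 1) m with hlt | hge
    · rcases le_or_gt (7 / 10) (b n h) with hb7 | hb7
      · exact case_B1 hm4 hn h2 (by omega) hb7
      · rcases Nat.lt_or_ge (2 * h) m with hlt2 | hge2
        · exact case_B2 hn h2 hlt2 hb7 (fun j hj hjm hjb => ih j (by omega) (by omega) hjm hjb)
        · -- `2 h = m`, so `n = 9`
          have hmh : m = 2 * h := by omega
          have hh2 : h = 2 := by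
            by_contra hc
            have h3 : 3 ≤ h := by omega
            have hnR : (0 : ℝ) < n := by
              have : 0 < n := by omega
              exact_mod_cast this
            have k2 : Real.pi * h < 7 / 10 * n := by
              unfold b at hb7
              rwa [div_lt_iff₀ hnR] at hb7
            have hnm : (n : ℝ) = 4 * h + 1 := by rw [hn, hmh]; push_cast; ring
            rw [hnm] at k2
            have h3R : (3 : ℝ) ≤ h := by exact_mod_cast h3
            nlinarith [Real.pi_gt_d4]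
          subst hh2
          have hm' : m = 4 := by omega
          subst hm'
          have hn' : n = 9 := by omega
          subst hn'
          exact case_nine
    · have hA := WH_le_A hn (by omega) hm hge hb
      have hb0 : 0 < b n h := b_pos' (by omega) (by omega)
      refine hA.trans ?_
      unfold ww
      have h5 : 0 ≤ 4 / 5 / (h : ℝ) ^ 2 := by positivity
      have h6 : 0 ≤ 177 / 100 / b n h := by positivity
      nlinarith [mul_nonneg h6 h5]

end RP38
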