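import Pool.Agent.RP38.DefsH
import Pool.Agent.RP39.Asm
import Pool.Agent.RP39.One
import Pool.Agent.RP39.Top

/-!
# The two load inequalities (module RP38:Loads)

No `x` here, only numbers.  `φ_g = sin² b (-(19/16) cos 2b + (3/16) cos 6b)`, `kap β = (365 tan β + 1330 tan² β)/1000`.
Cases: no arrivals (`m < 2 g`), `g = 1` (RP39:One), `b_{2g+1} ≤ 1.47` (RP39:Main), `b_{2g+1} > 1.47` (RP39:Top).
-/

namespace RP38

open Finset

/-- explicit upper bound of `sup_{x ≤ 1} (M β x - x) / (x - 1 - log x)` for `β ≤ π/4` -/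
noncomputable def kap (β : ℝ) : ℝ := (365 * Real.tan β + 1330 * Real.tan β ^ 2) / 1000

theorem load1 {m n g : ℕ} (hm : 4 ≤ m) (hn : n = 2 * m + 1) (hg : 1 ≤ g) (hgm : g < m) :
    cm n m g * kap (b n (g - 1)) + c0 n m g * kap (b n g) + cp n m g * kap (b n (g + 1))
      + max (-phi n g) 0 ≤ 1 := by
  unfold kap
  rcases Nat.lt_or_ge m (2 * g) with h | h
  · obtain ⟨h1, h2, h3⟩ := load_none (n := n) h
    rw [h1, h2, h3, phi_nonneg_top hn hgm h]
    norm_num
  · rcases (show g = 1 ∨ 2 ≤ g by omega) with h1 | h2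
    · subst h1
      exact load1_one hm hn (wbound hm hn)
    · rcases le_or_gt (b n (2 * g + 1)) (147 / 100) with h3 | h3
      · exact load1_main hm hn h2 h h3 (wbound hm hn)
      · exact load1_top hm hn h2 h h3 (wbound hm hn) (fun _ hh hb => WH_small hn hh hb)

theorem load2 {m n g : ℕ} (hm : 4 ≤ m) (hn : n = 2 * m + 1) (hg : 1 ≤ g) (hgm : g < m) :
    cm n m g * Real.tan (b n (g - 1)) ^ 2 + c0 n m g * Real.tan (b n g) ^ 2
      + cp n m g * Real.tan (b n (g + 1)) ^ 2 + max (-phi n g) 0 / Real.sin (b n g) ≤ 1 := by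
  rcases Nat.lt_or_ge m (2 * g) with h | h
  · obtain ⟨h1, h2, h3⟩ := load_none (n := n) h
    rw [h1, h2, h3, phi_nonneg_top hn hgm h]
    norm_num
  · rcases (show g = 1 ∨ 2 ≤ g by omega) with h1 | h2
    · subst h1
      exact load2_one hm hn (wbound hm hn)
    · rcases le_or_gt (b n (2 * g + 1)) (147 / 100) with h3 | h3
      · exact load2_main hm hn h2 h h3 (wbound hm hn)
      · exact load2_top hm hn h2 h h3 (wbound hm hn) (fun _ hh hb => WH_small hn hh hb)

end RP38
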