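import Pool.Agent.RP38.Defs

/-!
# The function `M` (module RP38:MFun)

Proof of `le_M`.  `0 < β < π/2`, `x > 0`, `0 ≤ v ≤ π/2`.  Multiply by `cos β`: need `x cos v + sin β v ≤ cos β * M + sin β * β`.
If `x ≤ sin β`: `cos v = sin (π/2 - v) ≤ π/2 - v`, so `x cos v ≤ sin β (π/2 - v)`.
If `x > sin β`: `v₀ = arcsin (sin β / x)`, `x sin v₀ = sin β`, `x cos v₀ = √(x² - sin² β)`, and
`cos v ≤ cos v₀ - sin v₀ (v - v₀)` on `[0, π/2]` (concavity of `cos` on `[-π/2, π/2]`).
`cos_add_cos_le`: `cos s + cos t = 2 cos ((s+t)/2) cos ((s-t)/2) ≤ 2 cos ((s+t)/2)`.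
-/

namespace RP38

private theorem mul_cos_le_sin {d : ℝ} (h0 : 0 ≤ d) (h1 : d ≤ Real.pi / 2) :
    d * Real.cos d ≤ Real.sin d := by
  rcases h1.eq_or_lt with h | h
  · rw [h, Real.cos_pi_div_two, Real.sin_pi_div_two]; norm_num
  · have hc := Real.cos_pos_of_mem_Ioo ⟨by linarith, h⟩
    have := Real.le_tan h0 h
    rw [Real.tan_eq_sin_div_cos, le_div_iff₀ hc] at this
    exact this

/-- tangent line of `cos` on `[0, π/2]` -/
private theorem cos_le_tangent {v w : ℝ} (hv0 : 0 ≤ v) (hv : v ≤ Real.pi / 2) (hw0 : 0 ≤ w)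
    (hw : w ≤ Real.pi / 2) : Real.cos v ≤ Real.cos w - Real.sin w * (v - w) := by
  have hsw : 0 ≤ Real.sin w := Real.sin_nonneg_of_nonneg_of_le_pi hw0 (by linarith [Real.pi_pos])
  have hcw : 0 ≤ Real.cos w :=
    Real.cos_nonneg_of_neg_pi_div_two_le_of_le (by linarith [Real.pi_pos]) hw
  have e : Real.cos v = Real.cos w * Real.cos (v - w) - Real.sin w * Real.sin (v - w) := by
    rw [← Real.cos_add]; congr 1; ring
  have h1 : 0 ≤ 1 - Real.cos (v - w) := by linarith [Real.cos_le_one (v - w)]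
  rcases le_total v w with h | h
  · -- `d ≤ 0`
    have h2 : v - w ≤ Real.sin (v - w) := by
      have := Real.sin_le (show 0 ≤ w - v by linarith)
      have e2 : Real.sin (v - w) = - Real.sin (w - v) := by rw [← Real.sin_neg]; congr 1; ring
      rw [e2]; linarith
    rw [e]
    nlinarith [mul_nonneg hcw h1, mul_nonneg hsw (sub_nonneg.2 h2)]
  · set d := v - w with hd
    have hd0 : 0 ≤ d := by rw [hd]; linarith
    have hd1 : d ≤ Real.pi / 2 := by rw [hd]; linarith
    have a1 : Real.sin w ≤ Real.cos d := by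
      rw [← Real.sin_pi_div_two_sub]
      apply Real.sin_le_sin_of_le_of_le_pi_div_two <;> linarith
    have a2 : Real.sin d ≤ Real.cos w := by
      rw [← Real.sin_pi_div_two_sub]
      apply Real.sin_le_sin_of_le_of_le_pi_div_two <;> linarith
    have a3 : Real.sin d ≤ d := Real.sin_le hd0
    have a4 := mul_cos_le_sin hd0 hd1
    have a5 : Real.sin w * (d - Real.sin d) ≤ Real.cos d * (d - Real.sin d) :=
      mul_le_mul_of_nonneg_right a1 (by linarith)
    have a6 : Real.sin d * (1 - Real.cos d) ≤ Real.cos w * (1 - Real.cos d) :=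
      mul_le_mul_of_nonneg_right a2 h1
    rw [e]
    nlinarith

theorem le_M {β x v : ℝ} (hβ0 : 0 < β) (hβ : β < Real.pi / 2) (hx : 0 < x) (hv0 : 0 ≤ v)
    (hv : v ≤ Real.pi / 2) :
    x * Real.cos v / Real.cos β + Real.tan β * (v - β) ≤ M β x := by
  have hcβ := Real.cos_pos_of_mem_Ioo ⟨by linarith, hβ⟩
  have hsβ : 0 < Real.sin β := Real.sin_pos_of_pos_of_lt_pi hβ0 (by linarith [Real.pi_pos])
  unfold M
  split
  · rename_i h
    have h1 : Real.cos v ≤ Real.pi / 2 - v := by
      rw [← Real.sin_pi_div_two_sub]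
      exact Real.sin_le (by linarith)
    have hcv : 0 ≤ Real.cos v :=
      Real.cos_nonneg_of_neg_pi_div_two_le_of_le (by linarith [Real.pi_pos]) hv
    have h2 : x * Real.cos v / Real.cos β ≤ Real.tan β * (Real.pi / 2 - v) := by
      rw [Real.tan_eq_sin_div_cos, div_mul_eq_mul_div]
      apply div_le_div_of_nonneg_right _ hcβ.le
      exact mul_le_mul h h1 hcv hsβ.le
    have : Real.tan β * (Real.pi / 2 - β)
        = Real.tan β * (Real.pi / 2 - v) + Real.tan β * (v - β) := by ring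
    linarith
  · rename_i h
    push Not at h
    set w := Real.arcsin (Real.sin β / x) with hw
    have hq0 : 0 < Real.sin β / x := div_pos hsβ hx
    have hq1 : Real.sin β / x ≤ 1 := (div_le_one hx).2 h.le
    have hw0 : 0 ≤ w := Real.arcsin_nonneg.2 hq0.le
    have hw1 : w ≤ Real.pi / 2 := Real.arcsin_le_pi_div_two _
    have hsw : Real.sin w = Real.sin β / x := Real.sin_arcsin (by linarith) hq1
    have hcw : x * Real.cos w = Real.sqrt (x ^ 2 - Real.sin β ^ 2) := by
      rw [hw, Real.cos_arcsin]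
      have : x ^ 2 - Real.sin β ^ 2 = x ^ 2 * (1 - (Real.sin β / x) ^ 2) := by
        field_simp
      rw [this, Real.sqrt_mul (by positivity), Real.sqrt_sq hx.le]
    have ht := cos_le_tangent hv0 hv hw0 hw1
    have h2 : x * Real.cos v ≤ Real.sqrt (x ^ 2 - Real.sin β ^ 2) - Real.sin β * (v - w) := by
      have := mul_le_mul_of_nonneg_left ht hx.le
      have e : x * (Real.cos w - Real.sin w * (v - w))
          = x * Real.cos w - (x * Real.sin w) * (v - w) := by ring
      rw [e, hcw, hsw, mul_div_cancel₀ _ hx.ne'] at this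
      exact this
    have h3 : x * Real.cos v / Real.cos β
        ≤ (Real.sqrt (x ^ 2 - Real.sin β ^ 2) - Real.sin β * (v - w)) / Real.cos β :=
      div_le_div_of_nonneg_right h2 hcβ.le
    have h4 : (Real.sqrt (x ^ 2 - Real.sin β ^ 2) - Real.sin β * (v - w)) / Real.cos β
        = Real.sqrt (x ^ 2 - Real.sin β ^ 2) / Real.cos β - Real.tan β * (v - w) := by
      rw [Real.tan_eq_sin_div_cos]; ring
    rw [h4] at h3
    linarith

theorem cos_add_cos_le {s t : ℝ} (hs : 0 ≤ s) (ht : 0 ≤ t) (hst : s + t ≤ Real.pi) :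
    Real.cos s + Real.cos t ≤ 2 * Real.cos ((s + t) / 2) := by
  rw [Real.cos_add_cos]
  have h1 : 0 ≤ Real.cos ((s + t) / 2) :=
    Real.cos_nonneg_of_neg_pi_div_two_le_of_le (by linarith [Real.pi_pos]) (by linarith)
  have h2 := Real.cos_le_one ((s - t) / 2)
  nlinarith

theorem M_one {β : ℝ} (hβ0 : 0 < β) (hβ : β < Real.pi / 2) : M β 1 = 1 := by
  have hcβ := Real.cos_pos_of_mem_Ioo ⟨by linarith, hβ⟩
  unfold M
  have hs1 : Real.sin β < 1 := by
    have := Real.sin_lt_sin_of_lt_of_le_pi_div_two (show -(Real.pi / 2) ≤ β by linarith) le_rfl hβ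
    rwa [Real.sin_pi_div_two] at this
  rw [if_neg (not_le.2 hs1), div_one, Real.arcsin_sin (by linarith) hβ.le]
  have : (1 : ℝ) ^ 2 - Real.sin β ^ 2 = Real.cos β ^ 2 := by
    have := Real.sin_sq_add_cos_sq β
    linarith
  rw [this, Real.sqrt_sq hcβ.le, div_self hcβ.ne']
  ring

end RP38
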