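import Pool.Agent.RP38.Loads
import Pool.Agent.RP38.MFun

/-!
# Bounds of the function `M` by `x - 1 - log x` (module RP38:MBound, helper68)

`M_sub_le_of_le_one` (Lemma A): `0 < β < π/2`, `κ > 0`, `(π/2 - β) tan β ≤ κ log (1 + 1/κ)` and `0 < x ≤ 1` give
`M β x - x ≤ κ (x - 1 - log x)`.
Proof.  `M β x = x cos v / cos β + tan β (v - β)` with some `v ∈ [β, π/2]`.  `dual`: for these `v`,
`tan β (v - β) ≤ κ log (1 + (1 - cos v / cos β) / κ)`, because the derivative of the difference has the sign of the concave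
function `sin v - sin β + sin β (cos v - cos β) / (κ cos β)`, which vanishes at `v = β`; so the difference first increases
and then decreases, and it is `≥ 0` at both ends.  Then `y - 1 - log y ≥ 0` for `y = x (1 + (1 - cos v / cos β) / κ)`.

`M_sub_le_of_one_le` (Lemma B): `x ≥ 1` gives `M β x - x ≤ tan² β (x-1)²/(2x) ≤ tan² β (x - 1 - log x)`.
-/

namespace RP38

open Real

/-- the sign function of the derivative -/
private lemma sign_aux {β a : ℝ} (hβ0 : 0 < β) (hβ : β < π / 2) (ha : 0 ≤ a) {v w : ℝ} (hv : β ≤ v)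
    (hvw : v ≤ w) (hw : w ≤ π / 2) (h : 0 ≤ sin w - sin β + a * (cos w - cos β)) :
    0 ≤ sin v - sin β + a * (cos v - cos β) := by
  rcases eq_or_lt_of_le hv with rfl | hv'
  · simp
  have hβw : β < w := lt_of_lt_of_le hv' hvw
  have hd : 0 < w - β := by linarith
  set p : ℝ := (w - v) / (w - β) with hp
  set q : ℝ := (v - β) / (w - β) with hq
  have hp0 : 0 ≤ p := div_nonneg (by linarith) hd.le
  have hq0 : 0 ≤ q := div_nonneg (by linarith) hd.le
  have hpq : p + q = 1 := by rw [hp, hq, ← add_div]; rw [div_eq_one_iff_eq hd.ne']; ring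
  have hcomb : p * β + q * w = v := by
    rw [hp, hq]; field_simp; ring
  have h1 := strictConcaveOn_sin_Icc.concaveOn.2 (x := β) (y := w) ⟨hβ0.le, by linarith [pi_pos]⟩
    ⟨by linarith, by linarith [pi_pos]⟩ hp0 hq0 hpq
  have h2 := strictConcaveOn_cos_Icc.concaveOn.2 (x := β) (y := w)
    ⟨by linarith [pi_pos], by linarith⟩ ⟨by linarith [pi_pos], by linarith⟩ hp0 hq0 hpq
  simp only [smul_eq_mul] at h1 h2
  rw [hcomb] at h1 h2
  have h3 : p * cos β + q * cos w ≤ cos v := h2
  have h4 := mul_le_mul_of_nonneg_left h3 ha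
  have h5 := mul_nonneg hq0 h
  have hp' : p = 1 - q := by linarith
  rw [hp'] at h1 h4
  nlinarith [h1, h4, h5]

/-- the dual inequality -/
theorem dual {β κ : ℝ} (hβ0 : 0 < β) (hβ : β < π / 2) (hκ : 0 < κ)
    (hk : (π / 2 - β) * tan β ≤ κ * log (1 + 1 / κ)) {v : ℝ} (hv : β ≤ v) (hv1 : v ≤ π / 2) :
    tan β * (v - β) ≤ κ * log (1 + (1 - cos v / cos β) / κ) := by
  have hc : 0 < cos β := cos_pos_of_mem_Ioo ⟨by linarith, hβ⟩
  have hs : 0 < sin β := sin_pos_of_pos_of_lt_pi hβ0 (by linarith [pi_pos])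
  have hratio : ∀ w, β ≤ w → w ≤ π / 2 → cos w / cos β ≤ 1 := by
    intro w hw hw1
    rw [div_le_one hc]
    exact cos_le_cos_of_nonneg_of_le_pi hβ0.le (by linarith [pi_pos]) hw
  set H : ℝ → ℝ := fun w => κ * log (1 + (1 - cos w / cos β) / κ) - tan β * (w - β) with hH
  have hpos : ∀ w, β ≤ w → w ≤ π / 2 → 0 < 1 + (1 - cos w / cos β) / κ := by
    intro w hw hw1
    have := hratio w hw hw1
    have : 0 ≤ (1 - cos w / cos β) / κ := div_nonneg (by linarith) hκ.le
    linarith
  have hder : ∀ w, β ≤ w → w ≤ π / 2 → HasDerivAt H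
      (κ * ((sin w / cos β / κ) / (1 + (1 - cos w / cos β) / κ)) - tan β) w := by
    intro w hw hw1
    have h1 : HasDerivAt (fun w : ℝ => 1 + (1 - cos w / cos β) / κ) (sin w / cos β / κ) w := by
      have := (((hasDerivAt_cos w).div_const (cos β)).const_sub 1).div_const κ |>.const_add 1
      simpa [neg_div] using this
    have h2 := (h1.log (hpos w hw hw1).ne').const_mul κ
    have h3 : HasDerivAt (fun w : ℝ => tan β * (w - β)) (tan β) w := by
      have := ((hasDerivAt_id w).sub_const β).const_mul (tan β)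
      simpa using this
    exact h2.sub h3
  have hsign : ∀ w, β ≤ w → w ≤ π / 2 →
      κ * ((sin w / cos β / κ) / (1 + (1 - cos w / cos β) / κ)) - tan β
        = (sin w - sin β + sin β / (κ * cos β) * (cos w - cos β)) /
          (cos β * (1 + (1 - cos w / cos β) / κ)) := by
    intro w hw hw1
    have hp := hpos w hw hw1
    have e1 : κ * ((sin w / cos β / κ) / (1 + (1 - cos w / cos β) / κ))
        = sin w / (cos β * (1 + (1 - cos w / cos β) / κ)) := by
      field_simp
    rw [e1, tan_eq_sin_div_cos]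
    have e2 : sin β / cos β = (sin β * (1 + (1 - cos w / cos β) / κ)) /
        (cos β * (1 + (1 - cos w / cos β) / κ)) := (mul_div_mul_right _ _ hp.ne').symm
    rw [e2, ← sub_div]
    congr 1
    field_simp
    ring
  have hH0 : H β = 0 := by
    simp only [hH]
    rw [div_self hc.ne']
    simp
  have hH1 : 0 ≤ H (π / 2) := by
    simp only [hH]
    rw [cos_pi_div_two]
    simp only [zero_div, sub_zero]
    have : tan β * (π / 2 - β) = (π / 2 - β) * tan β := by ring
    rw [this]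
    linarith
  have hcont : ∀ p q, β ≤ p → q ≤ π / 2 → ContinuousOn H (Set.Icc p q) := by
    intro p q hp hq w hw
    exact (hder w (le_trans hp hw.1) (le_trans hw.2 hq)).continuousAt.continuousWithinAt
  have key : 0 ≤ H v := by
    have ha : 0 ≤ sin β / (κ * cos β) := by positivity
    by_cases hsg : 0 ≤ sin v - sin β + sin β / (κ * cos β) * (cos v - cos β)
    · have hmono : MonotoneOn H (Set.Icc β v) := by
        apply monotoneOn_of_deriv_nonneg (convex_Icc β v) (hcont β v le_rfl hv1)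
        · intro w hw
          rw [interior_Icc] at hw
          exact (hder w hw.1.le (le_trans hw.2.le hv1)).differentiableAt.differentiableWithinAt
        · intro w hw
          rw [interior_Icc] at hw
          have hw1 : w ≤ π / 2 := le_trans hw.2.le hv1
          rw [(hder w hw.1.le hw1).deriv, hsign w hw.1.le hw1]
          apply div_nonneg
          · exact sign_aux hβ0 hβ ha hw.1.le hw.2.le hv1 hsg
          · exact mul_nonneg hc.le (hpos w hw.1.le hw1).le
      have := hmono ⟨le_rfl, hv⟩ ⟨hv, le_rfl⟩ hv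
      rw [hH0] at this
      exact this
    · push Not at hsg
      have hanti : AntitoneOn H (Set.Icc v (π / 2)) := by
        apply antitoneOn_of_deriv_nonpos (convex_Icc v (π / 2)) (hcont v (π / 2) hv le_rfl)
        · intro w hw
          rw [interior_Icc] at hw
          exact (hder w (le_trans hv hw.1.le) hw.2.le).differentiableAt.differentiableWithinAt
        · intro w hw
          rw [interior_Icc] at hw
          have hw0 : β ≤ w := le_trans hv hw.1.le
          rw [(hder w hw0 hw.2.le).deriv, hsign w hw0 hw.2.le]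
          apply div_nonpos_of_nonpos_of_nonneg
          · by_contra hcon
            push Not at hcon
            have := sign_aux hβ0 hβ ha hv hw.1.le hw.2.le hcon.le
            linarith
          · exact mul_nonneg hc.le (hpos w hw0 hw.2.le).le
      have := hanti ⟨le_rfl, hv1⟩ ⟨hv1, le_rfl⟩ hv1
      linarith
  simp only [hH] at key
  linarith

/-- value of `M` as a value of the linear functions -/
theorem exists_eq_M {β x : ℝ} (hβ0 : 0 < β) (hβ : β < π / 2) (hx : 0 < x) :
    ∃ v, 0 ≤ v ∧ v ≤ π / 2 ∧ (x ≤ 1 → β ≤ v) ∧ (1 ≤ x → v ≤ β ∧ sin v = sin β / x) ∧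
      M β x = x * cos v / cos β + tan β * (v - β) := by
  have hc : 0 < cos β := cos_pos_of_mem_Ioo ⟨by linarith, hβ⟩
  have hs : 0 < sin β := sin_pos_of_pos_of_lt_pi hβ0 (by linarith [pi_pos])
  have hs1 : sin β < 1 := by
    have h1 := sin_lt_sin_of_lt_of_le_pi_div_two (x := β) (y := π / 2) (by linarith) le_rfl hβ
    rwa [sin_pi_div_two] at h1
  unfold M
  by_cases h : x ≤ sin β
  · refine ⟨π / 2, by positivity, le_rfl, fun _ => hβ.le, fun h1 => absurd (le_trans h1 h) (by linarith), ?_⟩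
    rw [if_pos h, cos_pi_div_two]
    simp
  · push Not at h
    have hq0 : 0 < sin β / x := by positivity
    have hq1 : sin β / x ≤ 1 := by rw [div_le_one hx]; exact h.le
    refine ⟨arcsin (sin β / x), arcsin_nonneg.2 hq0.le, arcsin_le_pi_div_two _, ?_, ?_, ?_⟩
    · intro hx1
      have h1 : sin β ≤ sin β / x := by rw [le_div_iff₀ hx]; nlinarith
      calc β = arcsin (sin β) := (arcsin_sin (by linarith) (by linarith)).symm
        _ ≤ _ := monotone_arcsin h1
    · intro hx1
      refine ⟨?_, sin_arcsin (by linarith) hq1⟩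
      have h1 : sin β / x ≤ sin β := by rw [div_le_iff₀ hx]; nlinarith
      calc arcsin (sin β / x) ≤ arcsin (sin β) := monotone_arcsin h1
        _ = β := arcsin_sin (by linarith) (by linarith)
    · rw [if_neg (not_le.2 h), cos_arcsin]
      congr 1
      congr 1
      have h1 : x ^ 2 - sin β ^ 2 = x ^ 2 * (1 - (sin β / x) ^ 2) := by field_simp
      rw [h1, sqrt_mul (by positivity), sqrt_sq hx.le]

/-- Lemma A -/
theorem M_sub_le_of_le_one {β κ x : ℝ} (hβ0 : 0 < β) (hβ : β < π / 2) (hκ : 0 < κ)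
    (hk : (π / 2 - β) * tan β ≤ κ * log (1 + 1 / κ)) (hx : 0 < x) (hx1 : x ≤ 1) :
    M β x - x ≤ κ * (x - 1 - log x) := by
  have hc : 0 < cos β := cos_pos_of_mem_Ioo ⟨by linarith, hβ⟩
  obtain ⟨v, hv0, hv1, hv2, -, hM⟩ := exists_eq_M hβ0 hβ hx
  have hv := hv2 hx1
  have hd := dual hβ0 hβ hκ hk hv hv1
  have hr : cos v / cos β ≤ 1 := by
    rw [div_le_one hc]
    exact cos_le_cos_of_nonneg_of_le_pi hβ0.le (by linarith [pi_pos]) hv
  set μ : ℝ := 1 - cos v / cos β with hμ
  have hμ0 : 0 ≤ μ := by linarith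
  have hy : 0 < 1 + μ / κ := by positivity
  have h1 := log_le_sub_one_of_pos (mul_pos hx hy)
  rw [log_mul hx.ne' hy.ne'] at h1
  have h2 := mul_le_mul_of_nonneg_left h1 hκ.le
  have h3 : κ * (x * (1 + μ / κ) - 1) = κ * x + μ * x - κ := by field_simp
  have h4 : x * cos v / cos β = x * (1 - μ) := by rw [hμ]; ring
  rw [hM, h4]
  rw [h3] at h2
  nlinarith [h2, hd]

/-- the function `(π/2 - β) tan β` is monotone -/
theorem plateau_mono {β₁ β₂ : ℝ} (h1 : 0 < β₁) (h12 : β₁ ≤ β₂) (h2 : β₂ < π / 2) :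
    (π / 2 - β₁) * tan β₁ ≤ (π / 2 - β₂) * tan β₂ := by
  -- with `a = π/2 - β`: `a cot a` is decreasing, i.e. `tan a / a` is increasing
  have ha2 : 0 < π / 2 - β₂ := by linarith
  have ha1 : 0 < π / 2 - β₁ := by linarith
  have hc1 : 0 < cos β₁ := cos_pos_of_mem_Ioo ⟨by linarith, by linarith⟩
  have hc2 : 0 < cos β₂ := cos_pos_of_mem_Ioo ⟨by linarith, h2⟩
  rcases eq_or_lt_of_le h12 with rfl | h12'
  · exact le_rfl
  set F : ℝ → ℝ := fun y => (π / 2 - y) * tan y with hF
  have hder : ∀ y, 0 < y → y < π / 2 → HasDerivAt F (-1 * tan y + (π / 2 - y) * (1 / cos y ^ 2)) y := by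
    intro y hy0 hy1
    have hcy : cos y ≠ 0 := (cos_pos_of_mem_Ioo ⟨by linarith, hy1⟩).ne'
    have e1 : HasDerivAt (fun y : ℝ => π / 2 - y) (-1) y := by
      simpa using (hasDerivAt_id y).const_sub (π / 2)
    exact e1.mul (hasDerivAt_tan hcy)
  have hmono : MonotoneOn F (Set.Icc β₁ β₂) := by
    apply monotoneOn_of_deriv_nonneg (convex_Icc β₁ β₂)
    · intro y hy
      exact (hder y (by linarith [hy.1]) (by linarith [hy.2])).continuousAt.continuousWithinAt
    · intro y hy
      rw [interior_Icc] at hy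
      exact (hder y (by linarith [hy.1]) (by linarith [hy.2])).differentiableAt.differentiableWithinAt
    · intro y hy
      rw [interior_Icc] at hy
      have hy0 : 0 < y := by linarith [hy.1]
      have hy1 : y < π / 2 := by linarith [hy.2]
      rw [(hder y hy0 hy1).deriv]
      have hcy : 0 < cos y := cos_pos_of_mem_Ioo ⟨by linarith, hy1⟩
      have hcy1 : cos y ≤ 1 := cos_le_one y
      have hsy : 0 < sin y := sin_pos_of_pos_of_lt_pi hy0 (by linarith [pi_pos])
      have h1 : cos y ≤ π / 2 - y := by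
        have := sin_le (x := π / 2 - y) (by linarith)
        rwa [sin_pi_div_two_sub] at this
      have h2 : sin y * cos y ≤ π / 2 - y := by
        have hsy1 : sin y ≤ 1 := sin_le_one y
        nlinarith
      rw [tan_eq_sin_div_cos]
      have h3 : -1 * (sin y / cos y) + (π / 2 - y) * (1 / cos y ^ 2)
          = ((π / 2 - y) - sin y * cos y) / cos y ^ 2 := by
        field_simp
        ring
      rw [h3]
      apply div_nonneg (by linarith) (by positivity)
  exact hmono ⟨le_rfl, h12⟩ ⟨h12, le_rfl⟩ h12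

/-- Lemma A with a table value: `κ` is good for `β₀` and `β ≤ β₀` -/
theorem M_sub_le_of_le {β β₀ κ x : ℝ} (hβ0 : 0 < β) (hβ : β ≤ β₀) (hβ₀ : β₀ < π / 2) (hκ : 0 < κ)
    (hk : (π / 2 - β₀) * tan β₀ ≤ κ * log (1 + 1 / κ)) (hx : 0 < x) (hx1 : x ≤ 1) :
    M β x - x ≤ κ * (x - 1 - log x) :=
  M_sub_le_of_le_one hβ0 (lt_of_le_of_lt hβ hβ₀) hκ (le_trans (plateau_mono hβ0 hβ hβ₀) hk) hx hx1

/-- `log x ≤ (x - 1/x)/2` for `x ≥ 1` -/
theorem log_le_of_one_le {x : ℝ} (hx : 1 ≤ x) : log x ≤ (x - 1 / x) / 2 := by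
  have h0 : 0 < x := by linarith
  have h1 : 0 ≤ log x := log_nonneg hx
  have h2 := self_le_sinh_iff.2 h1
  rw [sinh_log h0] at h2
  rw [one_div]
  exact h2

theorem sq_div_le_of_one_le {x : ℝ} (hx : 1 ≤ x) : (x - 1) ^ 2 / (2 * x) ≤ x - 1 - log x := by
  have h0 : 0 < x := by linarith
  have h := log_le_of_one_le hx
  have e : (x - 1) ^ 2 / (2 * x) = x - 1 - (x - 1 / x) / 2 := by field_simp; ring
  rw [e]; linarith

theorem sq_le_of_one_le {x : ℝ} (hx : 1 ≤ x) : (x - 1) ^ 2 / 2 ≤ x * (x - 1 - log x) := by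
  have h0 : 0 < x := by linarith
  have h := mul_le_mul_of_nonneg_left (sq_div_le_of_one_le hx) h0.le
  have e : x * ((x - 1) ^ 2 / (2 * x)) = (x - 1) ^ 2 / 2 := by field_simp
  rw [e] at h; exact h

theorem sq_le_of_le_one {x : ℝ} (hx : 0 < x) (hx1 : x ≤ 1) : (x - 1) ^ 2 / 2 ≤ x - 1 - log x := by
  have hy : |1 - x| < 1 := by rw [abs_lt]; constructor <;> linarith
  have h := hasSum_pow_div_log_of_abs_lt_one hy
  have h2 := sum_le_hasSum (Finset.range 2) (fun i _ => by
    have : 0 ≤ 1 - x := by linarith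
    positivity) h
  simp only [Finset.sum_range_succ, Finset.sum_range_zero] at h2
  have e : (1 : ℝ) - (1 - x) = x := by ring
  rw [e] at h2
  norm_num at h2
  nlinarith [h2]

/-- Lemma B, sharper form -/
theorem M_sub_le_aux {β x : ℝ} (hβ0 : 0 < β) (hβ : β < π / 2) (hx : 1 ≤ x) :
    M β x - x ≤ tan β ^ 2 * ((x - 1) ^ 2 / (2 * x)) := by
  have h0 : 0 < x := by linarith
  have hc : 0 < cos β := cos_pos_of_mem_Ioo ⟨by linarith, hβ⟩
  have hs : 0 < sin β := sin_pos_of_pos_of_lt_pi hβ0 (by linarith [pi_pos])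
  obtain ⟨v, hv0, hv1, -, hv3, hM⟩ := exists_eq_M hβ0 hβ h0
  obtain ⟨hvβ, hsv⟩ := hv3 hx
  have hδ : sin (β - v) ≤ β - v := sin_le (by linarith)
  rw [sin_sub] at hδ
  have hcv : 0 ≤ cos v := cos_nonneg_of_mem_Icc ⟨by linarith, hv1⟩
  set r : ℝ := x * cos v with hr
  have hr0 : 0 ≤ r := mul_nonneg h0.le hcv
  have hsx : x * sin v = sin β := by rw [hsv]; field_simp
  have hr2 : r ^ 2 = x ^ 2 - sin β ^ 2 := by
    have := sin_sq_add_cos_sq v
    rw [← hsx, hr]
    have h1 : cos v ^ 2 = 1 - sin v ^ 2 := by linarith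
    rw [mul_pow, mul_pow, h1]; ring
  set s : ℝ := sin β with hsdef
  set c : ℝ := cos β with hcdef
  have hsc : s ^ 2 + c ^ 2 = 1 := sin_sq_add_cos_sq β
  have hx2 : 0 < x - s ^ 2 := by nlinarith [mul_pos hc hc]
  have hc2 : c ^ 2 = 1 - s ^ 2 := by linarith
  set Q : ℝ := c ^ 2 * x ^ 2 - c ^ 2 * s ^ 2 + s ^ 2 * (x - 1) ^ 2 / 2 with hQ
  have hQ0 : 0 ≤ Q := by
    have h1 : 0 ≤ c ^ 2 * (x ^ 2 - s ^ 2) := mul_nonneg (sq_nonneg c) (by rw [← hr2]; positivity)
    have h2 : 0 ≤ s ^ 2 * (x - 1) ^ 2 / 2 := by positivity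
    nlinarith
  have hid : (c * r * (x - s ^ 2)) ^ 2 + (s ^ 2 * (x - 1) ^ 2 / 2) ^ 2 = Q ^ 2 := by
    have e1 : (c * r * (x - s ^ 2)) ^ 2 = c ^ 2 * r ^ 2 * (x - s ^ 2) ^ 2 := by ring
    rw [e1, hQ, hr2, hc2]
    ring
  have hle : c * r * (x - s ^ 2) ≤ Q := by
    have h1 : (c * r * (x - s ^ 2)) ^ 2 ≤ Q ^ 2 := by
      have := sq_nonneg (s ^ 2 * (x - 1) ^ 2 / 2)
      linarith
    exact (abs_le_of_sq_le_sq' h1 hQ0).2
  have hcosv : cos v = r / x := by rw [hr]; field_simp
  have hMle : M β x - x ≤ r / c - s / c * (s * (r / x) - c * (s / x)) - x := by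
    rw [hM, tan_eq_sin_div_cos]
    have h1 : s / c * (s * cos v - c * sin v) ≤ s / c * (β - v) :=
      mul_le_mul_of_nonneg_left hδ (by positivity)
    rw [hcosv, hsv] at h1
    have h2 : s / c * (v - β) = -(s / c * (β - v)) := by ring
    rw [h2]
    linarith
  refine le_trans hMle ?_
  rw [tan_eq_sin_div_cos]
  have e2 : r / c - s / c * (s * (r / x) - c * (s / x)) - x
      = (c * r * (x - s ^ 2) + c ^ 2 * s ^ 2 - c ^ 2 * x ^ 2) / (c ^ 2 * x) := by
    field_simp
    ring
  have e3 : (s / c) ^ 2 * ((x - 1) ^ 2 / (2 * x)) = (s ^ 2 * (x - 1) ^ 2 / 2) / (c ^ 2 * x) := by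
    field_simp
  rw [e2, e3]
  apply div_le_div_of_nonneg_right _ (by positivity)
  rw [hQ] at hle
  linarith

/-- Lemma B -/
theorem M_sub_le_of_one_le {β x : ℝ} (hβ0 : 0 < β) (hβ : β < π / 2) (hx : 1 ≤ x) :
    M β x - x ≤ tan β ^ 2 * (x - 1 - log x) :=
  le_trans (M_sub_le_aux hβ0 hβ hx)
    (mul_le_mul_of_nonneg_left (sq_div_le_of_one_le hx) (sq_nonneg _))

/-! ### the explicit `κ` -/

private lemma arctan_ge {t : ℝ} (ht : 0 ≤ t) :
    (105 * t + 55 * t ^ 3) / (105 + 90 * t ^ 2 + 9 * t ^ 4) ≤ arctan t := by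
  set F : ℝ → ℝ := fun y => arctan y - (105 * y + 55 * y ^ 3) / (105 + 90 * y ^ 2 + 9 * y ^ 4) with hF
  have hder : ∀ y : ℝ, HasDerivAt F
      (576 * y ^ 8 / ((1 + y ^ 2) * (105 + 90 * y ^ 2 + 9 * y ^ 4) ^ 2)) y := by
    intro y
    have hD : 0 < 105 + 90 * y ^ 2 + 9 * y ^ 4 := by positivity
    have h1 := hasDerivAt_arctan y
    have h2 : HasDerivAt (fun y : ℝ => 105 * y + 55 * y ^ 3) (105 + 165 * y ^ 2) y := by
      have h := ((hasDerivAt_id y).const_mul (105 : ℝ)).add ((hasDerivAt_pow 3 y).const_mul (55 : ℝ))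
      exact HasDerivAt.congr_deriv h (by norm_num; ring)
    have h3 : HasDerivAt (fun y : ℝ => 105 + 90 * y ^ 2 + 9 * y ^ 4) (180 * y + 36 * y ^ 3) y := by
      have h := (((hasDerivAt_pow 2 y).const_mul (90 : ℝ)).const_add (105 : ℝ)).add
        ((hasDerivAt_pow 4 y).const_mul (9 : ℝ))
      exact HasDerivAt.congr_deriv h (by norm_num; ring)
    have h4 := h1.sub (h2.div h3 hD.ne')
    refine HasDerivAt.congr_deriv h4 ?_
    have h5 : (1 + y ^ 2) ≠ 0 := by positivity
    field_simp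
    ring
  have hmono : MonotoneOn F (Set.Icc 0 t) := by
    apply monotoneOn_of_deriv_nonneg (convex_Icc 0 t)
    · intro y _
      exact (hder y).continuousAt.continuousWithinAt
    · intro y _
      exact (hder y).differentiableAt.differentiableWithinAt
    · intro y _
      rw [(hder y).deriv]
      positivity
  have := hmono ⟨le_rfl, ht⟩ ⟨ht, le_rfl⟩ ht
  simp only [hF] at this
  norm_num at this
  linarith

private lemma poly_nonneg {t : ℝ} (ht0 : 0 ≤ t) (ht1 : t ≤ 1) :
    0 ≤ 699431250 - 5238523500 * t + 15169601985 * t ^ 2 - 24948636630 * t ^ 3 + 31773688865 * t ^ 4 - 30873363470 * t ^ 5 + 22987662943 * t ^ 6 - 13140694994 * t ^ 7 + 5317334813 * t ^ 8 - 1250364654 * t ^ 9 := by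
  rcases le_or_gt t (1/4) with h0 | h0
  · have a1 : 0 ≤ t - 0 := by linarith
    have a2 : 0 ≤ 1/4 - t := by linarith
    have e : 699431250 - 5238523500 * t + 15169601985 * t ^ 2 - 24948636630 * t ^ 3 + 31773688865 * t ^ 4 - 30873363470 * t ^ 5 + 22987662943 * t ^ 6 - 13140694994 * t ^ 7 + 5317334813 * t ^ 8 - 1250364654 * t ^ 9 =
        183351705600000 * ((t - 0) ^ 0 * (1/4 - t) ^ 9)
        + 1306853474304000 * ((t - 0) ^ 1 * (1/4 - t) ^ 8)
        + 4102705151754240 * ((t - 0) ^ 2 * (1/4 - t) ^ 7)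
        + 7426392436531200 * ((t - 0) ^ 3 * (1/4 - t) ^ 6)
        + 8515562345169920 * ((t - 0) ^ 4 * (1/4 - t) ^ 5)
        + 6391273612551680 * ((t - 0) ^ 5 * (1/4 - t) ^ 4)
        + 3126361918785472 * ((t - 0) ^ 6 * (1/4 - t) ^ 3)
        + 956543041584672 * ((t - 0) ^ 7 * (1/4 - t) ^ 2)
        + 165385321448820 * ((t - 0) ^ 8 * (1/4 - t) ^ 1)
        + 12302627422246 * ((t - 0) ^ 9 * (1/4 - t) ^ 0) := by ring
    rw [e]
    positivity
  rcases le_or_gt t (3/8) with h1 | h1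
  · have a1 : 0 ≤ t - 1/4 := by linarith
    have a2 : 0 ≤ 3/8 - t := by linarith
    have e : 699431250 - 5238523500 * t + 15169601985 * t ^ 2 - 24948636630 * t ^ 3 + 31773688865 * t ^ 4 - 30873363470 * t ^ 5 + 22987662943 * t ^ 6 - 13140694994 * t ^ 7 + 5317334813 * t ^ 8 - 1250364654 * t ^ 9 =
        6298945240189952 * ((t - 1/4) ^ 0 * (3/8 - t) ^ 9)
        + 42697118451666432 * ((t - 1/4) ^ 1 * (3/8 - t) ^ 8)
        + 124588366287449088 * ((t - 1/4) ^ 2 * (3/8 - t) ^ 7)
        + 203923196354811392 * ((t - 1/4) ^ 3 * (3/8 - t) ^ 6)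
        + 204844907991776896 * ((t - 1/4) ^ 4 * (3/8 - t) ^ 5)
        + 130798894465603648 * ((t - 1/4) ^ 5 * (3/8 - t) ^ 4)
        + 54548757805176768 * ((t - 1/4) ^ 6 * (3/8 - t) ^ 3)
        + 16052104815981792 * ((t - 1/4) ^ 7 * (3/8 - t) ^ 2)
        + 3736048720424748 * ((t - 1/4) ^ 8 * (3/8 - t) ^ 1)
        + 545710706589534 * ((t - 1/4) ^ 9 * (3/8 - t) ^ 0) := by ring
    rw [e]
    positivity
  rcases le_or_gt t (1/2) with h2 | h2
  · have a1 : 0 ≤ t - 3/8 := by linarith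
    have a2 : 0 ≤ 1/2 - t := by linarith
    have e : 699431250 - 5238523500 * t + 15169601985 * t ^ 2 - 24948636630 * t ^ 3 + 31773688865 * t ^ 4 - 30873363470 * t ^ 5 + 22987662943 * t ^ 6 - 13140694994 * t ^ 7 + 5317334813 * t ^ 8 - 1250364654 * t ^ 9 =
        545710706589534 * ((t - 3/8) ^ 0 * (1/2 - t) ^ 9)
        + 6086743998186864 * ((t - 3/8) ^ 1 * (1/2 - t) ^ 8)
        + 34857667038078720 * ((t - 3/8) ^ 2 * (1/2 - t) ^ 7)
        + 118460847759163392 * ((t - 3/8) ^ 3 * (1/2 - t) ^ 6)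
        + 250993563080166400 * ((t - 3/8) ^ 4 * (1/2 - t) ^ 5)
        + 340738918921838592 * ((t - 3/8) ^ 5 * (1/2 - t) ^ 4)
        + 297238610790449152 * ((t - 3/8) ^ 6 * (1/2 - t) ^ 3)
        + 161532769347829760 * ((t - 3/8) ^ 7 * (1/2 - t) ^ 2)
        + 49881548304285696 * ((t - 3/8) ^ 8 * (1/2 - t) ^ 1)
        + 6697818642186240 * ((t - 3/8) ^ 9 * (1/2 - t) ^ 0) := by ring
    rw [e]
    positivity
  have a1 : 0 ≤ t - 1/2 := by linarith
  have a2 : 0 ≤ 1 - t := by linarith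
  have e : 699431250 - 5238523500 * t + 15169601985 * t ^ 2 - 24948636630 * t ^ 3 + 31773688865 * t ^ 4 - 30873363470 * t ^ 5 + 22987662943 * t ^ 6 - 13140694994 * t ^ 7 + 5317334813 * t ^ 8 - 1250364654 * t ^ 9 =
        25550150460 * ((t - 1/2) ^ 0 * (1 - t) ^ 9)
        + 388624747014 * ((t - 1/2) ^ 1 * (1 - t) ^ 8)
        + 2409032283200 * ((t - 1/2) ^ 2 * (1 - t) ^ 7)
        + 7987366619688 * ((t - 1/2) ^ 3 * (1 - t) ^ 6)
        + 15930780793248 * ((t - 1/2) ^ 4 * (1 - t) ^ 5)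
        + 20118732428800 * ((t - 1/2) ^ 5 * (1 - t) ^ 4)
        + 16223799420928 * ((t - 1/2) ^ 6 * (1 - t) ^ 3)
        + 8071804224000 * ((t - 1/2) ^ 7 * (1 - t) ^ 2)
        + 2232637679616 * ((t - 1/2) ^ 8 * (1 - t) ^ 1)
        + 254021943296 * ((t - 1/2) ^ 9 * (1 - t) ^ 0) := by ring
  rw [e]
  positivity

private lemma key_ineq {t : ℝ} (ht0 : 0 < t) (ht1 : t ≤ 1) :
    133 / 100 * (π / 2 - arctan t) ≤
      (365 / 1000 + 2 * (133 / 100) * t) * (365 / 1000 + 133 / 100 * t) /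
        (t * (1 + t * (365 / 1000 + 133 / 100 * t))) - (365 / 1000 + 133 / 100 * t) / (1 + t ^ 2) := by
  have h1 := arctan_ge ht0.le
  have hpi : π / 2 ≤ 15708 / 10000 := by
    have := pi_lt_d4
    norm_num at this ⊢
    linarith
  have hD : 0 < 105 + 90 * t ^ 2 + 9 * t ^ 4 := by positivity
  have h2 : 133 / 100 * (π / 2 - arctan t) ≤
      133 / 100 * (15708 / 10000 - (105 * t + 55 * t ^ 3) / (105 + 90 * t ^ 2 + 9 * t ^ 4)) := by
    linarith
  refine le_trans h2 ?_
  rw [← sub_nonneg]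
  have hP := poly_nonneg ht0.le ht1
  have e : (365 / 1000 + 2 * (133 / 100) * t) * (365 / 1000 + 133 / 100 * t) /
        (t * (1 + t * (365 / 1000 + 133 / 100 * t))) - (365 / 1000 + 133 / 100 * t) / (1 + t ^ 2)
      - 133 / 100 * (15708 / 10000 - (105 * t + 55 * t ^ 3) / (105 + 90 * t ^ 2 + 9 * t ^ 4))
      = (699431250 - 5238523500 * t + 15169601985 * t ^ 2 - 24948636630 * t ^ 3 + 31773688865 * t ^ 4 - 30873363470 * t ^ 5 + 22987662943 * t ^ 6 - 13140694994 * t ^ 7 + 5317334813 * t ^ 8 - 1250364654 * t ^ 9) /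
        (50000000 * (t * (1 + t * (365 / 1000 + 133 / 100 * t)) * (1 + t ^ 2) *
          (105 + 90 * t ^ 2 + 9 * t ^ 4))) := by
    have h3 : (1 + t * (365 / 1000 + 133 / 100 * t)) ≠ 0 := by positivity
    have h4 : (1 + t ^ 2) ≠ 0 := by positivity
    have h5 : t ≠ 0 := ht0.ne'
    have h6 : (105 + 90 * t ^ 2 + 9 * t ^ 4) ≠ 0 := hD.ne'
    field_simp
    ring
  rw [e]
  positivity

private lemma log_num : (46345 : ℝ) / 100000 ≤ log (539 / 339) := by
  have h := hasSum_log_sub_log_of_abs_lt_one (x := (100 / 439 : ℝ)) (by rw [abs_lt]; constructor <;> norm_num)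
  have h2 := sum_le_hasSum (Finset.range 2) (fun i _ => by positivity) h
  have h3 : log (1 + 100 / 439) - log (1 - 100 / 439) = log ((539 : ℝ) / 339) := by
    rw [← log_div (by norm_num) (by norm_num)]
    congr 1
    norm_num
  rw [h3] at h2
  refine le_trans ?_ h2
  simp only [Finset.sum_range_succ, Finset.sum_range_zero]
  norm_num

/-- the explicit `κ` -/
theorem kap_spec {β : ℝ} (hβ0 : 0 < β) (hβ : β ≤ π / 4) :
    (π / 2 - β) * tan β ≤ kap β * log (1 + 1 / kap β) := by
  set t : ℝ := tan β with ht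
  have ht0 : 0 < t := tan_pos_of_pos_of_lt_pi_div_two hβ0 (by linarith [pi_pos])
  have ht1 : t ≤ 1 := by
    rw [ht, ← tan_pi_div_four]
    rcases eq_or_lt_of_le hβ with h | h
    · rw [h]
    · exact (tan_lt_tan_of_lt_of_lt_pi_div_two (by linarith [pi_pos]) (by linarith [pi_pos]) h).le
  have hβt : β = arctan t := by
    rw [ht, arctan_tan (by linarith [pi_pos]) (by linarith [pi_pos])]
  have hk : kap β = t * (365 / 1000 + 133 / 100 * t) := by
    unfold kap
    rw [← ht]
    ring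
  rw [hk]
  set G : ℝ → ℝ := fun y => log (1 + y * (365 / 1000 + 133 / 100 * y))
    - log (y * (365 / 1000 + 133 / 100 * y)) - (π / 2 - arctan y) / (365 / 1000 + 133 / 100 * y) with hG
  have hder : ∀ y : ℝ, 0 < y → HasDerivAt G
      ((365 / 1000 + 2 * (133 / 100) * y) / (1 + y * (365 / 1000 + 133 / 100 * y))
        - (365 / 1000 + 2 * (133 / 100) * y) / (y * (365 / 1000 + 133 / 100 * y))
        - (-(1 / (1 + y ^ 2)) * (365 / 1000 + 133 / 100 * y) - (π / 2 - arctan y) * (133 / 100)) /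
          (365 / 1000 + 133 / 100 * y) ^ 2) y := by
    intro y hy
    have hw : HasDerivAt (fun y : ℝ => 365 / 1000 + 133 / 100 * y) (133 / 100) y := by
      have := ((hasDerivAt_id y).const_mul (133 / 100 : ℝ)).const_add (365 / 1000 : ℝ)
      simpa using this
    have hkd : HasDerivAt (fun y : ℝ => y * (365 / 1000 + 133 / 100 * y))
        (365 / 1000 + 2 * (133 / 100) * y) y := by
      have h := (hasDerivAt_id y).mul hw
      exact HasDerivAt.congr_deriv h (by simp only [id]; ring)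
    have h1 := (hkd.const_add 1).log (by positivity : (1 + y * (365 / 1000 + 133 / 100 * y)) ≠ 0)
    have h2 := hkd.log (by positivity : y * (365 / 1000 + 133 / 100 * y) ≠ 0)
    have h3 := ((hasDerivAt_arctan y).const_sub (π / 2)).div hw
      (by positivity : (365 / 1000 + 133 / 100 * y) ≠ 0)
    exact (h1.sub h2).sub h3
  have hanti : AntitoneOn G (Set.Icc t 1) := by
    apply antitoneOn_of_deriv_nonpos (convex_Icc t 1)
    · intro y hy
      exact (hder y (lt_of_lt_of_le ht0 hy.1)).continuousAt.continuousWithinAt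
    · intro y hy
      rw [interior_Icc] at hy
      exact (hder y (lt_trans ht0 hy.1)).differentiableAt.differentiableWithinAt
    · intro y hy
      rw [interior_Icc] at hy
      have hy0 : 0 < y := lt_trans ht0 hy.1
      rw [(hder y hy0).deriv]
      have hkey := key_ineq hy0 hy.2.le
      have hw0 : 0 < 365 / 1000 + 133 / 100 * y := by positivity
      have e : (365 / 1000 + 2 * (133 / 100) * y) / (1 + y * (365 / 1000 + 133 / 100 * y))
        - (365 / 1000 + 2 * (133 / 100) * y) / (y * (365 / 1000 + 133 / 100 * y))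
        - (-(1 / (1 + y ^ 2)) * (365 / 1000 + 133 / 100 * y) - (π / 2 - arctan y) * (133 / 100)) /
          (365 / 1000 + 133 / 100 * y) ^ 2
        = (133 / 100 * (π / 2 - arctan y) - ((365 / 1000 + 2 * (133 / 100) * y) *
          (365 / 1000 + 133 / 100 * y) /
        (y * (1 + y * (365 / 1000 + 133 / 100 * y))) - (365 / 1000 + 133 / 100 * y) / (1 + y ^ 2))) /
          (365 / 1000 + 133 / 100 * y) ^ 2 := by
        have h3 : (1 + y * (365 / 1000 + 133 / 100 * y)) ≠ 0 := by positivity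
        have h4 : (1 + y ^ 2) ≠ 0 := by positivity
        have h5 : y ≠ 0 := hy0.ne'
        field_simp
        ring
      rw [e]
      apply div_nonpos_of_nonpos_of_nonneg
      · linarith
      · positivity
  have hG1 : 0 ≤ G 1 := by
    simp only [hG]
    rw [arctan_one]
    have h1 : log (1 + 1 * (365 / 1000 + 133 / 100 * 1)) - log (1 * (365 / 1000 + 133 / 100 * 1))
        = log ((539 : ℝ) / 339) := by
      rw [← log_div (by norm_num) (by norm_num)]
      congr 1
      norm_num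
    rw [h1]
    have h2 := log_num
    have h3 := pi_lt_d4
    norm_num at h3 ⊢
    linarith
  have hGt : 0 ≤ G t := le_trans hG1 (hanti ⟨le_rfl, ht1⟩ ⟨ht1, le_rfl⟩ ht1)
  simp only [hG] at hGt
  have hw0 : 0 < 365 / 1000 + 133 / 100 * t := by positivity
  have hlog : log (1 + 1 / (t * (365 / 1000 + 133 / 100 * t)))
      = log (1 + t * (365 / 1000 + 133 / 100 * t)) - log (t * (365 / 1000 + 133 / 100 * t)) := by
    rw [← log_div (by positivity) (by positivity)]
    congr 1
    field_simp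
    ring
  rw [hlog]
  rw [← hβt] at hGt
  have h1 : (π / 2 - β) * t = t * (365 / 1000 + 133 / 100 * t) *
      ((π / 2 - β) / (365 / 1000 + 133 / 100 * t)) := by
    field_simp
  rw [h1]
  apply mul_le_mul_of_nonneg_left _ (by positivity)
  linarith

end RP38
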