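import Pool.Agent.RP38.AngSum
import Pool.Agent.RP38.MFun

/-!
# The step inequality (module RP38:Step)

Proof.  `A_g i = ang z i g (g+k)`, `B_g i = ang z (i+g) (n-g-k) (n-g)` (chord `[i, i+g]`, partner `k`); `A_k i = ang z i k (g+k)`,
`B_k i = ang z (i+k) (n-g-k) (n-k)` (chord `[i, i+k]`, partner `g`).
`len_proj` (order `g, k`): `len (g+k) i = len g i cos (A_g i) + len k (i+g) cos (B_k (i+g))`,
(order `k, g`): `len (g+k) i = len k i cos (A_k i) + len g (i+k) cos (B_g (i+k))`.  Sum over `i`, shift indices: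
`2 ∑ len (g+k) i = ∑ len g i (cos A_g i + cos B_g i) + ∑ len k i (cos A_k i + cos B_k i)`.
With `s = A + B`, `0 < s < π` (`pair_lt_pi`; `g + 2k ≤ n`, `k + 2g ≤ n`), `cos A + cos B ≤ 2 cos (s/2)`, and by `le_M` with `v = s/2`,
`β = b k`: `len g i cos (s/2) ≤ 2 R sin (b g) (cos (b k) M (b k) (X g i) - sin (b k) (s/2 - b k))`.
`∑ (s/2 - b k) = π k - n b k = 0` (`ang_sum`).  Divide by `2 R sin (b (g+k))`.
-/

namespace RP38

open Finset Pool.Agent.RegPoly

variable {n : ℕ} [NeZero n] {z : ZMod n → ℂ}

private theorem b_pos {n h : ℕ} (hn : 0 < n) (hh : 0 < h) : 0 < b n h := by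
  unfold b
  have h1 : (0 : ℝ) < n := by exact_mod_cast hn
  have h2 : (0 : ℝ) < h := by exact_mod_cast hh
  have := Real.pi_pos
  positivity

private theorem b_lt {n h : ℕ} (hn : 0 < n) (hh : 2 * h < n) : b n h < Real.pi / 2 := by
  unfold b
  have h1 : (0 : ℝ) < n := by exact_mod_cast hn
  have h2 : 2 * (h : ℝ) < n := by exact_mod_cast hh
  rw [div_lt_div_iff₀ h1 (by norm_num)]
  have := Real.pi_pos
  nlinarith

private theorem RR_pos {n : ℕ} (hn : 2 ≤ n) : 0 < RR n := by
  unfold RR
  have h1 : (2 : ℝ) ≤ n := by exact_mod_cast hn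
  have hpi := Real.pi_pos
  have h2 : 0 < Real.pi / (2 * (n : ℝ)) := by positivity
  have h3 : Real.pi / (2 * (n : ℝ)) < Real.pi / 2 := by
    rw [div_lt_div_iff₀ (by positivity) (by norm_num)]
    nlinarith
  have := Real.cos_pos_of_mem_Ioo ⟨by linarith, h3⟩
  positivity

/-- one half of the step: the chords of class `g` with the partner class `k` -/
private theorem half_step (hz : CPos z) {g k : ℕ} (hg : 0 < g) (hk : 0 < k)
    (hgk : 2 * (g + k) < n) :
    ∑ i, len z g i * (Real.cos (ang z i g (g + k))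
        + Real.cos (ang z (i + (g : ZMod n)) (n - g - k) (n - g)))
      ≤ 4 * RR n * (Real.sin (b n g) * Real.cos (b n k)) * ∑ i, M (b n k) (X z g i) := by
  have hn : 0 < n := by omega
  have hn3 : 3 ≤ n := by omega
  have hbg := b_pos hn hg
  have hbg' : b n g < Real.pi / 2 := b_lt hn (by omega)
  have hbk := b_pos hn hk
  have hbk' : b n k < Real.pi / 2 := b_lt hn (by omega)
  have hR := RR_pos (n := n) (by omega)
  have hsg : 0 < Real.sin (b n g) := Real.sin_pos_of_pos_of_lt_pi hbg (by linarith [Real.pi_pos])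
  have hck : 0 < Real.cos (b n k) := Real.cos_pos_of_mem_Ioo ⟨by linarith, hbk'⟩
  have hsk : 0 < Real.sin (b n k) := Real.sin_pos_of_pos_of_lt_pi hbk (by linarith [Real.pi_pos])
  set s : ZMod n → ℝ := fun i => ang z i g (g + k)
    + ang z (i + (g : ZMod n)) (n - g - k) (n - g) with hs
  have hsum : ∑ i, (s i / 2 - b n k) = 0 := by
    have h1 := ang_sum hz hg hk (by omega : g + k < n)
    rw [Finset.sum_sub_distrib, ← Finset.sum_div, Finset.sum_const, Finset.card_univ, ZMod.card,
      nsmul_eq_mul]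
    have h2 : ∑ i, s i = 2 * Real.pi * (k : ℝ) := h1
    rw [h2]
    unfold b
    have h3 : (n : ℝ) ≠ 0 := by positivity
    field_simp
    ring
  have hpt : ∀ i : ZMod n, len z g i * (Real.cos (ang z i g (g + k))
        + Real.cos (ang z (i + (g : ZMod n)) (n - g - k) (n - g)))
      ≤ 4 * RR n * (Real.sin (b n g) * Real.cos (b n k)) * M (b n k) (X z g i)
        - 4 * RR n * (Real.sin (b n g) * Real.sin (b n k)) * (s i / 2 - b n k) := by
    intro i
    have hA := ang_pos hz i (a := g) (c := g + k) hg (by omega) (by omega)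
    have hB := ang_pos hz (i + (g : ZMod n)) (a := n - g - k) (c := n - g) (by omega) (by omega)
      (by omega)
    have hlt := pair_lt_pi hz i hg hk (by omega : g + 2 * k ≤ n)
    have hlen : 0 < len z g i := by
      unfold len
      rw [norm_pos_iff, sub_ne_zero]
      exact CPos.ne hz hn3 i hg (by omega)
    have hX : 0 < X z g i := by
      unfold X
      positivity
    have hlX : len z g i = 2 * RR n * Real.sin (b n g) * X z g i := by
      unfold X
      field_simp
    have hcos := cos_add_cos_le hA.le hB.le hlt.le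
    have hM := le_M hbk hbk' hX (v := s i / 2) (by simp only [hs]; linarith)
      (by simp only [hs]; linarith)
    rw [Real.tan_eq_sin_div_cos] at hM
    have hM' : X z g i * Real.cos (s i / 2) + Real.sin (b n k) * (s i / 2 - b n k) ≤
        Real.cos (b n k) * M (b n k) (X z g i) := by
      have h1 := mul_le_mul_of_nonneg_left hM hck.le
      refine le_trans (le_of_eq ?_) h1
      field_simp
    have h2 : len z g i * (Real.cos (ang z i g (g + k))
        + Real.cos (ang z (i + (g : ZMod n)) (n - g - k) (n - g))) ≤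
        len z g i * (2 * Real.cos (s i / 2)) := mul_le_mul_of_nonneg_left hcos hlen.le
    refine h2.trans ?_
    rw [hlX]
    have h3 : 0 < 4 * RR n * Real.sin (b n g) := by positivity
    have h4 := mul_le_mul_of_nonneg_left hM' h3.le
    nlinarith [h4]
  refine (Finset.sum_le_sum fun i _ => hpt i).trans ?_
  rw [Finset.sum_sub_distrib, ← Finset.mul_sum, ← Finset.mul_sum, hsum]
  simp

private theorem len_sum (hz : CPos z) {g k : ℕ} (hg : 0 < g) (hk : 0 < k) (hgk : g + k < n) :
    ∑ i, len z (g + k) i = ∑ i, len z g i * Real.cos (ang z i g (g + k))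
      + ∑ i, len z k i * Real.cos (ang z (i + (k : ZMod n)) (n - k - g) (n - k)) := by
  have h1 : ∀ i : ZMod n, len z (g + k) i = len z g i * Real.cos (ang z i g (g + k))
      + len z k (i + (g : ZMod n)) *
        Real.cos (ang z (i + (g : ZMod n) + (k : ZMod n)) (n - k - g) (n - k)) := by
    intro i
    rw [len_proj hz i hg hk hgk, Nat.sub_right_comm n g k]
  rw [Finset.sum_congr rfl fun i _ => h1 i, Finset.sum_add_distrib]
  congr 1
  exact Equiv.sum_comp (Equiv.addRight (g : ZMod n)) (fun i => len z k i *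
    Real.cos (ang z (i + (k : ZMod n)) (n - k - g) (n - k)))

theorem step (hz : CPos z) {g k : ℕ} (hg : 0 < g) (hk : 0 < k) (hgk : 2 * (g + k) < n) :
    ∑ i, X z (g + k) i
      ≤ ∑ i, (Real.sin (b n g) * Real.cos (b n k) / Real.sin (b n (g + k)) * M (b n k) (X z g i)
        + Real.sin (b n k) * Real.cos (b n g) / Real.sin (b n (g + k)) * M (b n g) (X z k i)) := by
  have hn : 0 < n := by omega
  have hR := RR_pos (n := n) (by omega)
  have hb : 0 < b n (g + k) := b_pos hn (by omega)
  have hb' : b n (g + k) < Real.pi / 2 := b_lt hn (by omega)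
  have hs : 0 < Real.sin (b n (g + k)) :=
    Real.sin_pos_of_pos_of_lt_pi hb (by linarith [Real.pi_pos])
  have h1 := len_sum hz hg hk (by omega : g + k < n)
  have h2 := len_sum hz hk hg (by omega : k + g < n)
  have h3 := half_step hz hg hk hgk
  have h4 := half_step hz hk hg (by omega : 2 * (k + g) < n)
  rw [Nat.add_comm k g] at h2
  rw [Nat.add_comm k g] at h4
  simp only [mul_add, Finset.sum_add_distrib] at h3 h4
  have h5 : ∑ i, len z (g + k) i ≤
      2 * RR n * (Real.sin (b n g) * Real.cos (b n k)) * ∑ i, M (b n k) (X z g i)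
      + 2 * RR n * (Real.sin (b n k) * Real.cos (b n g)) * ∑ i, M (b n g) (X z k i) := by
    linarith
  have h6 : ∑ i, X z (g + k) i = (∑ i, len z (g + k) i) / (2 * RR n * Real.sin (b n (g + k))) := by
    unfold X
    rw [Finset.sum_div]
  rw [h6, Finset.sum_add_distrib, ← Finset.mul_sum, ← Finset.mul_sum,
    div_le_iff₀ (by positivity)]
  refine h5.trans (le_of_eq ?_)
  field_simp

end RP38
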